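import Pool.Agent.Lib.MP_e43fce_nt_coal.Basic

/-!
Coalescence of Collatz orbits: from every state `(0, g)` the state `(0, 0)` can be reached; a uniform
bound below `1` for `u m` on the finite set `B`.
-/

set_option autoImplicit false

namespace Pool.Agent.Lib.MP_e43fce_nt_coal

namespace Access

theorem acc_step {s : St} (b : Bool) (h : ∃ K, u K (step s b) < 1) : ∃ K, u K s < 1 := by
  obtain ⟨K, hK⟩ := h
  refine ⟨K + 1, ?_⟩
  have h1 := u_le_one K (step s false)
  have h2 := u_le_one K (step s true)
  simp only [u, avg]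
  cases b
  · linarith
  · linarith

theorem acc_one (N : ℕ) (hN : ∀ y : ℤ, 0 ≤ y → y.natAbs < N → ∃ K, u K (0, y) < 1) (n : ℕ) :
    ∀ x : ℤ, 0 < x → x.natAbs ≤ n → (x - 1) / 2 < N → ∃ K, u K (1, x) < 1 := by
  induction n with
  | zero => intro x hx hn _; omega
  | succ n ih =>
    intro x hx hn hb
    by_cases he : x % 2 = 0
    · apply acc_step false
      have hs : step (1, x) false = (1, x / 2) := by simp [step, he]
      rw [hs]
      exact ih (x / 2) (by omega) (by omega) (by omega)
    · apply acc_step true
      have hs : step (1, x) true = (0, (x - 1) / 2) := by simp [step, he]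
      rw [hs]
      exact hN _ (by omega) (by omega)

theorem acc_zero (n : ℕ) : ∀ g : ℤ, g.natAbs ≤ n → ∃ K, u K (0, g) < 1 := by
  induction n with
  | zero =>
    intro g hg
    have : g = 0 := by omega
    subst this
    exact ⟨0, by rw [u_zero]; norm_num⟩
  | succ n ih =>
    intro g hg
    by_cases h0 : g = 0
    · exact ih g (by omega)
    by_cases he : g % 2 = 0
    · apply acc_step false
      have hs : step (0, g) false = (0, g / 2) := by simp [step, he]
      rw [hs]
      exact ih _ (by omega)
    · rcases lt_or_gt_of_ne h0 with hneg | hpos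
      · apply acc_step true
        have hs : step (0, g) true = (1, (1 - 3 * g) / 2) := by simp [step, he]
        rw [hs]
        exact acc_one (n + 1) (fun y _ hy => ih y (by omega)) ((1 - 3 * g) / 2).natAbs _
          (by omega) le_rfl (by omega)
      · apply acc_step false
        have hs : step (0, g) false = (1, (3 * g + 1) / 2) := by simp [step, he]
        rw [hs]
        exact acc_one (n + 1) (fun y _ hy => ih y (by omega)) ((3 * g + 1) / 2).natAbs _
          (by omega) le_rfl (by omega)

end Access

theorem access : ∃ m : ℕ, ∃ β : ℝ, β < 1 ∧ ∀ s, inB s → u m s ≤ β := by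
  have h : ∀ g : ℤ, ∃ K, u K (0, g) < 1 := fun g => Access.acc_zero g.natAbs g le_rfl
  choose K hK using h
  set S : Finset ℤ := Finset.Icc (-10 ^ 7) (10 ^ 7) with hS
  have hne : S.Nonempty := ⟨0, by rw [hS, Finset.mem_Icc]; constructor <;> norm_num⟩
  set m := S.sup K with hm
  obtain ⟨g0, hg0, hmax⟩ := S.exists_max_image (fun g => u m (0, g)) hne
  refine ⟨m, u m (0, g0), ?_, ?_⟩
  · exact (u_anti (Finset.le_sup hg0) _).trans_lt (hK g0)
  · rintro ⟨d, g⟩ ⟨hd, hg⟩
    simp only at hd hg
    subst hd
    apply hmax
    rw [hS, Finset.mem_Icc]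
    exact abs_le.1 hg

end Pool.Agent.Lib.MP_e43fce_nt_coal
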