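import Pool.Agent.Lib.MP_e43fce_nt_coal.Defs

/-! Afun: the potential of the stays. -/

set_option autoImplicit false

namespace Pool.Agent.Lib.MP_e43fce_nt_coal

theorem w_zero : w 0 = 0 := by simp [w]

theorem w_one : w 1 = 1 := by
  have h : (3 : ℕ) ^ 1 - 1 = 2 := by norm_num
  rw [w, h]
  exact padicValNat.self (by norm_num)

private theorem afun_ne (d : ℕ) (hd : 1 ≤ d) : 3 ^ d - 1 ≠ 0 := by
  have h : 3 ^ 1 ≤ 3 ^ d := Nat.pow_le_pow_right (by norm_num) hd
  omega

theorem w_le (d : ℕ) (hd : 1 ≤ d) : w d + 1 ≤ 2 * d := by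
  have h0 := afun_ne d hd
  have h1 : 2 ^ w d ∣ 3 ^ d - 1 := pow_padicValNat_dvd
  have h2 : 2 ^ w d ≤ 3 ^ d - 1 := Nat.le_of_dvd (Nat.pos_of_ne_zero h0) h1
  have h3 : 3 ^ d ≤ 4 ^ d := Nat.pow_le_pow_left (by norm_num) d
  have h4 : (4 : ℕ) ^ d = 2 ^ (2 * d) := by
    rw [pow_mul]
    norm_num
  have h5 : 2 ^ w d < 2 ^ (2 * d) := by omega
  exact (Nat.pow_lt_pow_iff_right (by norm_num)).1 h5

private theorem afun_vv_le (k : ℕ) (g : ℤ) : vv k g ≤ k := by
  induction k generalizing g with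
  | zero => exact le_refl _
  | succ k ih =>
    unfold vv
    split_ifs
    · exact Nat.succ_le_succ (ih _)
    · exact Nat.zero_le _

theorem a_eq_zero (s : St) (h : s.1 = 0 ∨ s.2 % 2 ≠ 0) : a s = 0 := by
  unfold a
  rw [if_pos h]

theorem a_le (s : St) : a s ≤ w s.1 + 2 := by
  unfold a
  split_ifs
  · exact Nat.zero_le _
  · exact le_refl _
  · exact (afun_vv_le _ _).trans (Nat.le_add_right _ _)

/-- the value of `vv` -/
private theorem afun_vv (k : ℕ) : ∀ (j : ℕ) (x : ℤ), j < k → (2 : ℤ) ^ j ∣ x → ¬ (2 : ℤ) ^ (j + 1) ∣ x →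
    vv k x = j := by
  induction k with
  | zero => intro j x hj; exact absurd hj (Nat.not_lt_zero _)
  | succ k ih =>
    intro j x hj h1 h2
    unfold vv
    cases j with
    | zero =>
      rw [if_neg]
      intro h
      apply h2
      simpa using Int.dvd_of_emod_eq_zero h
    | succ j =>
      have h3 : (2 : ℤ) ∣ x := dvd_trans (dvd_pow_self 2 (Nat.succ_ne_zero j)) h1
      have h4 : x % 2 = 0 := Int.emod_eq_zero_of_dvd h3
      rw [if_pos h4]
      obtain ⟨y, rfl⟩ := h3
      have h5 : (2 * y) / 2 = y := by omega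
      rw [h5, ih j y (by omega)]
      · rw [pow_succ'] at h1
        exact Int.dvd_of_mul_dvd_mul_left (by norm_num) h1
      · intro h6
        apply h2
        rw [pow_succ' _ (j + 1)]
        exact mul_dvd_mul_left 2 h6

/-- the value of `a` if the exponent of `2` in the offset is small -/
private theorem afun_a (d : ℕ) (hd : d ≠ 0) (j : ℕ) (x : ℤ) (hj : j < w d) (h1 : (2 : ℤ) ^ j ∣ x)
    (h2 : ¬ (2 : ℤ) ^ (j + 1) ∣ x) : a (d, x) = j := by
  unfold a
  cases j with
  | zero =>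
    rw [if_pos]
    right
    intro h
    apply h2
    simpa using Int.dvd_of_emod_eq_zero h
  | succ j =>
    have h3 : (2 : ℤ) ∣ x := dvd_trans (dvd_pow_self 2 (Nat.succ_ne_zero j)) h1
    have h4 : x % 2 = 0 := Int.emod_eq_zero_of_dvd h3
    rw [if_neg (by
      rintro (h | h)
      · exact hd h
      · exact h h4), if_neg]
    · exact afun_vv (w d) (j + 1) x hj h1 h2
    · intro h
      exact h2 (dvd_trans (pow_dvd_pow 2 hj) h)

theorem a_stay (s : St) (hd : s.1 ≠ 0) (hg : s.2 % 2 = 0) :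
    ((a (step s false) : ℝ) + a (step s true)) / 2 ≤ a s - 1 := by
  obtain ⟨d, g⟩ := s
  simp only at hd hg
  obtain ⟨y, rfl⟩ : (2 : ℤ) ∣ g := Int.dvd_of_emod_eq_zero hg
  have hd1 : 1 ≤ d := Nat.one_le_iff_ne_zero.2 hd
  have h0 := afun_ne d hd1
  -- the number `3 ^ d - 1`
  have hpow : 1 ≤ 3 ^ d := Nat.one_le_pow _ _ (by norm_num)
  have hcast : ((3 ^ d - 1 : ℕ) : ℤ) = 3 ^ d - 1 := by
    push_cast [Nat.cast_sub hpow]
    ring
  have hW1 : (2 : ℤ) ^ w d ∣ 3 ^ d - 1 := by
    rw [← hcast]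
    exact_mod_cast (pow_padicValNat_dvd : 2 ^ w d ∣ 3 ^ d - 1)
  have hW2 : ¬ (2 : ℤ) ^ (w d + 1) ∣ 3 ^ d - 1 := by
    rw [← hcast]
    intro h
    have h1 : 2 ^ (w d + 1) ∣ 3 ^ d - 1 := by exact_mod_cast h
    exact pow_succ_padicValNat_not_dvd h0 h1
  have hodd : (3 : ℤ) ^ d % 2 = 1 := by
    have h1 : Odd ((3 : ℤ) ^ d) := Odd.pow (by decide)
    exact Int.odd_iff.1 h1
  obtain ⟨t, ht⟩ : (2 : ℤ) ∣ 3 ^ d - 1 := by omega
  have hW0 : 1 ≤ w d := by
    by_contra hcon
    have h1 : w d = 0 := by omega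
    apply hW2
    rw [h1, zero_add, pow_one, ht]
    exact dvd_mul_right _ _
  have hs1 : step (d, 2 * y) false = (d, y) := by
    unfold step
    rw [if_pos hg]
    simp
  have hs2 : step (d, 2 * y) true = (d, 3 * y - t) := by
    unfold step
    rw [if_pos hg]
    simp only [if_true]
    congr 1
    have h1 : (3 * (2 * y) + 1 - (3 : ℤ) ^ d) = 2 * (3 * y - t) := by linarith
    rw [h1]
    omega
  rw [hs1, hs2]
  obtain ⟨W, hW⟩ : ∃ W, w d = W + 1 := ⟨w d - 1, by omega⟩
  -- the exponents for `t`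
  have ht1 : (2 : ℤ) ^ W ∣ t := by
    rw [hW, ht, pow_succ'] at hW1
    exact Int.dvd_of_mul_dvd_mul_left (by norm_num) hW1
  have ht2 : ¬ (2 : ℤ) ^ (W + 1) ∣ t := by
    intro h
    apply hW2
    rw [hW, ht, pow_succ' _ (W + 1)]
    exact mul_dvd_mul_left 2 h
  have h3 : ∀ j : ℕ, (2 : ℤ) ^ j ∣ 3 * y ↔ (2 : ℤ) ^ j ∣ y := by
    intro j
    have hc : IsCoprime ((2 : ℤ) ^ j) 3 := IsCoprime.pow_left (by norm_num)
    exact ⟨fun h => hc.dvd_of_dvd_mul_left h, fun h => dvd_mul_of_dvd_right h 3⟩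
  by_cases hA : (2 : ℤ) ^ (W + 1) ∣ 2 * y
  · -- the offset is divisible by `2 ^ w`
    have ha : a (d, 2 * y) = w d + 2 := by
      unfold a
      rw [if_neg (by
        rintro (h | h)
        · exact hd h
        · exact h hg), if_pos (by rw [hW]; exact hA)]
    have hy : (2 : ℤ) ^ W ∣ y := by
      rw [pow_succ'] at hA
      exact Int.dvd_of_mul_dvd_mul_left (by norm_num) hA
    rw [ha, hW]
    by_cases hB : (2 : ℤ) ^ (W + 1) ∣ y
    · have h4 : a (d, 3 * y - t) = W := by
        apply afun_a d hd W _ (by omega)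
        · exact dvd_sub (dvd_mul_of_dvd_right hy 3) ht1
        · intro h
          apply ht2
          have h5 := dvd_sub (dvd_mul_of_dvd_right hB 3) h
          have h6 : 3 * y - (3 * y - t) = t := by ring
          rwa [h6] at h5
      have h5 := a_le (d, y)
      simp only [hW] at h5
      have h6 : (a (d, y) : ℝ) ≤ W + 1 + 2 := by exact_mod_cast h5
      rw [h4]
      push_cast
      linarith
    · have h4 : a (d, y) = W := afun_a d hd W _ (by omega) hy hB
      have h5 := a_le (d, 3 * y - t)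
      simp only [hW] at h5
      have h6 : (a (d, 3 * y - t) : ℝ) ≤ W + 1 + 2 := by exact_mod_cast h5
      rw [h4]
      push_cast
      linarith
  · -- the exponent `v` of the offset is smaller
    have hex : ∃ v, ¬ (2 : ℤ) ^ (v + 1) ∣ y := by
      refine ⟨W, fun h => hA ?_⟩
      exact dvd_mul_of_dvd_right h 2
    classical
    set v := Nat.find hex with hv
    have hv1 : ¬ (2 : ℤ) ^ (v + 1) ∣ y := Nat.find_spec hex
    have hv2 : (2 : ℤ) ^ v ∣ y := by
      rcases Nat.eq_zero_or_pos v with h | h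
      · rw [h, pow_zero]
        exact one_dvd _
      · have h5 := Nat.find_min hex (m := v - 1) (by omega)
        rw [not_not] at h5
        have h6 : v - 1 + 1 = v := by omega
        rwa [h6] at h5
    have hvW : v < W := by
      by_contra hcon
      apply hA
      rw [pow_succ']
      exact mul_dvd_mul_left 2 (dvd_trans (pow_dvd_pow 2 (by omega)) hv2)
    have ha : a (d, 2 * y) = v + 1 := by
      apply afun_a d hd (v + 1) _ (by omega)
      · rw [pow_succ']
        exact mul_dvd_mul_left 2 hv2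
      · intro h
        apply hv1
        rw [pow_succ' _ (v + 1)] at h
        exact Int.dvd_of_mul_dvd_mul_left (by norm_num) h
    have h4 : a (d, y) = v := afun_a d hd v _ (by omega) hv2 hv1
    have h5 : a (d, 3 * y - t) = v := by
      apply afun_a d hd v _ (by omega)
      · exact dvd_sub (dvd_mul_of_dvd_right hv2 3) (dvd_trans (pow_dvd_pow 2 hvW.le) ht1)
      · intro h
        apply hv1
        rw [← h3]
        have h6 := dvd_add h (dvd_trans (pow_dvd_pow 2 (by omega : v + 1 ≤ W)) ht1)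
        have h7 : 3 * y - t + t = 3 * y := by ring
        rwa [h7] at h6
    rw [ha, h4, h5]
    push_cast
    linarith

end Pool.Agent.Lib.MP_e43fce_nt_coal
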