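import Pool.Agent.Lib.MP_e43fce_nt_coal.Defs

/-!
Coalescence of Collatz orbits: basic facts on the averaging operator and the functions `u`, `e`.
-/

set_option autoImplicit false

namespace Pool.Agent.Lib.MP_e43fce_nt_coal

theorem avg_mono {f g : St → ℝ} (h : ∀ s, f s ≤ g s) (s : St) : avg f s ≤ avg g s := by
  unfold avg
  have h1 := h (step s false)
  have h2 := h (step s true)
  linarith

theorem step_zero (b : Bool) : step (0, 0) b = (0, 0) := by
  cases b <;> simp [step]

theorem u_nonneg (K : ℕ) (s : St) : 0 ≤ u K s := by
  induction K generalizing s with
  | zero => simp only [u]; split_ifs <;> norm_num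
  | succ K ih =>
    simp only [u, avg]
    have h1 := ih (step s false)
    have h2 := ih (step s true)
    linarith

theorem u_le_one (K : ℕ) (s : St) : u K s ≤ 1 := by
  induction K generalizing s with
  | zero => simp only [u]; split_ifs <;> norm_num
  | succ K ih =>
    simp only [u, avg]
    have h1 := ih (step s false)
    have h2 := ih (step s true)
    linarith

theorem u_zero (K : ℕ) : u K (0, 0) = 0 := by
  induction K with
  | zero => simp [u]
  | succ K ih => simp only [u, avg, step_zero, ih]; norm_num

theorem u_succ_le (K : ℕ) (s : St) : u (K + 1) s ≤ u K s := by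
  induction K generalizing s with
  | zero =>
    by_cases hs : s = (0, 0)
    · subst hs
      rw [u_zero, u_zero]
    · have h1 : u 0 s = 1 := by simp only [u, if_neg hs]
      rw [h1]
      exact u_le_one _ _
  | succ K ih =>
    change avg (u (K + 1)) s ≤ avg (u K) s
    exact avg_mono ih s

theorem u_anti {K L : ℕ} (h : K ≤ L) (s : St) : u L s ≤ u K s := by
  induction L, h using Nat.le_induction with
  | base => exact le_refl _
  | succ L _ ih => exact (u_succ_le L s).trans ih

theorem u_add (k K : ℕ) (s : St) : u (k + K) s = (avg^[k] (u K)) s := by
  induction k generalizing s with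
  | zero => simp
  | succ k ih =>
    rw [Function.iterate_succ', Function.comp_apply, show k + 1 + K = (k + K) + 1 by ring]
    change avg (u (k + K)) s = _
    have : u (k + K) = avg^[k] (u K) := funext ih
    rw [this]

theorem avg_iter_mono {f g : St → ℝ} (h : ∀ s, f s ≤ g s) (k : ℕ) (s : St) :
    (avg^[k] f) s ≤ (avg^[k] g) s := by
  induction k generalizing s with
  | zero => simpa using h s
  | succ k ih =>
    rw [Function.iterate_succ', Function.comp_apply, Function.comp_apply]
    exact avg_mono ih s

theorem avg_lin (f g : St → ℝ) (α β : ℝ) (s : St) :
    avg (fun s => α * f s + β * g s) s = α * avg f s + β * avg g s := by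
  simp only [avg]; ring

theorem avg_iter_lin (f g : St → ℝ) (α β : ℝ) (k : ℕ) (s : St) :
    (avg^[k] (fun s => α * f s + β * g s)) s = α * (avg^[k] f) s + β * (avg^[k] g) s := by
  induction k generalizing s with
  | zero => simp
  | succ k ih =>
    simp only [Function.iterate_succ', Function.comp_apply]
    rw [show (avg^[k] (fun s => α * f s + β * g s)) =
      fun s => α * (avg^[k] f) s + β * (avg^[k] g) s from funext ih]
    exact avg_lin _ _ _ _ _

theorem avg_iter_const (α : ℝ) (k : ℕ) (s : St) : (avg^[k] (fun _ => α)) s = α := by
  induction k generalizing s with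
  | zero => simp
  | succ k ih =>
    simp only [Function.iterate_succ', Function.comp_apply]
    rw [show (avg^[k] (fun _ => α)) = fun _ => α from funext ih]
    simp [avg]

theorem e_nonneg (K : ℕ) (s : St) : 0 ≤ e K s := by
  induction K generalizing s with
  | zero => simp only [e]; split_ifs <;> norm_num
  | succ K ih =>
    simp only [e]
    split_ifs
    · exact le_refl _
    · have h1 := ih (step s false)
      have h2 := ih (step s true)
      simp only [avg]
      linarith

theorem e_le_one (K : ℕ) (s : St) : e K s ≤ 1 := by
  induction K generalizing s with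
  | zero => simp only [e]; split_ifs <;> norm_num
  | succ K ih =>
    simp only [e]
    split_ifs
    · norm_num
    · have h1 := ih (step s false)
      have h2 := ih (step s true)
      simp only [avg]
      linarith

theorem e_succ_le (K : ℕ) (s : St) : e (K + 1) s ≤ e K s := by
  induction K generalizing s with
  | zero =>
    by_cases hs : inB s
    · simp [e, hs]
    · have h1 : e 0 s = 1 := by simp only [e, if_neg hs]
      rw [h1]
      exact e_le_one _ _
  | succ K ih =>
    by_cases hs : inB s
    · simp [e, hs]
    · have h1 : e (K + 1 + 1) s = avg (e (K + 1)) s := by rw [e, if_neg hs]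
      have h2 : e (K + 1) s = avg (e K) s := by rw [e, if_neg hs]
      rw [h1, h2]
      exact avg_mono ih s

theorem e_anti {K L : ℕ} (h : K ≤ L) (s : St) : e L s ≤ e K s := by
  induction L, h using Nat.le_induction with
  | base => exact le_refl _
  | succ L _ ih => exact (e_succ_le L s).trans ih

end Pool.Agent.Lib.MP_e43fce_nt_coal
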