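import Pool.Agent.Lib.MP_e43fce_nt_coal.Fin

/-!
Coalescence of Collatz orbits: blocks of consecutive numbers.
-/

set_option autoImplicit false

namespace Pool.Agent.Lib.MP_e43fce_nt_coal

/-- if consecutive numbers of the block meet, the whole block meets -/
private theorem block_chain (m n : ℕ) : ∀ i : ℕ,
    (∀ j < i, ∃ k ≤ 2 * m, C^[k] (n + j) = C^[k] (n + j + 1)) →
      C^[2 * m] n = C^[2 * m] (n + i) := by
  intro i
  induction i with
  | zero => intro _; rfl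
  | succ i ih =>
    intro h
    have h1 := ih fun j hj => h j (by omega)
    obtain ⟨k, hk, he⟩ := h i (by omega)
    have h2 : C^[2 * m] (n + i) = C^[2 * m] (n + i + 1) := by
      obtain ⟨r, hr⟩ := Nat.exists_eq_add_of_le hk
      rw [hr, add_comm, Function.iterate_add_apply, Function.iterate_add_apply, he]
    rw [h1, h2, add_assoc]

theorem fin_block : ∃ D : ℝ, 0 < D ∧ ∀ X m L : ℕ, 1 ≤ m → 1 ≤ L → 2 ^ m ≤ X →
    ((({n : ℕ | ∃ i ≤ L, ∀ k ≤ 2 * m, C^[k] n ≠ C^[k] (n + i)} ∩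
      Set.Icc 1 X).ncard : ℝ)) ≤ D * L / √m * X := by
  obtain ⟨D, hD, hp⟩ := fin_pair
  refine ⟨2 * D + 1, by positivity, ?_⟩
  intro X m L hm hL hX
  have hm0 : (1 : ℝ) ≤ m := by exact_mod_cast hm
  have hs1 : (1 : ℝ) ≤ √m := by
    rw [Real.le_sqrt (by norm_num) (by linarith)]
    simpa using hm0
  have hs0 : (0 : ℝ) < √m := by linarith
  have hLr : (1 : ℝ) ≤ L := by exact_mod_cast hL
  have hX0 : (0 : ℝ) ≤ X := Nat.cast_nonneg X
  rcases le_or_gt L X with hLX | hLX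
  · have hsub : {n : ℕ | ∃ i ≤ L, ∀ k ≤ 2 * m, C^[k] n ≠ C^[k] (n + i)} ∩ Set.Icc 1 X ⊆
        ⋃ i ∈ Finset.range L, {n : ℕ | n + i ∈
          {n : ℕ | ∀ k ≤ 2 * m, C^[k] n ≠ C^[k] (n + 1)} ∩ Set.Icc 1 (2 * X)} := by
      rintro n ⟨⟨i, hi, hb⟩, hn1, hn2⟩
      by_contra hc
      simp only [Set.mem_iUnion, not_exists] at hc
      refine hb (2 * m) le_rfl (block_chain m n i ?_)
      intro j hj
      by_contra hcon
      push Not at hcon
      refine hc j (Finset.mem_range.mpr (by omega)) ⟨?_, ?_, ?_⟩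
      · exact hcon
      · omega
      · omega
    have hfin : (⋃ i ∈ Finset.range L, {n : ℕ | n + i ∈
        {n : ℕ | ∀ k ≤ 2 * m, C^[k] n ≠ C^[k] (n + 1)} ∩ Set.Icc 1 (2 * X)}).Finite := by
      refine (Set.finite_Icc 0 (2 * X)).subset ?_
      intro n hn
      simp only [Set.mem_iUnion] at hn
      obtain ⟨i, _, _, h2, h3⟩ := hn
      exact ⟨Nat.zero_le _, by omega⟩
    have h1 := Set.ncard_le_ncard hsub hfin
    have h2 := h1.trans (Finset.set_ncard_biUnion_le (Finset.range L) fun i => {n : ℕ | n + i ∈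
        {n : ℕ | ∀ k ≤ 2 * m, C^[k] n ≠ C^[k] (n + 1)} ∩ Set.Icc 1 (2 * X)})
    have h3 : ∀ i ∈ Finset.range L, ({n : ℕ | n + i ∈
        {n : ℕ | ∀ k ≤ 2 * m, C^[k] n ≠ C^[k] (n + 1)} ∩ Set.Icc 1 (2 * X)}).ncard ≤
        ({n : ℕ | ∀ k ≤ 2 * m, C^[k] n ≠ C^[k] (n + 1)} ∩ Set.Icc 1 (2 * X)).ncard := by
      intro i _
      exact Set.ncard_le_ncard_of_injOn (fun n => n + i) (fun n hn => hn)
        (fun a _ b _ hab => Nat.add_right_cancel hab)
        ((Set.finite_Icc 1 (2 * X)).subset Set.inter_subset_right)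
    have h4 := h2.trans (Finset.sum_le_card_nsmul _ _ _ h3)
    rw [Finset.card_range, smul_eq_mul] at h4
    have h5 := hp (2 * X) m 1 hm le_rfl (by omega)
    have h6 : √((1 + Real.log ((1 : ℕ) : ℝ)) / m) = 1 / √m := by
      rw [Nat.cast_one, Real.log_one, add_zero, Real.sqrt_div zero_le_one, Real.sqrt_one]
    rw [h6] at h5
    have h7 : (({n : ℕ | ∃ i ≤ L, ∀ k ≤ 2 * m, C^[k] n ≠ C^[k] (n + i)} ∩
        Set.Icc 1 X).ncard : ℝ) ≤ L * (D * (1 / √m) * ((2 * X : ℕ) : ℝ)) := by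
      have h4' := (Nat.cast_le (α := ℝ)).mpr h4
      rw [Nat.cast_mul] at h4'
      exact h4'.trans (mul_le_mul_of_nonneg_left h5 (by linarith))
    refine h7.trans ?_
    push_cast
    have h8 : (0 : ℝ) ≤ L / √m * X := by positivity
    calc (L : ℝ) * (D * (1 / √m) * (2 * X)) = 2 * D * (L / √m * X) := by ring
      _ ≤ (2 * D + 1) * (L / √m * X) := by nlinarith
      _ = (2 * D + 1) * L / √m * X := by ring
  · have h1 : ({n : ℕ | ∃ i ≤ L, ∀ k ≤ 2 * m, C^[k] n ≠ C^[k] (n + i)} ∩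
        Set.Icc 1 X).ncard ≤ X := by
      refine (Set.ncard_le_ncard Set.inter_subset_right (Set.finite_Icc 1 X)).trans ?_
      rw [← Finset.coe_Icc, Set.ncard_coe_finset, Nat.card_Icc]
      omega
    have h2 : (({n : ℕ | ∃ i ≤ L, ∀ k ≤ 2 * m, C^[k] n ≠ C^[k] (n + i)} ∩
        Set.Icc 1 X).ncard : ℝ) ≤ X := by exact_mod_cast h1
    have h3 : √(m : ℝ) ≤ L := by
      have h4 : √(m : ℝ) ≤ m := by
        rw [Real.sqrt_le_left (by linarith)]
        nlinarith
      have h5 : m < 2 ^ m := Nat.lt_two_pow_self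
      have h6 : (m : ℝ) ≤ L := by exact_mod_cast (by omega : m ≤ L)
      linarith
    have h4 : (1 : ℝ) ≤ L / √m := by
      rw [le_div_iff₀ hs0]
      linarith
    refine h2.trans ?_
    calc (X : ℝ) = 1 * 1 * X := by ring
      _ ≤ (2 * D + 1) * (L / √m) * X := by
        refine mul_le_mul_of_nonneg_right ?_ hX0
        exact mul_le_mul (by linarith) h4 (by norm_num) (by linarith)
      _ = (2 * D + 1) * L / √m * X := by ring

end Pool.Agent.Lib.MP_e43fce_nt_coal
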