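import Pool.Agent.Lib.MP_e43fce_nt_coal.Cls

/-!
Coalescence of Collatz orbits: the number of classes.
-/

set_option autoImplicit false

namespace Pool.Agent.Lib.MP_e43fce_nt_coal

theorem card_le (H t n : ℕ) (R : ℝ) (hR : 0 < R) :
    ((cls H t n).card : ℝ) ≤ (t + 1) * (R + 1) + Phi H t n / √R := by
  classical
  have hsR : 0 < √R := Real.sqrt_pos.mpr hR
  have h1 := Finset.card_filter_add_card_filter_not (s := cls H t n) (fun c => off t n c < R)
  -- large offsets
  have h2 : (((cls H t n).filter (fun c => ¬ off t n c < R)).card : ℝ) ≤ Phi H t n / √R := by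
    rw [le_div_iff₀ hsR]
    unfold Phi
    calc (((cls H t n).filter (fun c => ¬ off t n c < R)).card : ℝ) * √R =
        ∑ c ∈ (cls H t n).filter (fun c => ¬ off t n c < R), √R := by
          rw [Finset.sum_const, nsmul_eq_mul]
      _ ≤ ∑ c ∈ (cls H t n).filter (fun c => ¬ off t n c < R), √(off t n c) := by
          apply Finset.sum_le_sum
          intro c hc
          exact Real.sqrt_le_sqrt (not_lt.mp (Finset.mem_filter.mp hc).2)
      _ ≤ ∑ c ∈ cls H t n, √(off t n c) :=
          Finset.sum_le_sum_of_subset_of_nonneg (Finset.filter_subset _ _)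
            (fun _ _ _ => Real.sqrt_nonneg _)
  -- small offsets
  have h3 : ((cls H t n).filter (fun c => off t n c < R)).card ≤ (t + 1) * ⌈R⌉₊ := by
    have hsub : (cls H t n).filter (fun c => off t n c < R) ⊆
        (Finset.range (t + 1)).biUnion (fun D =>
          (Finset.Ico ⌈(3 : ℝ) ^ D * n / 2 ^ t⌉₊ (⌈(3 : ℝ) ^ D * n / 2 ^ t⌉₊ + ⌈R⌉₊)).image
            (fun z => (D, z))) := by
      intro c hc
      obtain ⟨hc1, hc2⟩ := Finset.mem_filter.mp hc
      have h0 := cls_off H t n c hc1
      have hD := cls_fst H t n c hc1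
      rw [Finset.mem_biUnion]
      refine ⟨c.1, Finset.mem_range.mpr (by omega), ?_⟩
      rw [Finset.mem_image]
      refine ⟨c.2, ?_, rfl⟩
      unfold off at h0 hc2
      rw [Finset.mem_Ico]
      constructor
      · exact Nat.ceil_le.mpr (by linarith)
      · have h5 := Nat.le_ceil ((3 : ℝ) ^ c.1 * n / 2 ^ t)
        have h6 := Nat.le_ceil R
        have : (c.2 : ℝ) < ((⌈(3 : ℝ) ^ c.1 * n / 2 ^ t⌉₊ + ⌈R⌉₊ : ℕ) : ℝ) := by
          push_cast
          linarith
        exact_mod_cast this
    refine (Finset.card_le_card hsub).trans ?_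
    refine (Finset.card_biUnion_le_card_mul _ _ ⌈R⌉₊ (fun D _ => ?_)).trans ?_
    · refine Finset.card_image_le.trans ?_
      rw [Nat.card_Ico]
      omega
    · rw [Finset.card_range]
  have h4 : (⌈R⌉₊ : ℝ) ≤ R + 1 := (Nat.ceil_lt_add_one hR.le).le
  have h5 : ((cls H t n).card : ℝ) = (((cls H t n).filter (fun c => off t n c < R)).card : ℝ) +
      (((cls H t n).filter (fun c => ¬ off t n c < R)).card : ℝ) := by
    rw [← h1]; push_cast; ring
  have h6 : ((((cls H t n).filter (fun c => off t n c < R)).card : ℕ) : ℝ) ≤ (t + 1) * (R + 1) := by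
    calc ((((cls H t n).filter (fun c => off t n c < R)).card : ℕ) : ℝ) ≤
        (((t + 1) * ⌈R⌉₊ : ℕ) : ℝ) := by exact_mod_cast h3
      _ = (t + 1) * (⌈R⌉₊ : ℝ) := by push_cast; ring
      _ ≤ (t + 1) * (R + 1) := mul_le_mul_of_nonneg_left h4 (by positivity)
  linarith

end Pool.Agent.Lib.MP_e43fce_nt_coal
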