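import Mathlib

/-!
A set of positive integers which is almost invariant under `n ↦ n + 1` is equidistributed in the
residue classes of every modulus.
-/

set_option autoImplicit false

namespace Pool.Agent.Lib.MP_e43fce_nt_coal

namespace Classes

open Finset Classical

/-- the part of `P` in the class `j` -/
noncomputable def cl (P : ℕ → Prop) (X M j : ℕ) : Finset ℕ :=
  (Icc 1 X).filter (fun n => P n ∧ n % M = j)

/-- the part of `P` in `[1, X]` -/
noncomputable def al (P : ℕ → Prop) (X : ℕ) : Finset ℕ := (Icc 1 X).filter P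

theorem mem_al {P : ℕ → Prop} {X n : ℕ} : n ∈ al P X ↔ (1 ≤ n ∧ n ≤ X) ∧ P n := by
  simp [al]

theorem mem_cl {P : ℕ → Prop} {X M j n : ℕ} :
    n ∈ cl P X M j ↔ (1 ≤ n ∧ n ≤ X) ∧ P n ∧ n % M = j := by
  simp [cl]

theorem sum_cl (P : ℕ → Prop) (X M : ℕ) (hM : 1 ≤ M) :
    ∑ i ∈ range M, (cl P X M i).card = (al P X).card := by
  rw [Finset.card_eq_sum_card_fiberwise (f := fun n => n % M) (t := range M)]
  · refine Finset.sum_congr rfl (fun i _ => ?_)
    congr 1
    ext n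
    rw [mem_filter, mem_cl, mem_al]
    tauto
  · intro n _
    exact Finset.mem_coe.2 (Finset.mem_range.2 (Nat.mod_lt _ hM))

theorem mod_succ {n M j : ℕ} (hj : j + 1 < M) (h : n % M = j) : (n + 1) % M = j + 1 := by
  have h1 := Nat.add_mod n 1 M
  rw [h, Nat.mod_eq_of_lt (show 1 < M by omega), Nat.mod_eq_of_lt hj] at h1
  exact h1

theorem mod_pred {n M j : ℕ} (hj : j + 1 < M) (hn : 1 ≤ n) (h : n % M = j + 1) :
    (n - 1) % M = j := by
  have h1 := Nat.div_add_mod n M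
  rw [h] at h1
  have h2 : n - 1 = j + M * (n / M) := by omega
  rw [h2, Nat.add_mul_mod_self_left, Nat.mod_eq_of_lt (by omega)]

variable (A : Set ℕ) (X M : ℕ)

theorem up {j : ℕ} (hj : j + 1 < M) :
    (cl (· ∈ A) X M j).card ≤ (cl (· ∈ A) X M (j + 1)).card +
      ((cl (fun n => ¬ (n ∈ A ↔ n + 1 ∈ A)) X M j).card + (cl (fun n => n = X) X M j).card) := by
  have h1 : cl (· ∈ A) X M j ⊆ (cl (· ∈ A) X M j).filter (fun n => n + 1 ∈ A ∧ n + 1 ≤ X) ∪
      (cl (fun n => ¬ (n ∈ A ↔ n + 1 ∈ A)) X M j ∪ cl (fun n => n = X) X M j) := by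
    intro n hn
    have hn' := mem_cl.1 hn
    rw [mem_union, mem_union]
    by_cases h2 : n + 1 ∈ A
    · by_cases h3 : n + 1 ≤ X
      · exact Or.inl (mem_filter.2 ⟨hn, h2, h3⟩)
      · refine Or.inr (Or.inr (mem_cl.2 ⟨hn'.1, ?_, hn'.2.2⟩))
        have := hn'.1.2
        omega
    · have := hn'.2.1
      exact Or.inr (Or.inl (mem_cl.2 ⟨hn'.1, by tauto, hn'.2.2⟩))
  have h2 : ((cl (· ∈ A) X M j).filter (fun n => n + 1 ∈ A ∧ n + 1 ≤ X)).card ≤
      (cl (· ∈ A) X M (j + 1)).card := by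
    apply Finset.card_le_card_of_injOn (fun n => n + 1)
    · intro n hn
      have h3 := Finset.mem_filter.1 (Finset.mem_coe.1 hn)
      have h4 := mem_cl.1 h3.1
      exact Finset.mem_coe.2 (mem_cl.2 ⟨⟨Nat.succ_pos n, h3.2.2⟩, h3.2.1, mod_succ hj h4.2.2⟩)
    · intro a _ b _ h
      simpa using h
  calc _ ≤ _ := Finset.card_le_card h1
    _ ≤ _ := Finset.card_union_le _ _
    _ ≤ _ := add_le_add h2 (Finset.card_union_le _ _)

theorem down {j : ℕ} (hj : j + 1 < M) :
    (cl (· ∈ A) X M (j + 1)).card ≤ (cl (· ∈ A) X M j).card +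
      ((cl (fun n => ¬ (n ∈ A ↔ n + 1 ∈ A)) X M j).card + (cl (fun n => n = 1) X M (j + 1)).card) := by
  have h1 : cl (· ∈ A) X M (j + 1) ⊆ (cl (· ∈ A) X M j).image (fun n => n + 1) ∪
      ((cl (fun n => ¬ (n ∈ A ↔ n + 1 ∈ A)) X M j).image (fun n => n + 1) ∪
        cl (fun n => n = 1) X M (j + 1)) := by
    intro n hn
    have hn' := mem_cl.1 hn
    rw [mem_union, mem_union]
    by_cases h1 : n = 1
    · exact Or.inr (Or.inr (mem_cl.2 ⟨hn'.1, h1, hn'.2.2⟩))
    · have h3 : n - 1 + 1 = n := by omega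
      have h4 := mod_pred hj hn'.1.1 hn'.2.2
      by_cases h2 : n - 1 ∈ A
      · exact Or.inl (Finset.mem_image.2 ⟨n - 1, mem_cl.2 ⟨by omega, h2, h4⟩, h3⟩)
      · refine Or.inr (Or.inl (Finset.mem_image.2 ⟨n - 1, mem_cl.2 ⟨by omega, ?_, h4⟩, h3⟩))
        rw [h3]
        have := hn'.2.1
        tauto
  calc _ ≤ _ := Finset.card_le_card h1
    _ ≤ _ := Finset.card_union_le _ _
    _ ≤ _ := add_le_add Finset.card_image_le
      ((Finset.card_union_le _ _).trans (Nat.add_le_add_right Finset.card_image_le _))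

theorem ups (j k : ℕ) (hk : j + k < M) :
    (cl (· ∈ A) X M j).card ≤ (cl (· ∈ A) X M (j + k)).card +
      ∑ i ∈ Ico j (j + k), ((cl (fun n => ¬ (n ∈ A ↔ n + 1 ∈ A)) X M i).card +
        (cl (fun n => n = X) X M i).card) := by
  induction k with
  | zero => simp
  | succ k ih =>
    have h1 := ih (by omega)
    have h2 := up A X M (j := j + k) (by omega)
    rw [← add_assoc, Finset.sum_Ico_succ_top (by omega)]
    omega

theorem downs (j k : ℕ) (hk : j + k < M) :
    (cl (· ∈ A) X M (j + k)).card ≤ (cl (· ∈ A) X M j).card +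
      ∑ i ∈ Ico j (j + k), ((cl (fun n => ¬ (n ∈ A ↔ n + 1 ∈ A)) X M i).card +
        (cl (fun n => n = 1) X M (i + 1)).card) := by
  induction k with
  | zero => simp
  | succ k ih =>
    have h1 := ih (by omega)
    have h2 := down A X M (j := j + k) (by omega)
    rw [← add_assoc, Finset.sum_Ico_succ_top (by omega)]
    omega

theorem card_one (x : ℕ) : (al (fun n => n = x) X).card ≤ 1 := by
  rw [Finset.card_le_one]
  intro a ha b hb
  rw [(mem_al.1 ha).2, (mem_al.1 hb).2]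

theorem two {j k : ℕ} (hjk : j ≤ k) (hk : k < M) :
    (cl (· ∈ A) X M j).card ≤ (cl (· ∈ A) X M k).card +
      ((al (fun n => ¬ (n ∈ A ↔ n + 1 ∈ A)) X).card + 1) ∧
    (cl (· ∈ A) X M k).card ≤ (cl (· ∈ A) X M j).card +
      ((al (fun n => ¬ (n ∈ A ↔ n + 1 ∈ A)) X).card + 1) := by
  obtain ⟨t, rfl⟩ := Nat.exists_eq_add_of_le hjk
  have hsub : Ico j (j + t) ⊆ range M := by
    intro i hi
    rw [Finset.mem_Ico] at hi
    rw [Finset.mem_range]
    omega
  have hv : ∑ i ∈ Ico j (j + t), (cl (fun n => ¬ (n ∈ A ↔ n + 1 ∈ A)) X M i).card ≤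
      (al (fun n => ¬ (n ∈ A ↔ n + 1 ∈ A)) X).card := by
    rw [← sum_cl _ X M (by omega)]
    exact Finset.sum_le_sum_of_subset hsub
  have hx : ∑ i ∈ Ico j (j + t), (cl (fun n => n = X) X M i).card ≤ 1 := by
    refine le_trans ?_ (card_one X X)
    rw [← sum_cl _ X M (by omega)]
    exact Finset.sum_le_sum_of_subset hsub
  have h1 : ∑ i ∈ Ico j (j + t), (cl (fun n => n = 1) X M (i + 1)).card ≤ 1 := by
    refine le_trans ?_ (card_one X 1)
    rw [← sum_cl _ X M (by omega)]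
    rw [Finset.sum_Ico_add' (fun i => (cl (fun n => n = 1) X M i).card) j (j + t) 1]
    apply Finset.sum_le_sum_of_subset
    intro i hi
    rw [Finset.mem_Ico] at hi
    rw [Finset.mem_range]
    omega
  have hu := ups A X M j t hk
  have hd := downs A X M j t hk
  rw [Finset.sum_add_distrib] at hu hd
  constructor <;> omega

theorem two' {j k : ℕ} (hj : j < M) (hk : k < M) :
    (cl (· ∈ A) X M j).card ≤ (cl (· ∈ A) X M k).card +
      ((al (fun n => ¬ (n ∈ A ↔ n + 1 ∈ A)) X).card + 1) := by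
  rcases le_total j k with h | h
  · exact (two A X M h hk).1
  · exact (two A X M h hj).2

end Classes

/-- A set which is almost invariant under `n ↦ n + 1` is equidistributed in residue classes. -/
theorem class_equi (A : Set ℕ) (X M r : ℕ) (hM : 1 ≤ M) :
    |(((A ∩ {n | n % M = r % M}) ∩ Set.Icc 1 X).ncard : ℝ) - ((A ∩ Set.Icc 1 X).ncard : ℝ) / M| ≤
      (({n | ¬ (n ∈ A ↔ n + 1 ∈ A)} ∩ Set.Icc 1 X).ncard : ℝ) + 1 := by
  classical
  have e1 : ((A ∩ {n | n % M = r % M}) ∩ Set.Icc 1 X).ncard =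
      (Classes.cl (· ∈ A) X M (r % M)).card := by
    rw [← Set.ncard_coe_finset]
    congr 1
    ext n
    rw [Finset.mem_coe, Classes.mem_cl]
    constructor
    · rintro ⟨⟨h1, h2⟩, h3⟩
      exact ⟨h3, h1, h2⟩
    · rintro ⟨h3, h1, h2⟩
      exact ⟨⟨h1, h2⟩, h3⟩
  have e2 : (A ∩ Set.Icc 1 X).ncard = (Classes.al (· ∈ A) X).card := by
    rw [← Set.ncard_coe_finset]
    congr 1
    ext n
    rw [Finset.mem_coe, Classes.mem_al]
    constructor
    · rintro ⟨h1, h3⟩
      exact ⟨h3, h1⟩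
    · rintro ⟨h3, h1⟩
      exact ⟨h1, h3⟩
  have e3 : ({n | ¬ (n ∈ A ↔ n + 1 ∈ A)} ∩ Set.Icc 1 X).ncard =
      (Classes.al (fun n => ¬ (n ∈ A ↔ n + 1 ∈ A)) X).card := by
    rw [← Set.ncard_coe_finset]
    congr 1
    ext n
    rw [Finset.mem_coe, Classes.mem_al]
    constructor
    · rintro ⟨h1, h3⟩
      exact ⟨h3, h1⟩
    · rintro ⟨h3, h1⟩
      exact ⟨h1, h3⟩
  rw [e1, e2, e3, ← Classes.sum_cl (· ∈ A) X M hM]
  have hr : r % M < M := Nat.mod_lt _ hM
  set v := (Classes.al (fun n => ¬ (n ∈ A ↔ n + 1 ∈ A)) X).card with hv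
  have hMr : (0 : ℝ) < M := by exact_mod_cast hM
  have h1 : ∀ i ∈ Finset.range M, ((Classes.cl (· ∈ A) X M (r % M)).card : ℝ) ≤
      (Classes.cl (· ∈ A) X M i).card + (v + 1) := by
    intro i hi
    have := Classes.two' A X M hr (Finset.mem_range.1 hi)
    exact_mod_cast this
  have h2 : ∀ i ∈ Finset.range M, ((Classes.cl (· ∈ A) X M i).card : ℝ) ≤
      (Classes.cl (· ∈ A) X M (r % M)).card + (v + 1) := by
    intro i hi
    have := Classes.two' A X M (Finset.mem_range.1 hi) hr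
    exact_mod_cast this
  have h3 := Finset.sum_le_sum h1
  have h4 := Finset.sum_le_sum h2
  rw [Finset.sum_const, Finset.card_range, nsmul_eq_mul, Finset.sum_add_distrib,
    Finset.sum_const, Finset.card_range, nsmul_eq_mul] at h3
  rw [Finset.sum_const, Finset.card_range, nsmul_eq_mul] at h4
  push_cast
  rw [abs_le]
  constructor
  · have : (∑ i ∈ Finset.range M, ((Classes.cl (· ∈ A) X M i).card : ℝ)) / M ≤
        (Classes.cl (· ∈ A) X M (r % M)).card + (v + 1) := by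
      rw [div_le_iff₀ hMr]; linarith
    linarith
  · have : ((Classes.cl (· ∈ A) X M (r % M)).card : ℝ) - (v + 1) ≤
        (∑ i ∈ Finset.range M, ((Classes.cl (· ∈ A) X M i).card : ℝ)) / M := by
      rw [le_div_iff₀ hMr]; linarith
    linarith

end Pool.Agent.Lib.MP_e43fce_nt_coal
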