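import Pool.Agent.Lib.MP_e43fce_nt_coal.Terras

set_option autoImplicit false

namespace Pool.Agent.Lib.MP_e43fce_nt_coal


theorem cls_succ (H t n : ℕ) : cls H (t + 1) n = (cls H t n).image tstep := by
  unfold cls
  rw [Finset.image_image]
  apply Finset.image_congr
  intro i _
  simp only [Function.comp, st_succ]

theorem cls_add (H t n m : ℕ) : cls H t (n + 2 ^ t * m) = (cls H t n).image (shift m) := by
  unfold cls
  rw [Finset.image_image]
  apply Finset.image_congr
  intro i _
  simp only [Function.comp]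
  rw [← st_add]
  congr 1
  ring

theorem shift_inj (m : ℕ) : Function.Injective (shift m) := by
  intro a b h
  unfold shift at h
  rw [Prod.mk.injEq] at h
  obtain ⟨h1, h2⟩ := h
  rw [h1] at h2
  exact Prod.ext h1 (by omega)

theorem cls_off (H t n : ℕ) (c : ℕ × ℕ) (h : c ∈ cls H t n) : 0 ≤ off t n c := by
  unfold cls at h
  obtain ⟨i, _, rfl⟩ := Finset.mem_image.mp h
  exact off_nonneg t n i

theorem cls_fst (H t n : ℕ) (c : ℕ × ℕ) (h : c ∈ cls H t n) : c.1 ≤ t := by
  unfold cls at h
  obtain ⟨i, _, rfl⟩ := Finset.mem_image.mp h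
  exact st_fst_le t (n + i)

theorem Phi_shift (H t n m : ℕ) : Phi H t (n + 2 ^ t * m) = Phi H t n := by
  unfold Phi
  rw [cls_add, Finset.sum_image (fun a _ b _ h => shift_inj m h)]
  apply Finset.sum_congr rfl
  intro c _
  rw [off_shift]

end Pool.Agent.Lib.MP_e43fce_nt_coal
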