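import Pool.Agent.Lib.MP_e43fce_nt_coal.Defs

/-!
# A coalesced chain gives coalesced orbits
-/

set_option autoImplicit false

namespace Pool.Agent.Lib.MP_e43fce_nt_coal

private theorem cl_even {x : ℤ} (h : x % 2 = 0) : Cz x = x / 2 := if_pos h

private theorem cl_odd {x : ℤ} (h : x % 2 ≠ 0) : Cz^[2] x = (3 * x + 1) / 2 := by
  have h1 : Cz x = 3 * x + 1 := if_neg h
  show Cz (Cz x) = _
  rw [h1]
  exact cl_even (by omega)

private theorem cl_pow (d : ℕ) : (3 : ℤ) ^ d % 2 = 1 := by
  have h : Odd ((3 : ℤ) ^ d) := Odd.pow (by decide)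
  exact Int.odd_iff.1 h

theorem coal (K : ℕ) (s : St) (x : ℤ) (h : ¬ bad K s x) :
    ∃ j : ℕ, j + s.1 ≤ 2 * K ∧ Cz^[j + s.1] x = Cz^[j] (3 ^ s.1 * x + s.2) := by
  induction K generalizing s x with
  | zero =>
    have h1 : s = (0, 0) := not_not.1 h
    subst h1
    exact ⟨0, by simp, by simp⟩
  | succ K ih =>
    obtain ⟨d, g⟩ := s
    have h' : ¬ bad K (step (d, g) (decide (x % 2 ≠ 0))) (nxt (d, g) x) := h
    obtain ⟨j, hj, hj'⟩ := ih _ _ h'
    have hP := cl_pow d
    show ∃ j : ℕ, j + d ≤ 2 * (K + 1) ∧ Cz^[j + d] x = Cz^[j] (3 ^ d * x + g)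
    by_cases hg : g % 2 = 0
    · by_cases hx : x % 2 = 0
      · -- `g` even, `x` even
        have h1 : step (d, g) (decide (x % 2 ≠ 0)) = (d, g / 2) := by
          simp [step, hg, hx]
        have h2 : nxt (d, g) x = x / 2 := by simp [nxt, hx]
        rw [h1, h2] at hj'
        rw [h1] at hj
        simp only at hj hj'
        refine ⟨j + 1, by omega, ?_⟩
        obtain ⟨y, rfl⟩ : ∃ y, x = 2 * y := ⟨x / 2, by omega⟩
        have h3 : (3 : ℤ) ^ d * (2 * y) = 2 * (3 ^ d * y) := by ring
        have h4 : Cz (3 ^ d * (2 * y) + g) = 3 ^ d * (2 * y / 2) + g / 2 := by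
          have h5 : 2 * y / 2 = y := by omega
          rw [cl_even (by omega), h5, h3]
          omega
        rw [show j + 1 + d = (j + d) + 1 by ring, Function.iterate_succ_apply,
          Function.iterate_succ_apply, cl_even hx, h4]
        exact hj'
      · -- `g` even, `x` odd
        have h1 : step (d, g) (decide (x % 2 ≠ 0)) = (d, (3 * g + 1 - 3 ^ d) / 2) := by
          simp [step, hg, hx]
        have h2 : nxt (d, g) x = (3 * x + 1) / 2 := by
          simp [nxt, hg, hx]
        rw [h1, h2] at hj'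
        rw [h1] at hj
        simp only at hj hj'
        refine ⟨j + 2, by omega, ?_⟩
        obtain ⟨y, rfl⟩ : ∃ y, x = 2 * y + 1 := ⟨x / 2, by omega⟩
        have h3 : (3 : ℤ) ^ d * (2 * y + 1) = 2 * (3 ^ d * y) + 3 ^ d := by ring
        have h4 : Cz^[2] (3 ^ d * (2 * y + 1) + g) =
            3 ^ d * ((3 * (2 * y + 1) + 1) / 2) + (3 * g + 1 - 3 ^ d) / 2 := by
          have h5 : (3 * (2 * y + 1) + 1) / 2 = 3 * y + 2 := by omega
          rw [cl_odd (by omega), h5, h3]
          have h6 : (3 : ℤ) ^ d * (3 * y + 2) = 3 * (3 ^ d * y) + 2 * 3 ^ d := by ring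
          rw [h6]
          omega
        rw [show j + 2 + d = (j + d) + 2 by ring, Function.iterate_add_apply,
          Function.iterate_add_apply Cz j 2, cl_odd hx, h4]
        exact hj'
    · by_cases hx : x % 2 = 0
      · -- `g` odd, `x` even
        have h1 : step (d, g) (decide (x % 2 ≠ 0)) = (d + 1, (3 * g + 1) / 2) := by
          simp [step, hg, hx]
        have h2 : nxt (d, g) x = x / 2 := by simp [nxt, hx]
        rw [h1, h2] at hj'
        rw [h1] at hj
        simp only at hj hj'
        refine ⟨j + 2, by omega, ?_⟩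
        obtain ⟨y, rfl⟩ : ∃ y, x = 2 * y := ⟨x / 2, by omega⟩
        have h3 : (3 : ℤ) ^ d * (2 * y) = 2 * (3 ^ d * y) := by ring
        have h4 : Cz^[2] (3 ^ d * (2 * y) + g) =
            3 ^ (d + 1) * (2 * y / 2) + (3 * g + 1) / 2 := by
          have h5 : 2 * y / 2 = y := by omega
          rw [cl_odd (by omega), h5, h3]
          have h6 : (3 : ℤ) ^ (d + 1) * y = 3 * (3 ^ d * y) := by ring
          rw [h6]
          omega
        rw [show j + 2 + d = (j + (d + 1)) + 1 by ring, Function.iterate_succ_apply,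
          Function.iterate_add_apply Cz j 2, cl_even hx, h4]
        exact hj'
      · rcases Nat.eq_zero_or_pos d with hd | hd
        · -- `g` odd, `x` odd, `d = 0`: the roles change
          subst hd
          have h1 : step (0, g) (decide (x % 2 ≠ 0)) = (1, (1 - 3 * g) / 2) := by
            simp [step, hg, hx]
          have h2 : nxt (0, g) x = (x + g) / 2 := by
            simp [nxt, hg, hx]
          rw [h1, h2] at hj'
          rw [h1] at hj
          simp only at hj hj'
          refine ⟨j + 2, by omega, ?_⟩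
          have h3 : Cz^[2] x = 3 ^ 1 * ((x + g) / 2) + (1 - 3 * g) / 2 := by
            rw [cl_odd hx]
            omega
          have h4 : Cz (3 ^ 0 * x + g) = (x + g) / 2 := by
            rw [pow_zero, one_mul]
            exact cl_even (by omega)
          rw [add_zero, Function.iterate_add_apply Cz j 2, h3,
            show j + 2 = (j + 1) + 1 by ring, Function.iterate_succ_apply, h4]
          exact hj'.symm
        · -- `g` odd, `x` odd, `d ≥ 1`
          obtain ⟨d', rfl⟩ : ∃ d', d = d' + 1 := ⟨d - 1, by omega⟩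
          have h1 : step (d' + 1, g) (decide (x % 2 ≠ 0)) = (d', (g - 3 ^ d') / 2) := by
            simp [step, hg, hx]
          have h2 : nxt (d' + 1, g) x = (3 * x + 1) / 2 := by
            simp [nxt, hx]
          rw [h1, h2] at hj'
          rw [h1] at hj
          simp only at hj hj'
          refine ⟨j + 1, by omega, ?_⟩
          have hP' := cl_pow d'
          obtain ⟨y, rfl⟩ : ∃ y, x = 2 * y + 1 := ⟨x / 2, by omega⟩
          have h3 : (3 : ℤ) ^ (d' + 1) * (2 * y + 1) = 6 * (3 ^ d' * y) + 3 * 3 ^ d' := by ring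
          have h4 : Cz (3 ^ (d' + 1) * (2 * y + 1) + g) =
              3 ^ d' * ((3 * (2 * y + 1) + 1) / 2) + (g - 3 ^ d') / 2 := by
            have h5 : (3 * (2 * y + 1) + 1) / 2 = 3 * y + 2 := by omega
            rw [cl_even (by omega), h5, h3]
            have h6 : (3 : ℤ) ^ d' * (3 * y + 2) = 3 * (3 ^ d' * y) + 2 * 3 ^ d' := by ring
            rw [h6]
            omega
          rw [show j + 1 + (d' + 1) = (j + d') + 2 by ring, Function.iterate_add_apply Cz (j + d') 2,
            cl_odd hx, Function.iterate_succ_apply, h4]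
          exact hj'

private theorem cl_cast (n : ℕ) : ((C n : ℕ) : ℤ) = Cz n := by
  unfold C Cz
  by_cases h : n % 2 = 0
  · rw [if_pos h, if_pos (by omega)]
    omega
  · rw [if_neg h, if_neg (by omega)]
    push_cast
    ring

private theorem cl_iter (j n : ℕ) : ((C^[j] n : ℕ) : ℤ) = Cz^[j] n := by
  induction j generalizing n with
  | zero => rfl
  | succ j ih => rw [Function.iterate_succ_apply, Function.iterate_succ_apply, ih, cl_cast]

theorem coal_nat (K h n : ℕ) (hb : ¬ bad K (0, (h : ℤ)) (n : ℤ)) :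
    ∃ j : ℕ, j ≤ 2 * K ∧ C^[j] n = C^[j] (n + h) := by
  obtain ⟨j, hj, hj'⟩ := coal K (0, (h : ℤ)) n hb
  simp only [add_zero, pow_zero, one_mul] at hj hj'
  refine ⟨j, hj, ?_⟩
  have h1 := cl_iter j n
  have h2 := cl_iter j (n + h)
  push_cast at h2
  rw [← hj', ← h1] at h2
  exact_mod_cast h2.symm

end Pool.Agent.Lib.MP_e43fce_nt_coal
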