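import Pool.Agent.Lib.MP_e43fce_nt_coal.Defs

/-!
Coalescence of Collatz orbits: the number of starting values for which the driven chain has not met
after `K` steps is governed by the probability `u`.
-/

set_option autoImplicit false

namespace Pool.Agent.Lib.MP_e43fce_nt_coal

theorem count_bad_add_mul (K : ℕ) : ∀ (s : St) (x m : ℤ), bad K s (x + 2 ^ K * m) ↔ bad K s x := by
  induction K with
  | zero => intro s x m; exact Iff.rfl
  | succ K ih =>
    intro s x m
    have hp : (x + 2 ^ (K + 1) * m) % 2 = x % 2 := by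
      have h : x + 2 ^ (K + 1) * m = x + 2 * (2 ^ K * m) := by ring
      rw [h]; omega
    have hn : ∃ α : ℤ, nxt s (x + 2 ^ (K + 1) * m) = nxt s x + 2 ^ K * (α * m) := by
      unfold nxt
      rw [hp]
      split_ifs with h1 h2
      · refine ⟨1, ?_⟩
        have h : x + 2 ^ (K + 1) * m = x + 2 * (2 ^ K * (1 * m)) := by ring
        rw [h]; omega
      · refine ⟨1, ?_⟩
        have h : x + 2 ^ (K + 1) * m = x + 2 * (2 ^ K * (1 * m)) := by ring
        rw [h]; omega
      · refine ⟨3, ?_⟩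
        have h : 3 * (x + 2 ^ (K + 1) * m) = 3 * x + 2 * (2 ^ K * (3 * m)) := by ring
        rw [h]; omega
    obtain ⟨α, hα⟩ := hn
    change bad K (step s (decide ((x + 2 ^ (K + 1) * m) % 2 ≠ 0))) (nxt s (x + 2 ^ (K + 1) * m)) ↔
      bad K (step s (decide (x % 2 ≠ 0))) (nxt s x)
    rw [hp, hα]
    exact ih _ _ _

/-- a sum of a periodic function over a full period is invariant under affine bijections -/
theorem count_sum_affine (n : ℕ) (hn : 0 < n) (P : ℤ → ℝ) (hP : ∀ y m : ℤ, P (y + n * m) = P y)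
    (α β : ℤ) (hα : IsCoprime α (n : ℤ)) :
    ∑ y ∈ Finset.range n, P (α * y + β) = ∑ y ∈ Finset.range n, P y := by
  have : NeZero n := ⟨hn.ne'⟩
  have hQ : ∀ y : ℤ, P y = P (((y : ZMod n)).val : ℤ) := by
    intro y
    have h : (n : ℤ) ∣ y - (((y : ZMod n)).val : ℤ) := by
      rw [← ZMod.intCast_zmod_eq_zero_iff_dvd]
      push_cast
      rw [ZMod.natCast_zmod_val]
      ring
    obtain ⟨c, hc⟩ := h
    have : y = (((y : ZMod n)).val : ℤ) + n * c := by linarith
    conv_lhs => rw [this]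
    exact hP _ _
  have key : ∀ Q : ZMod n → ℝ, ∑ y ∈ Finset.range n, Q ((y : ℕ) : ZMod n) = ∑ z : ZMod n, Q z := by
    intro Q
    refine Finset.sum_nbij' (fun y => ((y : ℕ) : ZMod n)) (fun z => z.val) ?_ ?_ ?_ ?_ ?_
    · intro y _; exact Finset.mem_univ _
    · intro z _; exact Finset.mem_range.2 (ZMod.val_lt z)
    · intro y hy; exact ZMod.val_natCast_of_lt (Finset.mem_range.1 hy)
    · intro z _; exact ZMod.natCast_zmod_val z
    · intro y _; rfl
  have h1 : ∑ y ∈ Finset.range n, P (α * y + β) =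
      ∑ z : ZMod n, P (((α : ZMod n) * z + (β : ZMod n)).val : ℤ) := by
    rw [← key (fun z => P (((α : ZMod n) * z + (β : ZMod n)).val : ℤ))]
    refine Finset.sum_congr rfl fun y _ => ?_
    rw [hQ (α * y + β)]
    push_cast
    rfl
  have h2 : ∑ y ∈ Finset.range n, P y = ∑ z : ZMod n, P ((z.val : ℕ) : ℤ) := by
    rw [← key (fun z => P ((z.val : ℕ) : ℤ))]
    refine Finset.sum_congr rfl fun y _ => ?_
    rw [hQ (y : ℤ)]
    push_cast
    rfl
  rw [h1, h2]
  have hu : IsUnit (α : ZMod n) := by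
    obtain ⟨a, b, hab⟩ := hα
    refine IsUnit.of_mul_eq_one (a : ZMod n) ?_
    have := congrArg (fun z : ℤ => (z : ZMod n)) hab
    push_cast at this
    rw [ZMod.natCast_self, mul_zero, add_zero] at this
    rw [mul_comm]
    exact this
  obtain ⟨v, hv⟩ := hu
  let E : ZMod n ≃ ZMod n := (Units.mulLeft v).trans (Equiv.addRight (β : ZMod n))
  have hE : ∀ z, E z = (α : ZMod n) * z + (β : ZMod n) := by
    intro z
    simp [E, hv]
  calc ∑ z : ZMod n, P (((α : ZMod n) * z + (β : ZMod n)).val : ℤ)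
      = ∑ z : ZMod n, (fun z : ZMod n => P ((z.val : ℕ) : ℤ)) (E z) := by
        refine Finset.sum_congr rfl fun z _ => ?_
        simp only [hE]
    _ = ∑ z : ZMod n, P ((z.val : ℕ) : ℤ) :=
        Equiv.sum_comp E (fun z : ZMod n => P ((z.val : ℕ) : ℤ))

theorem count_sum_range_two_mul (f : ℕ → ℝ) (n : ℕ) :
    ∑ x ∈ Finset.range (2 * n), f x = ∑ y ∈ Finset.range n, f (2 * y) +
      ∑ y ∈ Finset.range n, f (2 * y + 1) := by
  induction n with
  | zero => simp
  | succ n ih =>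
    rw [show 2 * (n + 1) = 2 * n + 1 + 1 by ring, Finset.sum_range_succ, Finset.sum_range_succ, ih,
      Finset.sum_range_succ, Finset.sum_range_succ]
    ring

open Classical in
/-- the indicator of `bad` -/
noncomputable def countInd (K : ℕ) (s : St) (x : ℤ) : ℝ := if bad K s x then 1 else 0

theorem countInd_add_mul (K : ℕ) (s : St) (x m : ℤ) :
    countInd K s (x + ((2 ^ K : ℕ) : ℤ) * m) = countInd K s x := by
  unfold countInd
  have h : ((2 ^ K : ℕ) : ℤ) = 2 ^ K := by push_cast; rfl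
  rw [h]
  by_cases hb : bad K s x
  · rw [if_pos hb, if_pos ((count_bad_add_mul K s x m).2 hb)]
  · rw [if_neg hb, if_neg (fun hh => hb ((count_bad_add_mul K s x m).1 hh))]

theorem countInd_succ_even (K : ℕ) (s : St) (y : ℕ) :
    countInd (K + 1) s ((2 * y : ℕ) : ℤ) = countInd K (step s false) (y : ℤ) := by
  unfold countInd
  have h : bad (K + 1) s ((2 * y : ℕ) : ℤ) ↔ bad K (step s false) (y : ℤ) := by
    change bad K (step s (decide (((2 * y : ℕ) : ℤ) % 2 ≠ 0))) (nxt s ((2 * y : ℕ) : ℤ)) ↔ _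
    have h0 : ((2 * y : ℕ) : ℤ) % 2 = 0 := by omega
    have h1 : nxt s ((2 * y : ℕ) : ℤ) = (y : ℤ) := by
      unfold nxt; rw [if_pos h0]; omega
    rw [h1, h0]
    simp
  by_cases hb : bad K (step s false) (y : ℤ)
  · rw [if_pos hb, if_pos (h.2 hb)]
  · rw [if_neg hb, if_neg (fun hh => hb (h.1 hh))]

theorem countInd_succ_odd (K : ℕ) (s : St) (y : ℕ) :
    countInd (K + 1) s ((2 * y + 1 : ℕ) : ℤ) =
      countInd K (step s true) (if s.1 = 0 ∧ s.2 % 2 ≠ 0 then 1 * (y : ℤ) + (1 + s.2) / 2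
        else 3 * (y : ℤ) + 2) := by
  unfold countInd
  have h : bad (K + 1) s ((2 * y + 1 : ℕ) : ℤ) ↔
      bad K (step s true) (if s.1 = 0 ∧ s.2 % 2 ≠ 0 then 1 * (y : ℤ) + (1 + s.2) / 2
        else 3 * (y : ℤ) + 2) := by
    change bad K (step s (decide (((2 * y + 1 : ℕ) : ℤ) % 2 ≠ 0))) (nxt s ((2 * y + 1 : ℕ) : ℤ)) ↔ _
    have h0 : ((2 * y + 1 : ℕ) : ℤ) % 2 = 1 := by omega
    have h1 : nxt s ((2 * y + 1 : ℕ) : ℤ) = (if s.1 = 0 ∧ s.2 % 2 ≠ 0 then
        1 * (y : ℤ) + (1 + s.2) / 2 else 3 * (y : ℤ) + 2) := by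
      unfold nxt
      rw [if_neg (by omega)]
      split_ifs with h2
      · push_cast; omega
      · push_cast; omega
    rw [h1, h0]
    simp
  by_cases hb : bad K (step s true) (if s.1 = 0 ∧ s.2 % 2 ≠ 0 then 1 * (y : ℤ) + (1 + s.2) / 2
        else 3 * (y : ℤ) + 2)
  · rw [if_pos hb, if_pos (h.2 hb)]
  · rw [if_neg hb, if_neg (fun hh => hb (h.1 hh))]

theorem count_sum_ind (K : ℕ) : ∀ s : St,
    ∑ x ∈ Finset.range (2 ^ K), countInd K s ((x : ℕ) : ℤ) = 2 ^ K * u K s := by
  induction K with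
  | zero =>
    intro s
    simp only [pow_zero, Finset.range_one, Finset.sum_singleton, one_mul]
    unfold countInd
    by_cases h : s = (0, 0)
    · simp [h, bad, u]
    · simp [h, bad, u]
  | succ K ih =>
    intro s
    rw [show 2 ^ (K + 1) = 2 * 2 ^ K by ring, count_sum_range_two_mul]
    have hpos : 0 < 2 ^ K := by positivity
    have e0 : ∑ y ∈ Finset.range (2 ^ K), countInd (K + 1) s ((2 * y : ℕ) : ℤ) =
        2 ^ K * u K (step s false) := by
      rw [← ih]
      exact Finset.sum_congr rfl fun y _ => countInd_succ_even K s y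
    have e1 : ∑ y ∈ Finset.range (2 ^ K), countInd (K + 1) s ((2 * y + 1 : ℕ) : ℤ) =
        2 ^ K * u K (step s true) := by
      rw [← ih]
      by_cases hc : s.1 = 0 ∧ s.2 % 2 ≠ 0
      · rw [← count_sum_affine (2 ^ K) hpos (countInd K (step s true)) (countInd_add_mul K _) 1 ((1 + s.2) / 2)
          isCoprime_one_left]
        refine Finset.sum_congr rfl fun y _ => ?_
        rw [countInd_succ_odd, if_pos hc]
      · rw [← count_sum_affine (2 ^ K) hpos (countInd K (step s true)) (countInd_add_mul K _) 3 2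
          (by
            push_cast
            exact IsCoprime.pow_right (by norm_num [Int.isCoprime_iff_gcd_eq_one]))]
        refine Finset.sum_congr rfl fun y _ => ?_
        rw [countInd_succ_odd, if_neg hc]
    rw [e0, e1]
    have hu : u (K + 1) s = (u K (step s false) + u K (step s true)) / 2 := rfl
    rw [hu]
    ring

theorem count_sum_ind_mul (K q : ℕ) (s : St) :
    ∑ x ∈ Finset.range (2 ^ K * q), countInd K s ((x : ℕ) : ℤ) = q * (2 ^ K * u K s) := by
  induction q with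
  | zero => simp
  | succ q ih =>
    rw [show 2 ^ K * (q + 1) = 2 ^ K * q + 2 ^ K by ring, Finset.sum_range_add, ih]
    have : ∑ x ∈ Finset.range (2 ^ K), countInd K s ((2 ^ K * q + x : ℕ) : ℤ) = 2 ^ K * u K s := by
      rw [← count_sum_ind K s]
      refine Finset.sum_congr rfl fun x _ => ?_
      have h := countInd_add_mul K s (x : ℤ) (q : ℤ)
      rw [← h]
      congr 1
      push_cast
      ring
    rw [this]
    push_cast
    ring

theorem countInd_nonneg (K : ℕ) (s : St) (x : ℤ) : 0 ≤ countInd K s x := by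
  unfold countInd; split_ifs <;> norm_num

theorem count (K : ℕ) (s : St) (X : ℕ) : open Classical in
    (((Finset.Icc 1 X).filter (fun n : ℕ => bad K s (n : ℤ))).card : ℝ) ≤
      ((X : ℝ) + 2 ^ K) * u K s := by
  classical
  have h1 : ((((Finset.Icc 1 X).filter (fun n : ℕ => bad K s (n : ℤ))).card : ℕ) : ℝ) =
      ∑ x ∈ Finset.Icc 1 X, countInd K s ((x : ℕ) : ℤ) := by
    rw [Finset.card_filter]
    push_cast
    refine Finset.sum_congr rfl fun x _ => ?_
    unfold countInd
    by_cases hb : bad K s (x : ℤ)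
    · simp [hb]
    · simp [hb]
  have hpos : 0 < 2 ^ K := by positivity
  have hsub : Finset.Icc 1 X ⊆ Finset.range (2 ^ K * (X / 2 ^ K + 1)) := by
    intro x hx
    rw [Finset.mem_Icc] at hx
    rw [Finset.mem_range]
    exact lt_of_le_of_lt hx.2 (Nat.lt_mul_div_succ X hpos)
  have h2 : ∑ x ∈ Finset.Icc 1 X, countInd K s ((x : ℕ) : ℤ) ≤
      ∑ x ∈ Finset.range (2 ^ K * (X / 2 ^ K + 1)), countInd K s ((x : ℕ) : ℤ) :=
    Finset.sum_le_sum_of_subset_of_nonneg hsub fun x _ _ => countInd_nonneg K s _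
  rw [count_sum_ind_mul] at h2
  have hu : 0 ≤ 2 ^ K * u K s := by
    rw [← count_sum_ind K s]
    exact Finset.sum_nonneg fun x _ => countInd_nonneg K s _
  have hu' : 0 ≤ u K s := by
    have h2K : (0 : ℝ) < 2 ^ K := by positivity
    exact nonneg_of_mul_nonneg_right hu h2K
  have h3 : (((X / 2 ^ K + 1 : ℕ) : ℝ)) * 2 ^ K ≤ (X : ℝ) + 2 ^ K := by
    have h4 : (X / 2 ^ K + 1) * 2 ^ K ≤ X + 2 ^ K := by
      have := Nat.div_mul_le_self X (2 ^ K)
      nlinarith
    exact_mod_cast h4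
  have h5 : ((((Finset.Icc 1 X).filter (fun n : ℕ => bad K s (n : ℤ))).card : ℕ) : ℝ) ≤
      ((X : ℝ) + 2 ^ K) * u K s := by
    calc ((((Finset.Icc 1 X).filter (fun n : ℕ => bad K s (n : ℤ))).card : ℕ) : ℝ)
        ≤ ((X / 2 ^ K + 1 : ℕ) : ℝ) * (2 ^ K * u K s) := by rw [h1]; exact h2
      _ = (((X / 2 ^ K + 1 : ℕ) : ℝ)) * 2 ^ K * u K s := by ring
      _ ≤ ((X : ℝ) + 2 ^ K) * u K s := mul_le_mul_of_nonneg_right h3 hu'
  convert h5 using 3

end Pool.Agent.Lib.MP_e43fce_nt_coal
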