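import Pool.Agent.Lib.MP_e43fce_nt_coal.Count

/-!
Coalescence of Collatz orbits: the starting values for which the driven chain has not met after `K`
steps, counted along an arithmetic progression with odd difference.
-/

set_option autoImplicit false

namespace Pool.Agent.Lib.MP_e43fce_nt_coal

theorem count_aff_block (K : ℕ) (s : St) (z a : ℤ) (ha : IsCoprime a ((2 ^ K : ℕ) : ℤ)) (q : ℕ) :
    ∑ x ∈ Finset.range (2 ^ K), countInd K s (z + a * ((2 ^ K * q + x : ℕ) : ℤ)) =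
      2 ^ K * u K s := by
  have hpos : 0 < 2 ^ K := by positivity
  rw [← count_sum_ind K s, ← count_sum_affine (2 ^ K) hpos (countInd K s) (countInd_add_mul K s)
    a z ha]
  refine Finset.sum_congr rfl fun x _ => ?_
  have h := countInd_add_mul K s (a * (x : ℤ) + z) (a * q)
  rw [← h]
  congr 1
  push_cast
  ring

theorem count_aff_mul (K : ℕ) (s : St) (z a : ℤ) (ha : IsCoprime a ((2 ^ K : ℕ) : ℤ)) (q : ℕ) :
    ∑ x ∈ Finset.range (2 ^ K * q), countInd K s (z + a * ((x : ℕ) : ℤ)) =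
      q * (2 ^ K * u K s) := by
  induction q with
  | zero => simp
  | succ q ih =>
    rw [show 2 ^ K * (q + 1) = 2 ^ K * q + 2 ^ K by ring, Finset.sum_range_add, ih,
      count_aff_block K s z a ha q]
    push_cast
    ring

theorem count_aff (K : ℕ) (s : St) (z a Y : ℕ) (ha : a % 2 = 1) : open Classical in
    (((Finset.range Y).filter (fun m : ℕ => bad K s ((z : ℤ) + a * m))).card : ℝ) ≤
      ((Y : ℝ) + 2 ^ K) * u K s := by
  classical
  have hco : IsCoprime (a : ℤ) ((2 ^ K : ℕ) : ℤ) := by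
    rw [Nat.isCoprime_iff_coprime]
    exact Nat.Coprime.pow_right K (Nat.coprime_two_right.2 (Nat.odd_iff.2 ha))
  have h1 : ((((Finset.range Y).filter (fun m : ℕ => bad K s ((z : ℤ) + a * m))).card : ℕ) : ℝ) =
      ∑ x ∈ Finset.range Y, countInd K s ((z : ℤ) + a * ((x : ℕ) : ℤ)) := by
    rw [Finset.card_filter]
    push_cast
    refine Finset.sum_congr rfl fun x _ => ?_
    unfold countInd
    by_cases hb : bad K s ((z : ℤ) + a * (x : ℤ))
    · simp [hb]
    · simp [hb]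
  have hpos : 0 < 2 ^ K := by positivity
  have hsub : Finset.range Y ⊆ Finset.range (2 ^ K * (Y / 2 ^ K + 1)) := by
    intro x hx
    rw [Finset.mem_range] at hx ⊢
    exact lt_trans hx (Nat.lt_mul_div_succ Y hpos)
  have h2 : ∑ x ∈ Finset.range Y, countInd K s ((z : ℤ) + a * ((x : ℕ) : ℤ)) ≤
      ∑ x ∈ Finset.range (2 ^ K * (Y / 2 ^ K + 1)), countInd K s ((z : ℤ) + a * ((x : ℕ) : ℤ)) :=
    Finset.sum_le_sum_of_subset_of_nonneg hsub fun x _ _ => countInd_nonneg K s _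
  rw [count_aff_mul K s z a hco] at h2
  have hu : 0 ≤ 2 ^ K * u K s := by
    rw [← count_sum_ind K s]
    exact Finset.sum_nonneg fun x _ => countInd_nonneg K s _
  have hu' : 0 ≤ u K s := by
    have h2K : (0 : ℝ) < 2 ^ K := by positivity
    exact nonneg_of_mul_nonneg_right hu h2K
  have h3 : (((Y / 2 ^ K + 1 : ℕ) : ℝ)) * 2 ^ K ≤ (Y : ℝ) + 2 ^ K := by
    have h4 : (Y / 2 ^ K + 1) * 2 ^ K ≤ Y + 2 ^ K := by
      have := Nat.div_mul_le_self Y (2 ^ K)
      nlinarith
    exact_mod_cast h4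
  have h5 : ((((Finset.range Y).filter (fun m : ℕ => bad K s ((z : ℤ) + a * m))).card : ℕ) : ℝ) ≤
      ((Y : ℝ) + 2 ^ K) * u K s := by
    calc ((((Finset.range Y).filter (fun m : ℕ => bad K s ((z : ℤ) + a * m))).card : ℕ) : ℝ)
        ≤ ((Y / 2 ^ K + 1 : ℕ) : ℝ) * (2 ^ K * u K s) := by rw [h1]; exact h2
      _ = (((Y / 2 ^ K + 1 : ℕ) : ℝ)) * 2 ^ K * u K s := by ring
      _ ≤ ((Y : ℝ) + 2 ^ K) * u K s := mul_le_mul_of_nonneg_right h3 hu'
  convert h5 using 3

end Pool.Agent.Lib.MP_e43fce_nt_coal
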