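import Mathlib

/-!
Coalescence of Collatz orbits: the driving chain.

A pair of integers is written `(w, 3 ^ d * w + g)` with the state `(d, g)`.  Both numbers are moved
by the shortcut map `T` (`T n = n / 2` or `(3 n + 1) / 2`); `b` is the parity of `w` (`true` for odd).
The state `(0, 0)` means that the two orbits have met.
-/

set_option autoImplicit false

namespace Pool.Agent.Lib.MP_e43fce_nt_coal

/-- states `(d, g)` -/
abbrev St := ℕ × ℤ

/-- the step of the chain with the coin `b` -/
def step (s : St) (b : Bool) : St :=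
  if s.2 % 2 = 0 then
    (if b = true then (s.1, (3 * s.2 + 1 - 3 ^ s.1) / 2) else (s.1, s.2 / 2))
  else if b = true then
    (if s.1 = 0 then (1, (1 - 3 * s.2) / 2) else (s.1 - 1, (s.2 - 3 ^ (s.1 - 1)) / 2))
  else (s.1 + 1, (3 * s.2 + 1) / 2)

/-- the averaging operator of the chain -/
noncomputable def avg (f : St → ℝ) (s : St) : ℝ := (f (step s false) + f (step s true)) / 2

/-- the probability that the chain started at `s` is not at `(0, 0)` after `K` steps -/
noncomputable def u : ℕ → St → ℝ
  | 0, s => if s = (0, 0) then 0 else 1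
  | K + 1, s => avg (u K) s

/-- the finite set `B`: `d = 0` and `|g| ≤ 10 ^ 7` -/
def inB (s : St) : Prop := s.1 = 0 ∧ |s.2| ≤ 10 ^ 7

instance (s : St) : Decidable (inB s) := by unfold inB; infer_instance

/-- the probability that the chain started at `s` is outside `B` at the times `0, …, K` -/
noncomputable def e : ℕ → St → ℝ
  | 0, s => if inB s then 0 else 1
  | K + 1, s => if inB s then 0 else avg (e K) s

/-- the square root of the size of the offset -/
noncomputable def rho (s : St) : ℝ := √(|(s.2 : ℝ)| / 3 ^ s.1)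

/-- the exponent of `2` in `3 ^ d - 1` (`0` for `d = 0`) -/
def w (d : ℕ) : ℕ := padicValNat 2 (3 ^ d - 1)

/-- the minimum of `k` and the exponent of `2` in `g` (`k` for `g = 0`) -/
def vv : ℕ → ℤ → ℕ
  | 0, _ => 0
  | k + 1, g => if g % 2 = 0 then vv k (g / 2) + 1 else 0

/-- the potential of the stays -/
def a (s : St) : ℕ :=
  if s.1 = 0 ∨ s.2 % 2 ≠ 0 then 0 else if (2 : ℤ) ^ w s.1 ∣ s.2 then w s.1 + 2 else vv (w s.1) s.2

/-- the height part of the potential -/
noncomputable def phi (d : ℕ) : ℝ := d + 50000 - (800 * d + 34000) * (19 / 20 : ℝ) ^ d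

/-- the Lyapunov function -/
noncomputable def V (s : St) : ℝ := phi s.1 + (19 / 20 : ℝ) ^ s.1 * (rho s + (a s : ℝ) / 2)

/-- the first differences of `F` -/
def dF : ℕ → ℕ
  | 0 => 0
  | k + 1 => dF k + (w (k + 2) + w k + 6)

/-- a convex function with `F (d + 2) + F d - 2 F (d + 1) = w (d + 2) + w d + 6` -/
def F : ℕ → ℕ
  | 0 => 0
  | k + 1 => F k + dF k

/-- the next value of the small number -/
def nxt (s : St) (x : ℤ) : ℤ :=
  if x % 2 = 0 then x / 2
  else if s.1 = 0 ∧ s.2 % 2 ≠ 0 then (x + s.2) / 2 else (3 * x + 1) / 2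

/-- the chain started at `s` and driven by the parities of the small number, started at `x`, is not
at `(0, 0)` after `K` steps -/
def bad : ℕ → St → ℤ → Prop
  | 0, s, _ => s ≠ (0, 0)
  | K + 1, s, x => bad K (step s (decide (x % 2 ≠ 0))) (nxt s x)

/-- the Collatz map on the integers -/
def Cz (x : ℤ) : ℤ := if x % 2 = 0 then x / 2 else 3 * x + 1

/-- the Collatz map on the naturals -/
def C (n : ℕ) : ℕ := if n % 2 = 0 then n / 2 else 3 * n + 1

end Pool.Agent.Lib.MP_e43fce_nt_coal
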