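import Pool.Agent.Lib.MP_e43fce_nt_coal.Defs

/-!
Coalescence of Collatz orbits: definitions for long blocks.

The integers `n, n + 1, …, n + H - 1` are moved together by the shortcut map.  After `t` steps the
integer `x` has the state `st t x = (number of odd steps, value)`; two members of the block with the
same state are merged for ever.
-/

set_option autoImplicit false

namespace Pool.Agent.Lib.MP_e43fce_nt_coal

/-- one step of the shortcut map on pairs (number of odd steps, value) -/
def tstep (c : ℕ × ℕ) : ℕ × ℕ :=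
  if c.2 % 2 = 0 then (c.1, c.2 / 2) else (c.1 + 1, (3 * c.2 + 1) / 2)

/-- the number of odd steps and the value of `x` after `t` steps of the shortcut map -/
def st (t x : ℕ) : ℕ × ℕ := tstep^[t] (0, x)

/-- the classes at the time `t` of the block of the `H` integers `n + i`, `i < H` -/
def cls (H t n : ℕ) : Finset (ℕ × ℕ) := (Finset.range H).image (fun i => st t (n + i))

/-- the offset of a class -/
noncomputable def off (t n : ℕ) (c : ℕ × ℕ) : ℝ := c.2 - 3 ^ c.1 * n / 2 ^ t

/-- the sum of the square roots of the offsets -/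
noncomputable def Phi (H t n : ℕ) : ℝ := ∑ c ∈ cls H t n, √(off t n c)

/-- the mean number of classes -/
noncomputable def AN (H t : ℕ) : ℝ :=
  (∑ n ∈ Finset.range (2 ^ t), ((cls H t n).card : ℝ)) / 2 ^ t

/-- the mean of `Phi` -/
noncomputable def BP (H t : ℕ) : ℝ := (∑ n ∈ Finset.range (2 ^ t), Phi H t n) / 2 ^ t

/-- the class `c` at `n + 2 ^ t * m` -/
def shift (m : ℕ) (c : ℕ × ℕ) : ℕ × ℕ := (c.1, c.2 + 3 ^ c.1 * m)

/-- the state of the pair (small `c`, big `c'`), for `c.1 ≤ c'.1` -/
def rel (c c' : ℕ × ℕ) : St := (c'.1 - c.1, (c'.2 : ℤ) - 3 ^ (c'.1 - c.1) * (c.2 : ℤ))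

/-- the sum of `f` over the pairs of neighbours of a list -/
def adj (f : ℕ × ℕ → ℕ × ℕ → ℝ) (l : List (ℕ × ℕ)) : ℝ :=
  ((l.zip l.tail).map (fun p => f p.1 p.2)).sum

end Pool.Agent.Lib.MP_e43fce_nt_coal
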