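import Pool.Agent.Lib.MP_e43fce_nt_coal.Afun

/-!
Coalescence of Collatz orbits: the drift of the Lyapunov function.
-/

set_option autoImplicit false

namespace Pool.Agent.Lib.MP_e43fce_nt_coal

theorem th_mul (d : ℕ) : (d : ℝ) * (19 / 20 : ℝ) ^ d ≤ 19 * (1 - (19 / 20 : ℝ) ^ d) := by
  have h1 : (1 : ℝ) + d * (1 / 19) ≤ (1 + 1 / 19) ^ d :=
    one_add_mul_le_pow (by norm_num) d
  have h2 : (19 / 20 : ℝ) ^ d * (1 + 1 / 19) ^ d = 1 := by
    rw [← mul_pow]; norm_num
  have h3 : (0 : ℝ) < (19 / 20 : ℝ) ^ d := by positivity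
  have h4 := mul_le_mul_of_nonneg_left h1 h3.le
  rw [h2] at h4
  nlinarith

theorem th_pos (d : ℕ) : (0 : ℝ) < (19 / 20 : ℝ) ^ d := by positivity

theorem th_le (d : ℕ) : (19 / 20 : ℝ) ^ d ≤ 1 := pow_le_one₀ (by norm_num) (by norm_num)

theorem phi_ge (d : ℕ) : (d : ℝ) ≤ phi d := by
  unfold phi
  have h1 := th_mul d
  have h2 := th_pos d
  have h3 := th_le d
  nlinarith

theorem phi_le (d : ℕ) : phi d ≤ d + 50000 := by
  unfold phi
  have h2 := th_pos d
  have h3 : (0 : ℝ) ≤ d := Nat.cast_nonneg d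
  have : 0 ≤ (800 * (d : ℝ) + 34000) * (19 / 20 : ℝ) ^ d := by positivity
  linarith

theorem rho_nonneg (s : St) : 0 ≤ rho s := Real.sqrt_nonneg _

theorem V_ge (s : St) : (s.1 : ℝ) ≤ V s := by
  unfold V
  have h1 := phi_ge s.1
  have h2 : 0 ≤ (19 / 20 : ℝ) ^ s.1 * (rho s + (a s : ℝ) / 2) := by
    have := rho_nonneg s
    positivity
  linarith

theorem a_le_d (s : St) : (a s : ℝ) ≤ 2 * s.1 + 1 := by
  rcases Nat.eq_zero_or_pos s.1 with h | h
  · rw [a_eq_zero s (Or.inl h)]
    have : (0 : ℝ) ≤ s.1 := Nat.cast_nonneg _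
    push_cast
    linarith
  · have h1 := a_le s
    have h2 := w_le s.1 h
    have h3 : a s ≤ 2 * s.1 + 1 := by omega
    exact_mod_cast h3

theorem V_le (s : St) : V s ≤ s.1 + 50020 + rho s := by
  unfold V
  have h1 := phi_le s.1
  have h2 := th_pos s.1
  have h3 := th_le s.1
  have h4 := th_mul s.1
  have h5 := a_le_d s
  have h6 := rho_nonneg s
  have h7 : (19 / 20 : ℝ) ^ s.1 * rho s ≤ rho s := by nlinarith
  have h8 : (19 / 20 : ℝ) ^ s.1 * ((a s : ℝ) / 2) ≤ 20 := by
    have : (19 / 20 : ℝ) ^ s.1 * ((a s : ℝ) / 2) ≤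
        (19 / 20 : ℝ) ^ s.1 * ((2 * (s.1 : ℝ) + 1) / 2) := by
      apply mul_le_mul_of_nonneg_left _ h2.le
      linarith
    nlinarith
  nlinarith

/-- half of an even number -/
theorem half_cast (x : ℤ) (h : x % 2 = 0) : ((x / 2 : ℤ) : ℝ) = (x : ℝ) / 2 := by
  obtain ⟨k, rfl⟩ := Int.dvd_of_emod_eq_zero h
  rw [Int.mul_ediv_cancel_left _ (by norm_num)]
  push_cast
  ring

theorem three_odd (d : ℕ) : (3 : ℤ) ^ d % 2 = 1 := by
  have : Odd ((3 : ℤ) ^ d) := Odd.pow (by decide)
  exact Int.odd_iff.mp this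

theorem sqrt_lin {r' r c y p z : ℝ} (hr : 0 ≤ r) (hp : 0 ≤ p) (hz : 0 ≤ z) (hc : c ≤ p ^ 2)
    (hy : y ≤ z ^ 2) (h : r' ≤ c * r + y) : √r' ≤ p * √r + z := by
  rw [Real.sqrt_le_left (by positivity)]
  have h1 : (√r) ^ 2 = r := Real.sq_sqrt hr
  have h2 : 0 ≤ √r := Real.sqrt_nonneg r
  have h3 : c * r ≤ p ^ 2 * r := mul_le_mul_of_nonneg_right hc hr
  have h4 : 0 ≤ 2 * (p * √r) * z := by positivity
  nlinarith

theorem r_nonneg (s : St) : 0 ≤ |(s.2 : ℝ)| / 3 ^ s.1 := by positivity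

/-- even offset, coin `false` -/
theorem rho_ef (s : St) (hg : s.2 % 2 = 0) : rho (step s false) ≤ 7072 / 10000 * rho s := by
  have hs : step s false = (s.1, s.2 / 2) := by simp [step, hg]
  rw [hs]
  unfold rho
  have h := sqrt_lin (r' := |((s.2 / 2 : ℤ) : ℝ)| / 3 ^ s.1) (r := |(s.2 : ℝ)| / 3 ^ s.1)
    (c := 1 / 2) (y := 0) (p := 7072 / 10000) (z := 0) (r_nonneg s) (by norm_num) (le_refl _)
    (by norm_num) (by norm_num) (by
      rw [half_cast _ hg, abs_div]
      norm_num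
      apply le_of_eq
      ring)
  simpa using h

/-- even offset, coin `true` -/
theorem rho_et (s : St) (hg : s.2 % 2 = 0) :
    rho (step s true) ≤ 12248 / 10000 * rho s + 7072 / 10000 := by
  have hs : step s true = (s.1, (3 * s.2 + 1 - 3 ^ s.1) / 2) := by simp [step, hg]
  rw [hs]
  unfold rho
  apply sqrt_lin (c := 3 / 2) (y := 1 / 2) (r_nonneg s) (by norm_num) (by norm_num)
    (by norm_num) (by norm_num)
  have h3 := three_odd s.1
  rw [half_cast _ (by omega)]
  have hp : (0 : ℝ) < 3 ^ s.1 := by positivity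
  have hp1 : (1 : ℝ) ≤ 3 ^ s.1 := one_le_pow₀ (by norm_num)
  rw [show (3 / 2 : ℝ) * (|(s.2 : ℝ)| / 3 ^ s.1) + 1 / 2 =
    ((3 * |(s.2 : ℝ)| + 3 ^ s.1) / 2) / 3 ^ s.1 by field_simp]
  apply div_le_div_of_nonneg_right _ hp.le
  push_cast
  rw [abs_div, abs_of_pos (by norm_num : (0 : ℝ) < 2)]
  apply div_le_div_of_nonneg_right _ (by norm_num)
  rw [show (3 * (s.2 : ℝ) + 1 - 3 ^ s.1) = 3 * (s.2 : ℝ) + (1 - 3 ^ s.1) by ring]
  refine (abs_add_le _ _).trans ?_
  have hh : |1 - (3 : ℝ) ^ s.1| = 3 ^ s.1 - 1 := by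
    rw [abs_of_nonpos (by linarith)]; ring
  rw [hh, abs_mul, abs_of_pos (by norm_num : (0 : ℝ) < 3)]
  linarith

/-- even offset, `d = 0`, coin `true` -/
theorem rho_et0 (s : St) (hd : s.1 = 0) (hg : s.2 % 2 = 0) :
    rho (step s true) ≤ 12248 / 10000 * rho s := by
  have hs : step s true = (s.1, (3 * s.2 + 1 - 3 ^ s.1) / 2) := by simp [step, hg]
  rw [hs]
  unfold rho
  have h3 := three_odd s.1
  have h := sqrt_lin (r' := |(((3 * s.2 + 1 - 3 ^ s.1) / 2 : ℤ) : ℝ)| / 3 ^ s.1)
    (r := |(s.2 : ℝ)| / 3 ^ s.1)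
    (c := 3 / 2) (y := 0) (p := 12248 / 10000) (z := 0) (r_nonneg s) (by norm_num) (le_refl _)
    (by norm_num) (by norm_num) (by
      rw [half_cast _ (by omega), abs_div]
      push_cast
      rw [hd]
      norm_num
      apply le_of_eq
      ring)
  simpa using h

theorem rho_of_gen (s : St) (hg : s.2 % 2 ≠ 0) (y z : ℝ) (hz : 0 ≤ z) (hyz : y ≤ z ^ 2)
    (hy : 1 / (6 * 3 ^ s.1) ≤ y) :
    rho (step s false) ≤ 7072 / 10000 * rho s + z := by
  have hs : step s false = (s.1 + 1, (3 * s.2 + 1) / 2) := by simp [step, hg]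
  rw [hs]
  unfold rho
  apply sqrt_lin (c := 1 / 2) (y := y) (r_nonneg s) (by norm_num) hz (by norm_num) hyz
  rw [half_cast _ (by omega)]
  have hp : (0 : ℝ) < 3 ^ s.1 := by positivity
  refine le_trans ?_ (add_le_add_right hy _)
  rw [show (1 / 2 : ℝ) * (|(s.2 : ℝ)| / 3 ^ s.1) + 1 / (6 * 3 ^ s.1) =
    ((3 * |(s.2 : ℝ)| + 1) / 2) / 3 ^ (s.1 + 1) by rw [pow_succ]; field_simp; ring]
  apply div_le_div_of_nonneg_right _ (by positivity)
  push_cast
  rw [abs_div, abs_of_pos (by norm_num : (0 : ℝ) < 2)]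
  apply div_le_div_of_nonneg_right _ (by norm_num)
  refine (abs_add_le _ _).trans ?_
  rw [abs_mul, abs_of_pos (by norm_num : (0 : ℝ) < 3), abs_one]

/-- odd offset, coin `false` -/
theorem rho_of (s : St) (hg : s.2 % 2 ≠ 0) :
    rho (step s false) ≤ 7072 / 10000 * rho s + 4083 / 10000 := by
  apply rho_of_gen s hg (1 / 6) _ (by norm_num) (by norm_num)
  have hp1 : (1 : ℝ) ≤ 3 ^ s.1 := one_le_pow₀ (by norm_num)
  apply one_div_le_one_div_of_le (by norm_num)
  linarith

/-- odd offset, `d ≥ 1`, coin `false` -/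
theorem rho_of1 (s : St) (hd : s.1 ≠ 0) (hg : s.2 % 2 ≠ 0) :
    rho (step s false) ≤ 7072 / 10000 * rho s + 2358 / 10000 := by
  apply rho_of_gen s hg (1 / 18) _ (by norm_num) (by norm_num)
  have hp1 : (3 : ℝ) ≤ 3 ^ s.1 := by
    calc (3 : ℝ) = 3 ^ 1 := by norm_num
      _ ≤ 3 ^ s.1 := pow_le_pow_right₀ (by norm_num) (Nat.one_le_iff_ne_zero.mpr hd)
  apply one_div_le_one_div_of_le (by norm_num)
  linarith

/-- odd offset, `d ≥ 1`, coin `true` -/
theorem rho_ot1 (s : St) (hd : s.1 ≠ 0) (hg : s.2 % 2 ≠ 0) :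
    rho (step s true) ≤ 12248 / 10000 * rho s + 7072 / 10000 := by
  have hs : step s true = (s.1 - 1, (s.2 - 3 ^ (s.1 - 1)) / 2) := by simp [step, hg, hd]
  rw [hs]
  unfold rho
  obtain ⟨e, he⟩ := Nat.exists_eq_succ_of_ne_zero hd
  apply sqrt_lin (c := 3 / 2) (y := 1 / 2) (r_nonneg s) (by norm_num) (by norm_num)
    (by norm_num) (by norm_num)
  have h3 := three_odd (s.1 - 1)
  rw [half_cast _ (by omega)]
  have he1 : s.1 - 1 = e := by omega
  rw [he1, he]
  simp only [Nat.succ_eq_add_one]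
  have hp : (0 : ℝ) < 3 ^ e := by positivity
  rw [show (3 / 2 : ℝ) * (|(s.2 : ℝ)| / 3 ^ (e + 1)) + 1 / 2 =
    ((|(s.2 : ℝ)| + 3 ^ e) / 2) / 3 ^ e by rw [pow_succ]; field_simp]
  apply div_le_div_of_nonneg_right _ hp.le
  push_cast
  rw [abs_div, abs_of_pos (by norm_num : (0 : ℝ) < 2)]
  apply div_le_div_of_nonneg_right _ (by norm_num)
  refine (abs_sub _ _).trans ?_
  rw [abs_of_pos hp]

/-- odd offset, `d = 0`, coin `true` -/
theorem rho_ot0 (s : St) (hd : s.1 = 0) (hg : s.2 % 2 ≠ 0) :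
    rho (step s true) ≤ 7072 / 10000 * rho s + 4083 / 10000 := by
  have hs : step s true = (1, (1 - 3 * s.2) / 2) := by simp [step, hg, hd]
  rw [hs]
  unfold rho
  apply sqrt_lin (c := 1 / 2) (y := 1 / 6) (r_nonneg s) (by norm_num) (by norm_num)
    (by norm_num) (by norm_num)
  rw [half_cast _ (by omega), hd]
  push_cast
  rw [abs_div, abs_of_pos (by norm_num : (0 : ℝ) < 2)]
  have h1 : |1 - 3 * (s.2 : ℝ)| ≤ 1 + 3 * |(s.2 : ℝ)| := by
    refine (abs_sub _ _).trans ?_
    rw [abs_mul, abs_of_pos (by norm_num : (0 : ℝ) < 3), abs_one]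
  norm_num
  linarith

theorem rho_drift (s : St) : avg rho s ≤ 966 / 1000 * rho s + 1 / 2 := by
  unfold avg
  have h0 := rho_nonneg s
  by_cases hg : s.2 % 2 = 0
  · have h1 := rho_ef s hg
    have h2 := rho_et s hg
    linarith
  · by_cases hd : s.1 = 0
    · have h1 := rho_of s hg
      have h2 := rho_ot0 s hd hg
      linarith
    · have h1 := rho_of1 s hd hg
      have h2 := rho_ot1 s hd hg
      linarith

theorem rho_big (s : St) (h0 : s.1 = 0) (h : ¬ inB s) : 3162 ≤ rho s := by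
  unfold rho
  rw [h0]
  apply Real.le_sqrt_of_sq_le
  have h1 : (10 : ℤ) ^ 7 < |s.2| := by
    by_contra hc
    exact h ⟨h0, not_lt.mp hc⟩
  have h2 : (10 : ℝ) ^ 7 < |(s.2 : ℝ)| := by exact_mod_cast h1
  norm_num at h2 ⊢
  linarith

theorem V_drift_zero (s : St) (h0 : s.1 = 0) (h : ¬ inB s) : avg V s ≤ V s - 1 := by
  have hb := rho_big s h0 h
  have ha := a_eq_zero s (Or.inl h0)
  have hV : V s = phi 0 + rho s := by
    unfold V
    rw [h0, ha]
    norm_num
  rw [hV]
  by_cases hg : s.2 % 2 = 0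
  · have h1 := rho_ef s hg
    have h2 := rho_et0 s h0 hg
    have e1 : step s false = (s.1, s.2 / 2) := by simp [step, hg]
    have e2 : step s true = (s.1, (3 * s.2 + 1 - 3 ^ s.1) / 2) := by simp [step, hg]
    have hV1 : V (step s false) = phi 0 + rho (step s false) := by
      unfold V
      rw [a_eq_zero (step s false) (Or.inl (by rw [e1]; exact h0))]
      have : (step s false).1 = 0 := by rw [e1]; exact h0
      rw [this]
      norm_num
    have hV2 : V (step s true) = phi 0 + rho (step s true) := by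
      unfold V
      rw [a_eq_zero (step s true) (Or.inl (by rw [e2]; exact h0))]
      have : (step s true).1 = 0 := by rw [e2]; exact h0
      rw [this]
      norm_num
    unfold avg
    rw [hV1, hV2]
    linarith
  · have h1 := rho_of s hg
    have h2 := rho_ot0 s h0 hg
    have e1 : (step s false).1 = 1 := by simp [step, hg, h0]
    have e2 : (step s true).1 = 1 := by simp [step, hg, h0]
    have a1 : (a (step s false) : ℝ) ≤ 3 := by
      have := a_le_d (step s false)
      rw [e1] at this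
      push_cast at this
      linarith
    have a2 : (a (step s true) : ℝ) ≤ 3 := by
      have := a_le_d (step s true)
      rw [e2] at this
      push_cast at this
      linarith
    unfold avg V
    rw [e1, e2]
    unfold phi
    norm_num
    linarith

theorem V_drift (s : St) (h : ¬ inB s) : avg V s ≤ V s := by
  by_cases h0 : s.1 = 0
  · have := V_drift_zero s h0 h
    linarith
  · have hr := rho_nonneg s
    by_cases hg : s.2 % 2 = 0
    · have h1 := rho_ef s hg
      have h2 := rho_et s hg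
      have e1 : (step s false).1 = s.1 := by simp [step, hg]
      have e2 : (step s true).1 = s.1 := by simp [step, hg]
      have hst := a_stay s h0 hg
      unfold avg V
      rw [e1, e2]
      have hp := th_pos s.1
      have key : (rho (step s false) + (a (step s false) : ℝ) / 2 +
          (rho (step s true) + (a (step s true) : ℝ) / 2)) / 2 ≤ rho s + (a s : ℝ) / 2 := by
        linarith
      have := mul_le_mul_of_nonneg_left key hp.le
      linarith
    · have h1 := rho_of1 s h0 hg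
      have h2 := rho_ot1 s h0 hg
      obtain ⟨e, he⟩ := Nat.exists_eq_succ_of_ne_zero h0
      have e1 : (step s false).1 = e + 2 := by simp [step, hg, he]
      have e2 : (step s true).1 = e := by simp [step, hg, he]
      have a0 := a_eq_zero s (Or.inr hg)
      have a1 := a_le_d (step s false)
      have a2 := a_le_d (step s true)
      rw [e1] at a1
      rw [e2] at a2
      unfold avg V phi
      rw [e1, e2, a0, he]
      simp only [Nat.succ_eq_add_one]
      have hp := th_pos e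
      set p := (19 / 20 : ℝ) ^ e with hpdef
      rw [show (19 / 20 : ℝ) ^ (e + 1) = 19 / 20 * p by rw [pow_succ]; ring,
        show (19 / 20 : ℝ) ^ (e + 2) = 361 / 400 * p by rw [pow_add]; norm_num; ring]
      push_cast at a1 a2 ⊢
      have he0 : (0 : ℝ) ≤ e := Nat.cast_nonneg e
      have key : (361 / 400) * (rho (step s false) + (a (step s false) : ℝ) / 2) +
          (rho (step s true) + (a (step s true) : ℝ) / 2) ≤
          2 * (19 / 20) * rho s + (2 * e + 9) := by
        linarith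
      have := mul_le_mul_of_nonneg_left key hp.le
      nlinarith

end Pool.Agent.Lib.MP_e43fce_nt_coal
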