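import Pool.Agent.Lib.MP_e43fce_nt_coal.Cls
import Pool.Agent.Lib.MP_e43fce_nt_coal.Drift

/-! DriftPhi: the drift of the sum of the square roots of the offsets. -/

set_option autoImplicit false

namespace Pool.Agent.Lib.MP_e43fce_nt_coal

private theorem dphi_half (y : ℝ) (hy : 0 ≤ y) : √(y / 2) ≤ 7072 / 10000 * √y + 0 := by
  apply sqrt_lin (c := 1 / 2) (y := 0) hy (by norm_num) (by norm_num) (by norm_num) (by norm_num)
  linarith

private theorem dphi_three (y : ℝ) (hy : 0 ≤ y) :
    √((3 * y + 1) / 2) ≤ 12248 / 10000 * √y + 7072 / 10000 := by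
  apply sqrt_lin (c := 3 / 2) (y := 1 / 2) hy (by norm_num) (by norm_num) (by norm_num)
    (by norm_num)
  linarith

private theorem dphi_sum (y : ℝ) (hy : 0 ≤ y) :
    √(y / 2) + √((3 * y + 1) / 2) ≤ 2 * (966 / 1000) * √y + 1 := by
  have h1 := dphi_half y hy
  have h2 := dphi_three y hy
  linarith

/-- the sum over the images is at most the sum over the classes -/
private theorem dphi_image (s : Finset (ℕ × ℕ)) (g : ℕ × ℕ → ℕ × ℕ) (f : ℕ × ℕ → ℝ)
    (hf : ∀ c, 0 ≤ f c) : ∑ c ∈ s.image g, f c ≤ ∑ c ∈ s, f (g c) := by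
  classical
  induction s using Finset.induction_on with
  | empty => simp
  | @insert a s ha ih =>
    rw [Finset.image_insert, Finset.sum_insert ha]
    by_cases h : g a ∈ s.image g
    · rw [Finset.insert_eq_of_mem h]
      linarith [hf (g a)]
    · rw [Finset.sum_insert h]
      linarith

private theorem dphi_le (H t n : ℕ) :
    Phi H (t + 1) n ≤ ∑ c ∈ cls H t n, √(off (t + 1) n (tstep c)) := by
  unfold Phi
  rw [cls_succ]
  exact dphi_image _ _ _ fun c => Real.sqrt_nonneg _

private theorem dphi_le_shift (H t n : ℕ) :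
    Phi H (t + 1) (n + 2 ^ t) ≤
      ∑ c ∈ cls H t n, √(off (t + 1) (n + 2 ^ t) (tstep (shift 1 c))) := by
  refine (dphi_le H t (n + 2 ^ t)).trans ?_
  have h := cls_add H t n 1
  rw [mul_one] at h
  rw [h]
  exact dphi_image _ _ (fun c => √(off (t + 1) (n + 2 ^ t) (tstep c))) fun c => Real.sqrt_nonneg _

private theorem dphi_pair (H t n : ℕ) : Phi H (t + 1) n + Phi H (t + 1) (n + 2 ^ t) ≤
    2 * (966 / 1000) * Phi H t n + (cls H t n).card := by
  have h1 := dphi_le H t n
  have h2 := dphi_le_shift H t n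
  have h3 : ∀ c ∈ cls H t n, √(off (t + 1) n (tstep c)) +
      √(off (t + 1) (n + 2 ^ t) (tstep (shift 1 c))) ≤ 2 * (966 / 1000) * √(off t n c) + 1 := by
    intro c hc
    have hy := cls_off H t n c hc
    have h4 : off t (n + 2 ^ t) (shift 1 c) = off t n c := by
      have := off_shift t n 1 c
      rwa [mul_one] at this
    have hodd : 3 ^ c.1 % 2 = 1 := by
      have h5 : Odd (3 ^ c.1) := Odd.pow (by decide)
      exact Nat.odd_iff.1 h5
    have h6 : (shift 1 c).2 = c.2 + 3 ^ c.1 := by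
      unfold shift
      simp
    by_cases hp : c.2 % 2 = 0
    · have h7 : (shift 1 c).2 % 2 ≠ 0 := by
        rw [h6]
        omega
      rw [off_even t n c hp, off_odd t (n + 2 ^ t) _ h7, h4]
      exact dphi_sum _ hy
    · have h7 : (shift 1 c).2 % 2 = 0 := by
        rw [h6]
        omega
      rw [off_odd t n c hp, off_even t (n + 2 ^ t) _ h7, h4, add_comm]
      exact dphi_sum _ hy
  have h8 := Finset.sum_le_sum h3
  rw [Finset.sum_add_distrib, Finset.sum_add_distrib, ← Finset.mul_sum, Finset.sum_const,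
    nsmul_eq_mul, mul_one] at h8
  have h9 : Phi H t n = ∑ c ∈ cls H t n, √(off t n c) := rfl
  rw [h9]
  linarith

theorem BP_succ (H t : ℕ) : BP H (t + 1) ≤ 966 / 1000 * BP H t + 1 / 2 * AN H t := by
  have h1 : ∑ n ∈ Finset.range (2 ^ (t + 1)), Phi H (t + 1) n =
      ∑ n ∈ Finset.range (2 ^ t), (Phi H (t + 1) n + Phi H (t + 1) (n + 2 ^ t)) := by
    have h2 : 2 ^ (t + 1) = 2 ^ t + 2 ^ t := by ring
    rw [h2, Finset.sum_range_add, Finset.sum_add_distrib]
    congr 1
    exact Finset.sum_congr rfl fun n _ => by rw [add_comm (2 ^ t) n]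
  have h3 : ∑ n ∈ Finset.range (2 ^ t), (Phi H (t + 1) n + Phi H (t + 1) (n + 2 ^ t)) ≤
      ∑ n ∈ Finset.range (2 ^ t), (2 * (966 / 1000) * Phi H t n + (cls H t n).card) :=
    Finset.sum_le_sum fun n _ => dphi_pair H t n
  rw [← h1] at h3
  rw [Finset.sum_add_distrib, ← Finset.mul_sum] at h3
  unfold BP AN
  have h4 : (0 : ℝ) < 2 ^ t := by positivity
  have h5 : (2 : ℝ) ^ (t + 1) = 2 * 2 ^ t := by ring
  rw [h5, div_le_iff₀ (by positivity)]
  refine h3.trans (le_of_eq ?_)
  field_simp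

end Pool.Agent.Lib.MP_e43fce_nt_coal
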