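import Pool.Agent.Lib.MP_e43fce_nt_coal.Defs

/-! The growth of `F`. -/

set_option autoImplicit false

namespace Pool.Agent.Lib.MP_e43fce_nt_coal

private theorem wsum_w_le (d : ℕ) (hd : d ≠ 0) : w d ≤ padicValNat 2 d + 2 := by
  unfold w
  rcases Nat.even_or_odd d with he | ho
  · have h := padicValNat.pow_two_sub_pow (x := 3) (y := 1) (by norm_num) (by norm_num)
      (by norm_num) hd he
    have h4 : padicValNat 2 (3 + 1) = 2 := by
      have : (3 + 1 : ℕ) = 2 ^ 2 := by norm_num
      rw [this, padicValNat.prime_pow]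
    have h2 : padicValNat 2 (3 - 1) = 1 := by
      have : (3 - 1 : ℕ) = 2 ^ 1 := by norm_num
      rw [this, padicValNat.prime_pow]
    rw [h4, h2, one_pow] at h
    omega
  · obtain ⟨k, rfl⟩ := ho
    have hm : 3 ^ (2 * k + 1) % 8 = 3 := by
      rw [pow_succ, pow_mul, Nat.mul_mod, Nat.pow_mod]
      norm_num
    generalize 3 ^ (2 * k + 1) = N at *
    have hpos : N - 1 ≠ 0 := by
      intro h0
      omega
    by_contra hc
    have h3 : 2 ^ 3 ∣ N - 1 := by
      rw [padicValNat_dvd_iff_le hpos]
      omega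
    norm_num at h3
    omega

private theorem wsum_sum (k : ℕ) :
    ∑ i ∈ Finset.range (k + 1), w i ≤ padicValNat 2 (k.factorial) + 2 * k := by
  induction k with
  | zero => simp [w]
  | succ k ih =>
    rw [Finset.sum_range_succ]
    have h1 := wsum_w_le (k + 1) (by omega)
    have h2 : padicValNat 2 ((k + 1).factorial) = padicValNat 2 (k + 1) +
        padicValNat 2 (k.factorial) := by
      rw [Nat.factorial_succ, padicValNat.mul (by omega) (Nat.factorial_ne_zero k)]
    omega

private theorem wsum_three (k : ℕ) : ∑ i ∈ Finset.range (k + 1), w i ≤ 3 * k := by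
  have h1 := wsum_sum k
  have h2 := sub_one_mul_padicValNat_factorial (p := 2) k
  omega

private theorem wsum_dF (k : ℕ) :
    dF k + ∑ i ∈ Finset.range 2, w i =
      ∑ i ∈ Finset.range (k + 2), w i + ∑ i ∈ Finset.range k, w i + 6 * k := by
  induction k with
  | zero => simp [dF]
  | succ k ih =>
    have e1 : ∑ i ∈ Finset.range (k + 1 + 2), w i = ∑ i ∈ Finset.range (k + 2), w i + w (k + 2) :=
      Finset.sum_range_succ _ _
    have e2 : ∑ i ∈ Finset.range (k + 1), w i = ∑ i ∈ Finset.range k, w i + w k :=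
      Finset.sum_range_succ _ _
    have e3 : dF (k + 1) = dF k + (w (k + 2) + w k + 6) := rfl
    omega

private theorem wsum_dF_le (k : ℕ) : dF k ≤ 12 * k + 3 := by
  have h1 := wsum_dF k
  have h2 := wsum_three (k + 1)
  have h3 := wsum_three k
  have e2 : ∑ i ∈ Finset.range (k + 1), w i = ∑ i ∈ Finset.range k, w i + w k :=
    Finset.sum_range_succ _ _
  have e1 : ∑ i ∈ Finset.range (k + 1 + 1), w i = ∑ i ∈ Finset.range (k + 2), w i := rfl
  omega

theorem F_le (d : ℕ) : F d ≤ 6 * d ^ 2 := by
  induction d with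
  | zero => simp [F]
  | succ k ih =>
    have h1 := wsum_dF_le k
    have e3 : F (k + 1) = F k + dF k := rfl
    nlinarith

end Pool.Agent.Lib.MP_e43fce_nt_coal
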