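import Pool.Agent.Lib.MP_e43fce_nt_coal.Basic
import Pool.Agent.Lib.MP_e43fce_nt_coal.Wsum
import Pool.Agent.Lib.MP_e43fce_nt_coal.Drift

/-! Rate2: the probability that the chain has not reached `(0, 0)` decays like `1 / √K`, if there is a
suitable Lyapunov function `W`. -/

set_option autoImplicit false

namespace Pool.Agent.Lib.MP_e43fce_nt_coal

variable {W : St → ℝ}

/-- the potential -/
private noncomputable def rateG (W : St → ℝ) (M : ℕ) (s : St) : ℝ := 18 * M * W s - F s.1 + a s

private theorem rate_W_ge (h1 : ∀ s, V s ≤ W s) (s : St) : (s.1 : ℝ) ≤ W s := (V_ge s).trans (h1 s)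

private theorem rate_W_nonneg (h1 : ∀ s, V s ≤ W s) (s : St) : 0 ≤ W s :=
  le_trans (Nat.cast_nonneg _) (rate_W_ge h1 s)

private theorem rate_G_nonneg (hVW : ∀ s, V s ≤ W s) (M : ℕ) (hM : 1 ≤ M) (s : St)
    (hs : s.1 ≤ M + 1) : 0 ≤ rateG W M s := by
  have h1 : (F s.1 : ℝ) ≤ 6 * (s.1 : ℝ) ^ 2 := by exact_mod_cast F_le s.1
  have h2 : (s.1 : ℝ) ≤ M + 1 := by exact_mod_cast hs
  have h3 := rate_W_ge hVW s
  have h4 : (1 : ℝ) ≤ M := by exact_mod_cast hM
  have h5 : (0 : ℝ) ≤ s.1 := Nat.cast_nonneg _
  have h6 : (0 : ℝ) ≤ a s := Nat.cast_nonneg _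
  unfold rateG
  have h7 : (s.1 : ℝ) ^ 2 ≤ 2 * M * W s := by
    calc (s.1 : ℝ) ^ 2 = s.1 * s.1 := by ring
      _ ≤ (2 * M) * W s := mul_le_mul (by linarith) h3 h5 (by linarith)
  nlinarith

/-- the second difference of `F` -/
private theorem rate_F (k : ℕ) : F (k + 2) + F k = 2 * F (k + 1) + (w (k + 2) + w k + 6) := by
  show F (k + 1) + dF (k + 1) + F k = _
  show F k + dF k + (dF k + (w (k + 2) + w k + 6)) + F k = 2 * (F k + dF k) + _
  ring

private theorem rate_F_one : F 1 = 0 := rfl

private theorem rate_F_zero : F 0 = 0 := rfl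

/-- the drift of the potential -/
private theorem rate_drift (hdr : ∀ s, s ≠ (0, 0) → avg W s ≤ W s)
    (hdr0 : ∀ s, s ≠ (0, 0) → s.1 = 0 → avg W s ≤ W s - 1) (M : ℕ) (hM : 1 ≤ M) (s : St)
    (hB : s ≠ (0, 0)) : avg (rateG W M) s ≤ rateG W M s - 1 := by
  have hM1 : (1 : ℝ) ≤ M := by exact_mod_cast hM
  have hV := hdr s hB
  have key : avg (rateG W M) s = 18 * M * avg W s - (F (step s false).1 + F (step s true).1) / 2
      + (a (step s false) + a (step s true)) / 2 := by
    unfold avg rateG
    ring
  rw [key]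
  unfold rateG
  by_cases hd : s.1 = 0
  · have hV0 := hdr0 s hB hd
    have ha := a_eq_zero s (Or.inl hd)
    have h1 : ∀ b, (step s b).1 = 0 ∨ (step s b).1 = 1 := by
      intro b
      unfold step
      by_cases hg : s.2 % 2 = 0
      · rw [if_pos hg]
        cases b <;> simp [hd]
      · rw [if_neg hg]
        cases b <;> simp [hd]
    have h2 : ∀ b, F (step s b).1 = 0 := by
      intro b
      rcases h1 b with h | h <;> rw [h] <;> rfl
    have h3 : ∀ b, (a (step s b) : ℝ) ≤ 3 := by
      intro b
      have h4 := a_le (step s b)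
      have h5 : w (step s b).1 ≤ 1 := by
        rcases h1 b with h | h <;> rw [h]
        · rw [w_zero]; norm_num
        · rw [w_one]
      exact_mod_cast h4.trans (by omega)
    rw [h2 false, h2 true, ha, hd, rate_F_zero]
    have h6 := h3 false
    have h7 := h3 true
    have h8 : 18 * (M : ℝ) * avg W s ≤ 18 * M * (W s - 1) :=
      mul_le_mul_of_nonneg_left hV0 (by linarith)
    push_cast
    nlinarith
  · have hVM : 18 * (M : ℝ) * avg W s ≤ 18 * M * W s :=
      mul_le_mul_of_nonneg_left hV (by linarith)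
    by_cases hg : s.2 % 2 = 0
    · have h1 := a_stay s hd hg
      have h2 : ∀ b, (step s b).1 = s.1 := by
        intro b
        unfold step
        rw [if_pos hg]
        cases b <;> rfl
      rw [h2 false, h2 true]
      linarith
    · have ha := a_eq_zero s (Or.inr hg)
      obtain ⟨k, hk⟩ : ∃ k, s.1 = k + 1 := Nat.exists_eq_succ_of_ne_zero hd
      have h1 : (step s false).1 = k + 2 := by
        unfold step
        rw [if_neg hg]
        simp [hk]
      have h2 : (step s true).1 = k := by
        unfold step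
        rw [if_neg hg]
        simp [hk]
      have h3 : (a (step s false) : ℝ) ≤ w (k + 2) + 2 := by
        have := a_le (step s false)
        rw [h1] at this
        exact_mod_cast this
      have h4 : (a (step s true) : ℝ) ≤ w k + 2 := by
        have := a_le (step s true)
        rw [h2] at this
        exact_mod_cast this
      have h5 : (F (k + 2) : ℝ) + F k = 2 * F (k + 1) + (w (k + 2) + w k + 6) := by
        exact_mod_cast rate_F k
      rw [h1, h2, ha, hk]
      push_cast
      linarith

private theorem rate_sum_succ (k : ℕ) (s : St) (hB : s ≠ (0, 0)) :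
    ∑ i ∈ Finset.range (k + 1), u i s =
      1 + avg (fun t => ∑ i ∈ Finset.range k, u i t) s := by
  rw [Finset.sum_range_succ']
  have h0 : u 0 s = 1 := by
    show (if s = (0, 0) then (0 : ℝ) else 1) = 1
    rw [if_neg hB]
  rw [h0, add_comm]
  congr 1
  unfold avg
  rw [← Finset.sum_add_distrib, Finset.sum_div]
  exact Finset.sum_congr rfl fun i _ => rfl

private theorem rate_sum (hVW : ∀ s, V s ≤ W s) (hdr : ∀ s, s ≠ (0, 0) → avg W s ≤ W s)
    (hdr0 : ∀ s, s ≠ (0, 0) → s.1 = 0 → avg W s ≤ W s - 1) (M : ℕ) (hM : 1 ≤ M) (k : ℕ) :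
    ∀ s : St, s.1 ≤ M + 1 → ∑ i ∈ Finset.range k, u i s ≤ rateG W M s + k * W s / M := by
  have hM1 : (1 : ℝ) ≤ M := by exact_mod_cast hM
  have hM0 : (0 : ℝ) < M := by linarith
  induction k with
  | zero =>
    intro s hs
    simp only [Finset.range_zero, Finset.sum_empty, Nat.cast_zero, zero_mul, zero_div, add_zero]
    exact rate_G_nonneg hVW M hM s hs
  | succ k ih =>
    intro s hs
    have hG := rate_G_nonneg hVW M hM s hs
    have hV := rate_W_nonneg hVW s
    by_cases hB : s = (0, 0)
    · have h0 : ∑ i ∈ Finset.range (k + 1), u i s = 0 :=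
        Finset.sum_eq_zero fun i _ => by rw [hB]; exact u_zero i
      rw [h0]
      positivity
    · by_cases hVM : (M : ℝ) < W s
      · have h1 : ∑ i ∈ Finset.range (k + 1), u i s ≤ (k + 1 : ℕ) := by
          calc ∑ i ∈ Finset.range (k + 1), u i s ≤ ∑ _i ∈ Finset.range (k + 1), (1 : ℝ) :=
                Finset.sum_le_sum fun i _ => u_le_one i s
            _ = (k + 1 : ℕ) := by simp
        have h2 : (1 : ℝ) ≤ W s / M := by
          rw [le_div_iff₀ hM0]
          linarith
        have h3 : ((k + 1 : ℕ) : ℝ) * W s / M = ((k + 1 : ℕ) : ℝ) * (W s / M) := by ring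
        rw [h3]
        nlinarith [(Nat.cast_nonneg (k + 1) : (0 : ℝ) ≤ ((k + 1 : ℕ) : ℝ))]
      · have hd : s.1 ≤ M := by
          have h1 := rate_W_ge hVW s
          have h2 : (s.1 : ℝ) ≤ M := by linarith
          exact_mod_cast h2
        have hstep : ∀ b, (step s b).1 ≤ M + 1 := by
          intro b
          unfold step
          by_cases hg : s.2 % 2 = 0
          · rw [if_pos hg]
            cases b <;> simp <;> omega
          · rw [if_neg hg]
            cases b
            · simp
              omega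
            · by_cases h0 : s.1 = 0
              · simp [h0]
              · simp [h0]
                omega
        rw [rate_sum_succ k s hB]
        have h1 : avg (fun t => ∑ i ∈ Finset.range k, u i t) s ≤
            avg (rateG W M) s + k / M * avg W s := by
          unfold avg
          have h2 := ih (step s false) (hstep false)
          have h3 := ih (step s true) (hstep true)
          have h4 : ∀ t : St, (k : ℝ) * W t / M = k / M * W t := fun t => by ring
          rw [h4] at h2 h3
          linarith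
        have h5 := rate_drift hdr hdr0 M hM s hB
        have h6 := hdr s hB
        have h7 : (k : ℝ) / M * avg W s ≤ k / M * W s :=
          mul_le_mul_of_nonneg_left h6 (by positivity)
        have h8 : ((k + 1 : ℕ) : ℝ) * W s / M = k / M * W s + W s / M := by
          push_cast
          ring
        have h9 : 0 ≤ W s / M := by positivity
        rw [h8]
        linarith

theorem rate2 (W : St → ℝ) (h1 : ∀ s, V s ≤ W s) (h2 : ∀ s, s ≠ (0, 0) → avg W s ≤ W s)
    (h3 : ∀ s, s ≠ (0, 0) → s.1 = 0 → avg W s ≤ W s - 1) (K : ℕ) (hK : 1 ≤ K) (s : St) :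
    u K s ≤ 50 * (W s + 1) / √K := by
  set M := Nat.sqrt K with hMdef
  have hM : 1 ≤ M := by
    rw [hMdef, Nat.le_sqrt']
    simpa using hK
  have hMK : M ^ 2 ≤ K := Nat.sqrt_le' K
  have hKM : K < (M + 1) ^ 2 := Nat.lt_succ_sqrt' K
  have hM1 : (1 : ℝ) ≤ M := by exact_mod_cast hM
  have hM0 : (0 : ℝ) < M := by linarith
  have hK1 : (1 : ℝ) ≤ K := by exact_mod_cast hK
  have hK0 : (0 : ℝ) < K := by linarith
  have hMK' : (M : ℝ) ^ 2 ≤ K := by exact_mod_cast hMK
  have hKM' : (K : ℝ) < (M + 1) ^ 2 := by exact_mod_cast hKM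
  have hsq : √(K : ℝ) ≤ 2 * M := by
    rw [Real.sqrt_le_left (by linarith)]
    nlinarith
  have hsq0 : 0 < √(K : ℝ) := Real.sqrt_pos.2 hK0
  have hV := rate_W_nonneg h1 s
  have hfin : (21 * W s + 1) / M ≤ 50 * (W s + 1) / √K := by
    rw [div_le_div_iff₀ hM0 hsq0]
    have h4 : (21 * W s + 1) * √(K : ℝ) ≤ (21 * W s + 1) * (2 * M) :=
      mul_le_mul_of_nonneg_left hsq (by linarith)
    nlinarith
  refine le_trans ?_ hfin
  by_cases hd : s.1 ≤ M + 1
  · have h4 := rate_sum h1 h2 h3 M hM K s hd
    have h5 : (K : ℝ) * u K s ≤ ∑ i ∈ Finset.range K, u i s := by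
      calc (K : ℝ) * u K s = ∑ _i ∈ Finset.range K, u K s := by
            rw [Finset.sum_const, Finset.card_range, nsmul_eq_mul]
        _ ≤ ∑ i ∈ Finset.range K, u i s :=
            Finset.sum_le_sum fun i hi => u_anti (Finset.mem_range.1 hi).le s
    have h6 : (a s : ℝ) ≤ 2 * W s + 1 := by
      by_cases h0 : s.1 = 0
      · rw [a_eq_zero s (Or.inl h0)]
        push_cast
        linarith
      · have h7 := a_le s
        have h8 := w_le s.1 (Nat.one_le_iff_ne_zero.2 h0)
        have h9 : a s ≤ 2 * s.1 + 1 := by omega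
        have h10 : (a s : ℝ) ≤ 2 * s.1 + 1 := by exact_mod_cast h9
        have h11 := rate_W_ge h1 s
        linarith
    have h7 : (0 : ℝ) ≤ F s.1 := Nat.cast_nonneg _
    unfold rateG at h4
    have h8 : (K : ℝ) * u K s ≤ 18 * M * W s + (2 * W s + 1) + K * W s / M := by linarith
    rw [le_div_iff₀ hM0]
    have h9 : (K : ℝ) * W s / M * M = K * W s := by
      field_simp
    have h10 : (K : ℝ) * (u K s * M) ≤ K * (21 * W s + 1) := by
      calc (K : ℝ) * (u K s * M) = (K * u K s) * M := by ring
        _ ≤ (18 * M * W s + (2 * W s + 1) + K * W s / M) * M :=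
            mul_le_mul_of_nonneg_right h8 hM0.le
        _ = 18 * W s * M ^ 2 + (2 * W s + 1) * M + K * W s := by
            rw [add_mul, h9]; ring
        _ ≤ 18 * W s * K + (2 * W s + 1) * K + K * W s := by
            have h11 : (M : ℝ) ≤ K := by nlinarith
            have h12 : 18 * W s * (M : ℝ) ^ 2 ≤ 18 * W s * K :=
              mul_le_mul_of_nonneg_left hMK' (by linarith)
            have h13 : (2 * W s + 1) * (M : ℝ) ≤ (2 * W s + 1) * K :=
              mul_le_mul_of_nonneg_left h11 (by linarith)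
            linarith
        _ = K * (21 * W s + 1) := by ring
    exact le_of_mul_le_mul_left h10 hK0
  · rw [not_le] at hd
    have h4 := u_le_one K s
    have h5 := rate_W_ge h1 s
    have h6 : (M : ℝ) + 1 < s.1 := by exact_mod_cast hd
    rw [le_div_iff₀ hM0]
    nlinarith [u_nonneg K s]

end Pool.Agent.Lib.MP_e43fce_nt_coal
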