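import Pool.Agent.Lib.MP_e43fce_nt_coal.Basic
import Pool.Agent.Lib.MP_e43fce_nt_coal.Drift
import Pool.Agent.Lib.MP_e43fce_nt_coal.Access
import Pool.Agent.Lib.MP_e43fce_nt_coal.Rate2

/-!
Coalescence of Collatz orbits: the chain has not reached `(0, 0)` after `K` steps with probability
at most `D (V + 1) / √K`.
-/

set_option autoImplicit false

namespace Pool.Agent.Lib.MP_e43fce_nt_coal

private theorem qd_finite : {s : St | inB s}.Finite := by
  apply Set.Finite.subset ((Set.finite_singleton (0 : ℕ)).prod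
    (Set.finite_Icc (-(10 : ℤ) ^ 7) (10 ^ 7)))
  rintro ⟨d, g⟩ ⟨h1, h2⟩
  refine ⟨?_, ?_⟩
  · simpa using h1
  · exact Set.mem_Icc.2 (abs_le.1 h2)

private theorem qd_bdd (f : St → ℝ) : ∃ C : ℝ, 0 ≤ C ∧ ∀ s, inB s → f s ≤ C := by
  obtain ⟨C, hC⟩ := (qd_finite.image f).bddAbove
  refine ⟨max C 0, le_max_right _ _, fun s hs => le_trans ?_ (le_max_left _ _)⟩
  exact hC ⟨s, hs, rfl⟩

/-- the sum of `u 0, …, u (m - 1)` -/
private noncomputable def qd_U (m : ℕ) (s : St) : ℝ := ∑ j ∈ Finset.range m, u j s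

private theorem qd_U_nonneg (m : ℕ) (s : St) : 0 ≤ qd_U m s :=
  Finset.sum_nonneg fun j _ => u_nonneg j s

private theorem qd_U_le (m : ℕ) (s : St) : qd_U m s ≤ m := by
  unfold qd_U
  calc ∑ j ∈ Finset.range m, u j s ≤ ∑ _j ∈ Finset.range m, (1 : ℝ) :=
        Finset.sum_le_sum fun j _ => u_le_one j s
    _ = m := by simp

private theorem qd_U_avg (m : ℕ) (s : St) (hs : s ≠ (0, 0)) :
    avg (qd_U m) s = qd_U m s - 1 + u m s := by
  have h0 : u 0 s = 1 := by simp only [u, if_neg hs]
  induction m with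
  | zero =>
    simp only [qd_U, avg, Finset.range_zero, Finset.sum_empty]
    rw [h0]
    norm_num
  | succ m ih =>
    have h1 : avg (qd_U (m + 1)) s = avg (qd_U m) s + u (m + 1) s := by
      simp only [qd_U, avg, Finset.sum_range_succ]
      change _ = _ + avg (u m) s
      simp only [avg]
      ring
    have h2 : qd_U (m + 1) s = qd_U m s + u m s := by
      simp only [qd_U, Finset.sum_range_succ]
    rw [h1, h2, ih]
    ring

theorem qdecay : ∃ D : ℝ, 0 < D ∧ ∀ (K : ℕ), 1 ≤ K → ∀ s : St,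
    u K s ≤ D * (V s + 1) / √K := by
  obtain ⟨m, β, hβ1, hβ⟩ := access
  obtain ⟨C, hC0, hC⟩ := qd_bdd (avg V)
  have hV : ∀ s, 0 ≤ V s := fun s => le_trans (Nat.cast_nonneg _) (V_ge s)
  set Lam := (C + 1) / (1 - β) with hLam
  have h1β : 0 < 1 - β := by linarith
  have hL0 : 0 ≤ Lam := div_nonneg (by linarith) h1β.le
  have hL1 : Lam * (1 - β) = C + 1 := div_mul_cancel₀ _ h1β.ne'
  have havg : ∀ s, avg (fun s => V s + Lam * qd_U m s) s = avg V s + Lam * avg (qd_U m) s := by
    intro s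
    simp only [avg]
    ring
  have hU : ∀ s, s ≠ (0, 0) → avg (qd_U m) s ≤ qd_U m s := by
    intro s hs
    rw [qd_U_avg m s hs]
    linarith [u_le_one m s]
  have hdropB : ∀ s, s ≠ (0, 0) → inB s →
      avg (fun s => V s + Lam * qd_U m s) s ≤ V s + Lam * qd_U m s - 1 := by
    intro s hs hB
    rw [havg, qd_U_avg m s hs]
    have h2 : Lam * (u m s) ≤ Lam * β := mul_le_mul_of_nonneg_left (hβ s hB) hL0
    have h3 := hC s hB
    have h4 := hV s
    nlinarith
  refine ⟨50 * (1 + Lam * m), by positivity, ?_⟩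
  intro K hK s
  have h := rate2 (fun s => V s + Lam * qd_U m s)
    (fun s => by
      have := mul_nonneg hL0 (qd_U_nonneg m s)
      linarith)
    (fun s hs => by
      by_cases hB : inB s
      · have := hdropB s hs hB
        linarith
      · have h5 := V_drift s hB
        have h6 := mul_le_mul_of_nonneg_left (hU s hs) hL0
        rw [havg]
        linarith)
    (fun s hs h0 => by
      by_cases hB : inB s
      · exact hdropB s hs hB
      · have h5 := V_drift_zero s h0 hB
        have h6 := mul_le_mul_of_nonneg_left (hU s hs) hL0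
        rw [havg]
        linarith) K hK s
  refine h.trans ?_
  have hsq : 0 ≤ √(K : ℝ) := Real.sqrt_nonneg _
  apply div_le_div_of_nonneg_right _ hsq
  have h7 := qd_U_le m s
  have h8 := mul_le_mul_of_nonneg_left h7 hL0
  have h9 := mul_nonneg (mul_nonneg hL0 (Nat.cast_nonneg m)) (hV s)
  nlinarith [hV s]

end Pool.Agent.Lib.MP_e43fce_nt_coal
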