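import Pool.Agent.Lib.MP_e43fce_nt_coal.Basic
import Pool.Agent.Lib.MP_e43fce_nt_coal.Drift
import Pool.Agent.Lib.MP_e43fce_nt_coal.Qdecay

/-!
Coalescence of Collatz orbits: the probability of no coalescence for the offset `h`.
-/

set_option autoImplicit false

namespace Pool.Agent.Lib.MP_e43fce_nt_coal

private theorem pair_rho (k : ℕ) (s : St) :
    (avg^[k] (fun s => rho s)) s ≤ (966 / 1000 : ℝ) ^ k * rho s + 15 := by
  induction k generalizing s with
  | zero =>
    simp only [Function.iterate_zero, id_eq, pow_zero, one_mul]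
    linarith
  | succ k ih =>
    rw [Function.iterate_succ_apply]
    have h1 : (avg^[k] (avg (fun s => rho s))) s ≤
        (avg^[k] (fun s => 966 / 1000 * rho s + 1 / 2 * (fun _ => (1 : ℝ)) s)) s := by
      refine avg_iter_mono (fun t => ?_) k s
      have h2 := rho_drift t
      dsimp only
      linarith
    have h3 := avg_iter_lin (fun s => rho s) (fun _ => (1 : ℝ)) (966 / 1000) (1 / 2) k s
    rw [avg_iter_const] at h3
    have h4 := ih s
    rw [pow_succ]
    rw [h3] at h1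
    nlinarith

private theorem pair_sq_one (s : St) :
    avg (fun s => (s.1 : ℝ) ^ 2) s ≤ (s.1 : ℝ) ^ 2 + 1 := by
  unfold avg step
  obtain ⟨d, g⟩ := s
  by_cases hg : g % 2 = 0
  · simp only [hg, if_true]
    norm_num
  · simp only [hg, if_false, if_true, Bool.false_eq_true]
    by_cases hd : d = 0
    · subst hd
      norm_num
    · simp only [hd, if_false]
      have h1 : ((d - 1 : ℕ) : ℝ) = (d : ℝ) - 1 := by
        rw [Nat.cast_sub (Nat.one_le_iff_ne_zero.mpr hd), Nat.cast_one]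
      push_cast
      rw [h1]
      nlinarith

private theorem pair_sq (k : ℕ) (s : St) :
    (avg^[k] (fun s => (s.1 : ℝ) ^ 2)) s ≤ (s.1 : ℝ) ^ 2 + k := by
  induction k generalizing s with
  | zero =>
    simp only [Function.iterate_zero, id_eq, Nat.cast_zero, add_zero, le_refl]
  | succ k ih =>
    rw [Function.iterate_succ_apply]
    have h1 : (avg^[k] (avg (fun s => (s.1 : ℝ) ^ 2))) s ≤
        (avg^[k] (fun s => 1 * (fun s : St => (s.1 : ℝ) ^ 2) s + 1 * (fun _ => (1 : ℝ)) s)) s := by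
      refine avg_iter_mono (fun t => ?_) k s
      have h2 := pair_sq_one t
      dsimp only
      linarith
    have h3 := avg_iter_lin (fun s : St => (s.1 : ℝ) ^ 2) (fun _ => (1 : ℝ)) 1 1 k s
    rw [avg_iter_const] at h3
    have h4 := ih s
    rw [h3] at h1
    push_cast
    linarith

private theorem pair_d (k : ℕ) (hk : 1 ≤ k) (g : ℤ) :
    (avg^[k] (fun s => (s.1 : ℝ))) (0, g) ≤ √k := by
  have hk0 : (0 : ℝ) < √k := Real.sqrt_pos.mpr (by exact_mod_cast hk)
  have h1 : (avg^[k] (fun s => (s.1 : ℝ))) (0, g) ≤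
      (avg^[k] (fun s => (1 / (2 * √k)) * (fun s : St => (s.1 : ℝ) ^ 2) s +
        (√k / 2) * (fun _ => (1 : ℝ)) s)) (0, g) := by
    refine avg_iter_mono (fun t => ?_) k _
    dsimp only
    have h2 : 0 ≤ ((t.1 : ℝ) - √k) ^ 2 := sq_nonneg _
    have h3 : 1 / (2 * √k) * (t.1 : ℝ) ^ 2 + √k / 2 * 1 - t.1 =
        ((t.1 : ℝ) - √k) ^ 2 / (2 * √k) := by
      field_simp
      ring
    have h4 : 0 ≤ ((t.1 : ℝ) - √k) ^ 2 / (2 * √k) := by positivity
    linarith
  have h3 := avg_iter_lin (fun s : St => (s.1 : ℝ) ^ 2) (fun _ => (1 : ℝ)) (1 / (2 * √k))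
    (√k / 2) k (0, g)
  rw [avg_iter_const] at h3
  rw [h3] at h1
  have h4 := pair_sq k (0, g)
  have h5 : 1 / (2 * √k) * (avg^[k] (fun s : St => (s.1 : ℝ) ^ 2)) (0, g) ≤
      1 / (2 * √k) * k := by
    refine mul_le_mul_of_nonneg_left ?_ (by positivity)
    simpa using h4
  have h6 : 1 / (2 * √k) * (k : ℝ) = √k / 2 := by
    have h7 : √(k : ℝ) * √k = k := Real.mul_self_sqrt (Nat.cast_nonneg _)
    field_simp
    nlinarith
  linarith

private theorem pair_V (k : ℕ) (hk : 1 ≤ k) (g : ℤ) :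
    (avg^[k] V) (0, g) ≤ √k + 50035 + (966 / 1000 : ℝ) ^ k * rho (0, g) := by
  have h1 : (avg^[k] V) (0, g) ≤
      (avg^[k] (fun s => 1 * (fun s : St => 1 * (fun s : St => (s.1 : ℝ)) s +
        1 * (fun s => rho s) s) s + 50020 * (fun _ => (1 : ℝ)) s)) (0, g) := by
    refine avg_iter_mono (fun t => ?_) k _
    have h2 := V_le t
    dsimp only
    linarith
  have h3 := avg_iter_lin (fun s : St => 1 * (fun s : St => (s.1 : ℝ)) s +
        1 * (fun s => rho s) s) (fun _ => (1 : ℝ)) 1 50020 k (0, g)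
  rw [avg_iter_const] at h3
  have h4 := avg_iter_lin (fun s : St => (s.1 : ℝ)) (fun s => rho s) 1 1 k (0, g)
  rw [h4] at h3
  rw [h3] at h1
  have h5 := pair_d k hk g
  have h6 := pair_rho k (0, g)
  linarith

theorem pair : ∃ D : ℝ, 0 < D ∧ ∀ K h : ℕ, 1 ≤ K → 1 ≤ h →
    u K (0, (h : ℤ)) ≤ D * √((1 + Real.log h) / K) := by
  obtain ⟨D, hD, hq⟩ := qdecay
  refine ⟨10 + D * 100100, by positivity, fun K h hK hh => ?_⟩
  have hh' : (1 : ℝ) ≤ h := by exact_mod_cast hh
  have hlog : 0 ≤ Real.log h := Real.log_nonneg hh'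
  obtain ⟨l, hl⟩ : ∃ l : ℝ, l = 1 + Real.log h := ⟨_, rfl⟩
  have hl1 : 1 ≤ l := by linarith
  obtain ⟨k, hk⟩ : ∃ k : ℕ, k = ⌈20 * l⌉₊ := ⟨_, rfl⟩
  have hk1 : 20 * l ≤ k := by rw [hk]; exact Nat.le_ceil _
  have hk2 : (k : ℝ) ≤ 21 * l := by
    have h1 := Nat.ceil_lt_add_one (show 0 ≤ 20 * l by linarith)
    rw [← hk] at h1
    linarith
  have hk3 : 1 ≤ k := by
    have : (1 : ℝ) ≤ k := by linarith
    exact_mod_cast this
  have hKr : (1 : ℝ) ≤ K := by exact_mod_cast hK
  rw [← hl]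
  have hsq0 : 0 ≤ √(l / K) := Real.sqrt_nonneg _
  by_cases hcase : K ≤ 2 * k
  · -- trivial case
    have h1 : (K : ℝ) ≤ 42 * l := by
      have : (K : ℝ) ≤ 2 * k := by exact_mod_cast hcase
      linarith
    have h2 : (1 / 10 : ℝ) ≤ √(l / K) := by
      refine Real.le_sqrt_of_sq_le ?_
      rw [le_div_iff₀ (by linarith)]
      nlinarith
    have h3 := u_le_one K (0, (h : ℤ))
    have h4 : 0 ≤ D * 100100 := by positivity
    nlinarith [mul_nonneg h4 hsq0]
  · push Not at hcase
    obtain ⟨K', hK'⟩ : ∃ K' : ℕ, K = k + K' := ⟨K - k, by omega⟩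
    have hK'1 : 1 ≤ K' := by omega
    have hK'2 : (K : ℝ) / 2 ≤ K' := by
      have h1 : K ≤ 2 * K' := by omega
      have h2 : (K : ℝ) ≤ 2 * K' := by exact_mod_cast h1
      linarith
    have hs0 : (0 : ℝ) < √K' := Real.sqrt_pos.mpr (by exact_mod_cast hK'1)
    -- the decay of the offset
    have hrho : (966 / 1000 : ℝ) ^ k * rho (0, (h : ℤ)) ≤ 1 := by
      have h1 : rho (0, (h : ℤ)) = √h := by
        unfold rho
        simp
      rw [h1]
      have h2 : (966 / 1000 : ℝ) ^ k ≤ Real.exp (-(1 / 2 * Real.log h)) := by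
        have h3 : Real.log (966 / 1000) ≤ -(34 / 1000) := by
          have := Real.log_le_sub_one_of_pos (show (0 : ℝ) < 966 / 1000 by norm_num)
          linarith
        have h4 : (966 / 1000 : ℝ) ^ k = Real.exp (k * Real.log (966 / 1000)) := by
          rw [Real.exp_nat_mul, Real.exp_log (by norm_num)]
        rw [h4]
        apply Real.exp_le_exp.mpr
        have h5 : (k : ℝ) * Real.log (966 / 1000) ≤ k * (-(34 / 1000)) :=
          mul_le_mul_of_nonneg_left h3 (Nat.cast_nonneg _)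
        nlinarith
      have h6 : Real.exp (-(1 / 2 * Real.log h)) * √h = 1 := by
        have h7 : √(h : ℝ) = Real.exp (1 / 2 * Real.log h) := by
          rw [Real.sqrt_eq_rpow, Real.rpow_def_of_pos (by linarith), mul_comm]
        rw [h7, ← Real.exp_add]
        simp
      calc (966 / 1000 : ℝ) ^ k * √h ≤ Real.exp (-(1 / 2 * Real.log h)) * √h :=
            mul_le_mul_of_nonneg_right h2 (Real.sqrt_nonneg _)
        _ = 1 := h6
    have hV := pair_V k hk3 h
    -- the main inequality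
    have h1 : u K (0, (h : ℤ)) ≤ D / √K' * (avg^[k] V) (0, (h : ℤ)) + D / √K' := by
      rw [hK', u_add]
      have h2 : (avg^[k] (u K')) (0, (h : ℤ)) ≤
          (avg^[k] (fun s => D / √K' * V s + (D / √K') *
            (fun _ => (1 : ℝ)) s)) (0, (h : ℤ)) := by
        refine avg_iter_mono (fun t => ?_) k _
        have h3 := hq K' hK'1 t
        dsimp only
        refine h3.trans (le_of_eq ?_)
        field_simp
      have h3 := avg_iter_lin V (fun _ => (1 : ℝ)) (D / √K') (D / √K') k (0, (h : ℤ))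
      rw [avg_iter_const] at h3
      rw [h3] at h2
      linarith
    have hDs : 0 ≤ D / √K' := by positivity
    have h2 : u K (0, (h : ℤ)) ≤ D / √K' * (√k + 50037) := by
      have h3 : D / √K' * (avg^[k] V) (0, (h : ℤ)) ≤ D / √K' * (√k + 50036) :=
        mul_le_mul_of_nonneg_left (by linarith) hDs
      nlinarith
    -- `√k + 50037 ≤ 50042 √l`
    have hsl : 1 ≤ √l := by
      rw [Real.one_le_sqrt]
      exact hl1
    have hsk : √k ≤ 5 * √l := by
      rw [Real.sqrt_le_left (by positivity)]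
      rw [mul_pow, Real.sq_sqrt (by linarith)]
      linarith
    have hsK : √(K / 2 : ℝ) ≤ √K' := Real.sqrt_le_sqrt hK'2
    have hsK2 : √(K : ℝ) ≤ 2 * √K' := by
      have h3 : √(K : ℝ) ≤ 2 * √(K / 2 : ℝ) := by
        rw [Real.sqrt_le_left (by positivity)]
        rw [mul_pow, Real.sq_sqrt (by positivity)]
        linarith
      linarith
    have hsKpos : 0 < √(K : ℝ) := Real.sqrt_pos.mpr (by linarith)
    have h3 : D / √K' * (√k + 50037) ≤ D * (100100 * √(l / K)) := by
      rw [Real.sqrt_div' _ (by linarith : (0 : ℝ) ≤ K), div_mul_eq_mul_div, mul_div_assoc]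
      refine mul_le_mul_of_nonneg_left ?_ hD.le
      rw [div_le_iff₀ hs0, ← mul_div_assoc, div_mul_eq_mul_div, le_div_iff₀ hsKpos]
      have h4 : √k + 50037 ≤ 50042 * √l := by linarith
      calc (√k + 50037) * √K ≤ (50042 * √l) * (2 * √K') :=
            mul_le_mul h4 hsK2 (Real.sqrt_nonneg _) (by positivity)
        _ ≤ 100100 * √l * √K' := by nlinarith [mul_nonneg (Real.sqrt_nonneg l) hs0.le]
    nlinarith

end Pool.Agent.Lib.MP_e43fce_nt_coal
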