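import Pool.Agent.Lib.MP_e43fce_nt_coal.Count
import Pool.Agent.Lib.MP_e43fce_nt_coal.Coal
import Pool.Agent.Lib.MP_e43fce_nt_coal.Pair

/-!
Coalescence of Collatz orbits: for all but few `n` the orbits of `n` and `n + h` meet soon.
-/

set_option autoImplicit false

namespace Pool.Agent.Lib.MP_e43fce_nt_coal

theorem fin_pair : ∃ D : ℝ, 0 < D ∧ ∀ X m h : ℕ, 1 ≤ m → 1 ≤ h → 2 ^ m ≤ X →
    ((({n : ℕ | ∀ k ≤ 2 * m, C^[k] n ≠ C^[k] (n + h)} ∩ Set.Icc 1 X).ncard : ℝ)) ≤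
      D * √((1 + Real.log h) / m) * X := by
  classical
  obtain ⟨D, hD, hp⟩ := pair
  refine ⟨2 * D, by positivity, ?_⟩
  intro X m h hm hh hX
  have h1 : {n : ℕ | ∀ k ≤ 2 * m, C^[k] n ≠ C^[k] (n + h)} ∩ Set.Icc 1 X ⊆
      (((Finset.Icc 1 X).filter (fun n : ℕ => bad m (0, (h : ℤ)) (n : ℤ)) : Finset ℕ) : Set ℕ) := by
    rintro n ⟨hn, hn1, hn2⟩
    rw [Finset.coe_filter, Set.mem_ofPred_eq, Finset.mem_Icc]
    refine ⟨⟨hn1, hn2⟩, ?_⟩
    by_contra hb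
    obtain ⟨j, hj, he⟩ := coal_nat m h n hb
    exact hn j hj he
  have h2 := Set.ncard_le_ncard h1 (Finset.finite_toSet _)
  rw [Set.ncard_coe_finset] at h2
  have h3 := count m (0, (h : ℤ)) X
  have h4 := hp m h hm hh
  have h5 : ((2 : ℝ) ^ m) ≤ X := by exact_mod_cast hX
  have h6 := u_nonneg m (0, (h : ℤ))
  have h7 : (((Finset.Icc 1 X).filter (fun n : ℕ => bad m (0, (h : ℤ)) (n : ℤ))).card : ℝ) ≤
      ((X : ℝ) + 2 ^ m) * u m (0, (h : ℤ)) := by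
    convert h3
  calc ((({n : ℕ | ∀ k ≤ 2 * m, C^[k] n ≠ C^[k] (n + h)} ∩ Set.Icc 1 X).ncard : ℝ))
      ≤ (((Finset.Icc 1 X).filter (fun n : ℕ => bad m (0, (h : ℤ)) (n : ℤ))).card : ℝ) := by
        exact_mod_cast h2
    _ ≤ ((X : ℝ) + 2 ^ m) * u m (0, (h : ℤ)) := h7
    _ ≤ (2 * X) * u m (0, (h : ℤ)) := by
        apply mul_le_mul_of_nonneg_right _ h6
        linarith
    _ ≤ (2 * X) * (D * √((1 + Real.log h) / m)) := by
        apply mul_le_mul_of_nonneg_left h4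
        positivity
    _ = 2 * D * √((1 + Real.log h) / m) * X := by ring

end Pool.Agent.Lib.MP_e43fce_nt_coal
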