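import Pool.Agent.Lib.MP_e43fce_nt_coal.Count
import Pool.Agent.Lib.MP_e43fce_nt_coal.Coal
import Pool.Agent.Lib.MP_e43fce_nt_coal.PairG

/-!
Coalescence of Collatz orbits: for all but few `n` the orbits of `n` and `3 ^ d n + g` meet soon.
-/

set_option autoImplicit false

namespace Pool.Agent.Lib.MP_e43fce_nt_coal

private theorem fing_cast (n : ℕ) : ((C n : ℕ) : ℤ) = Cz n := by
  unfold C Cz
  by_cases h : n % 2 = 0
  · have h' : (n : ℤ) % 2 = 0 := by omega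
    rw [if_pos h, if_pos h']
    omega
  · have h' : ¬ (n : ℤ) % 2 = 0 := by omega
    rw [if_neg h, if_neg h']
    push_cast
    ring

private theorem fing_iter (j n : ℕ) : ((C^[j] n : ℕ) : ℤ) = Cz^[j] n := by
  induction j with
  | zero => rfl
  | succ j ih => rw [Function.iterate_succ_apply', Function.iterate_succ_apply', fing_cast, ih]

/-- for all but few `n` the orbits of `n` and `3 ^ d n + g` meet soon -/
theorem fin_gen : ∃ D : ℝ, 0 < D ∧ ∀ X m d g : ℕ, 1 ≤ m → 2 ^ m ≤ X →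
    ((({n : ℕ | ∀ k, k + d ≤ 2 * m → C^[k + d] n ≠ C^[k] (3 ^ d * n + g)} ∩
      Set.Icc 1 X).ncard : ℝ)) ≤
        D * √((1 + (d : ℝ) ^ 2 + Real.log (1 + g)) / m) * X := by
  classical
  obtain ⟨D, hD, hp⟩ := pair_gen
  refine ⟨2 * D, by positivity, ?_⟩
  intro X m d g hm hX
  have h1 : {n : ℕ | ∀ k, k + d ≤ 2 * m → C^[k + d] n ≠ C^[k] (3 ^ d * n + g)} ∩ Set.Icc 1 X ⊆
      (((Finset.Icc 1 X).filter (fun n : ℕ => bad m (d, (g : ℤ)) (n : ℤ)) : Finset ℕ) : Set ℕ) := by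
    rintro n ⟨hn, hn1, hn2⟩
    rw [Finset.coe_filter, Set.mem_ofPred_eq, Finset.mem_Icc]
    refine ⟨⟨hn1, hn2⟩, ?_⟩
    by_contra hb
    obtain ⟨j, hj, he⟩ := coal m (d, (g : ℤ)) n hb
    refine hn j hj ?_
    have e1 := fing_iter (j + d) n
    have e2 := fing_iter j (3 ^ d * n + g)
    push_cast at e2
    have e3 : ((C^[j + d] n : ℕ) : ℤ) = ((C^[j] (3 ^ d * n + g) : ℕ) : ℤ) := by
      rw [e1, e2]
      exact he
    exact_mod_cast e3
  have h2 := Set.ncard_le_ncard h1 (Finset.finite_toSet _)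
  rw [Set.ncard_coe_finset] at h2
  have h3 := count m (d, (g : ℤ)) X
  have h4 := hp m hm (d, (g : ℤ))
  have h5 : ((2 : ℝ) ^ m) ≤ X := by exact_mod_cast hX
  have h6 := u_nonneg m (d, (g : ℤ))
  have hg : |(((g : ℤ)) : ℝ)| = (g : ℝ) := by
    rw [Int.cast_natCast]
    exact abs_of_nonneg (Nat.cast_nonneg g)
  have h4' : u m (d, (g : ℤ)) ≤ D * √((1 + (d : ℝ) ^ 2 + Real.log (1 + g)) / m) := by
    have h := h4
    dsimp only at h
    rw [hg] at h
    exact h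
  calc ((({n : ℕ | ∀ k, k + d ≤ 2 * m → C^[k + d] n ≠ C^[k] (3 ^ d * n + g)} ∩
      Set.Icc 1 X).ncard : ℝ))
      ≤ (((Finset.Icc 1 X).filter (fun n : ℕ => bad m (d, (g : ℤ)) (n : ℤ))).card : ℝ) := by
        exact_mod_cast h2
    _ ≤ ((X : ℝ) + 2 ^ m) * u m (d, (g : ℤ)) := h3
    _ ≤ (2 * X) * u m (d, (g : ℤ)) := by
        apply mul_le_mul_of_nonneg_right _ h6
        linarith
    _ ≤ (2 * X) * (D * √((1 + (d : ℝ) ^ 2 + Real.log (1 + g)) / m)) := by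
        apply mul_le_mul_of_nonneg_left h4'
        positivity
    _ = 2 * D * √((1 + (d : ℝ) ^ 2 + Real.log (1 + g)) / m) * X := by ring

end Pool.Agent.Lib.MP_e43fce_nt_coal
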