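import Pool.Agent.Lib.MP_e43fce_nt_coal.TauBlock

/-!
Coalescence of Collatz orbits: almost invariant sets are unions of long blocks up to a sparse set.
-/

set_option autoImplicit false

namespace Pool.Agent.Lib.MP_e43fce_nt_coal

/-- a value has at most `2 ^ j` preimages under the `j`-th iterate -/
theorem pre_finset (v : ℕ) (j : ℕ) : ∃ s : Finset ℕ, s.card ≤ 2 ^ j ∧ ∀ x, C^[j] x = v → x ∈ s := by
  induction j with
  | zero => exact ⟨{v}, by simp, by simp⟩
  | succ j ih =>
    obtain ⟨s, hs, hs'⟩ := ih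
    refine ⟨s.image (fun y => 2 * y) ∪ s.image (fun y => (y - 1) / 3), ?_, ?_⟩
    · refine (Finset.card_union_le _ _).trans ?_
      have h1 := Finset.card_image_le (s := s) (f := fun y => 2 * y)
      have h2 := Finset.card_image_le (s := s) (f := fun y => (y - 1) / 3)
      rw [pow_succ]
      omega
    · intro x hx
      rw [Function.iterate_succ_apply] at hx
      have h := hs' _ hx
      rw [Finset.mem_union, Finset.mem_image, Finset.mem_image]
      by_cases hp : x % 2 = 0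
      · left
        refine ⟨C x, h, ?_⟩
        unfold C
        rw [if_pos hp]
        omega
      · right
        refine ⟨C x, h, ?_⟩
        unfold C
        rw [if_neg hp]
        omega

theorem C_pos {x : ℕ} (h : 0 < x) : 0 < C x := by
  unfold C
  split_ifs <;> omega

theorem C_iter_pos {x : ℕ} (h : 0 < x) (j : ℕ) : 0 < C^[j] x := by
  induction j with
  | zero => simpa using h
  | succ j ih => rw [Function.iterate_succ_apply']; exact C_pos ih

/-- membership is kept along an orbit which avoids the violating integers -/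
theorem inv_iter (E : Set ℕ) {x M : ℕ} (hx : 0 < x)
    (h : ∀ j < M, ¬ (0 < C^[j] x ∧ ¬ (C^[j] x ∈ E ↔ C (C^[j] x) ∈ E))) :
    x ∈ E ↔ C^[M] x ∈ E := by
  induction M with
  | zero => simp
  | succ M ih =>
    have h1 := ih (fun j hj => h j (by omega))
    have h2 := h M (by omega)
    have h3 := C_iter_pos hx M
    rw [Function.iterate_succ_apply', h1]
    by_contra hc
    exact h2 ⟨h3, hc⟩

/-- the choice of the number of steps -/
theorem exists_m2 : ∃ X0 : ℕ, 2 ≤ X0 ∧ ∀ X : ℕ, X0 ≤ X → ∃ m : ℕ, 1 ≤ m ∧ 2 ^ m ≤ X ∧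
    Real.log X / 16 ≤ m ∧
    4 * Real.exp (√(Real.log X)) * (2 * m) * (2 : ℝ) ^ (2 * m) ≤ X / √(Real.log X) ∧
    1 ≤ Real.log X := by
  have h1 : Filter.Tendsto (fun X : ℕ => (X : ℝ)) Filter.atTop Filter.atTop :=
    tendsto_natCast_atTop_atTop
  have e1 : ∀ᶠ x : ℝ in Filter.atTop, Real.log x ≤ x ^ ((1 : ℝ) / 4) := by
    have := (isLittleO_log_rpow_atTop (r := (1 : ℝ) / 4) (by norm_num)).bound
      (show (0 : ℝ) < 1 by norm_num)
    filter_upwards [this, Filter.eventually_ge_atTop (1 : ℝ)] with x hx hx1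
    have h2 : 0 ≤ Real.log x := Real.log_nonneg hx1
    have h3 : 0 ≤ x ^ ((1 : ℝ) / 4) := by positivity
    rw [Real.norm_of_nonneg h2, Real.norm_of_nonneg h3, one_mul] at hx
    exact hx
  have e3 : ∀ᶠ x : ℝ in Filter.atTop, (32 : ℝ) ≤ Real.log x :=
    Real.tendsto_log_atTop.eventually_ge_atTop _
  have e4 := h1.eventually (e1.and (e3.and (Filter.eventually_ge_atTop (2 : ℝ))))
  obtain ⟨X0, hX0⟩ := Filter.eventually_atTop.mp e4
  refine ⟨max X0 2, le_max_right _ _, fun X hX => ?_⟩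
  obtain ⟨g1, g3, g4⟩ := hX0 X (le_trans (le_max_left _ _) hX)
  have hXpos : (0 : ℝ) < X := by linarith
  set L := Real.log X with hL
  have hexpL : Real.exp L = X := Real.exp_log hXpos
  have hm : ((⌊L / 8⌋₊ : ℕ) : ℝ) ≤ L / 8 := Nat.floor_le (by linarith)
  have h2e : (2 : ℝ) ≤ Real.exp 1 := by
    have := Real.add_one_le_exp (1 : ℝ)
    linarith
  have hq : Real.exp (L / 4) = (X : ℝ) ^ ((1 : ℝ) / 4) := by
    rw [Real.rpow_def_of_pos hXpos]
    congr 1
    ring
  refine ⟨⌊L / 8⌋₊, ?_, ?_, ?_, ?_, by linarith⟩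
  · exact Nat.one_le_floor_iff _ |>.mpr (by linarith)
  · have : (2 : ℝ) ^ ⌊L / 8⌋₊ ≤ X := by
      calc (2 : ℝ) ^ ⌊L / 8⌋₊ ≤ (Real.exp 1) ^ ⌊L / 8⌋₊ :=
            pow_le_pow_left₀ (by norm_num) h2e _
        _ = Real.exp (⌊L / 8⌋₊ : ℕ) := by rw [← Real.exp_nat_mul, mul_one]
        _ ≤ Real.exp L := Real.exp_le_exp.mpr (by linarith)
        _ = X := hexpL
    exact_mod_cast this
  · have := Nat.lt_floor_add_one (L / 8)
    linarith
  · have hA : (2 : ℝ) ^ (2 * ⌊L / 8⌋₊) ≤ (X : ℝ) ^ ((1 : ℝ) / 4) := by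
      calc (2 : ℝ) ^ (2 * ⌊L / 8⌋₊) ≤ (Real.exp 1) ^ (2 * ⌊L / 8⌋₊) :=
            pow_le_pow_left₀ (by norm_num) h2e _
        _ = Real.exp ((2 * ⌊L / 8⌋₊ : ℕ) : ℝ) := by rw [← Real.exp_nat_mul, mul_one]
        _ ≤ Real.exp (L / 4) := Real.exp_le_exp.mpr (by push_cast; linarith)
        _ = _ := hq
    have hs1 : √L ≤ L / 4 := by
      rw [Real.sqrt_le_left (by linarith)]
      nlinarith
    have hE : Real.exp (√L) ≤ (X : ℝ) ^ ((1 : ℝ) / 4) := by
      rw [← hq]
      exact Real.exp_le_exp.mpr hs1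
    set A := (X : ℝ) ^ ((1 : ℝ) / 4) with hAdef
    have hA4 : A * A * A * A = X := by
      rw [hAdef, ← Real.rpow_add hXpos, ← Real.rpow_add hXpos, ← Real.rpow_add hXpos]
      norm_num
    have hsLpos : 0 < √L := Real.sqrt_pos.mpr (by linarith)
    rw [le_div_iff₀ hsLpos]
    have hApos : 0 < A := by linarith
    have hmul : L * √L ≤ A * A := mul_le_mul g1 (by linarith) hsLpos.le hApos.le
    have hmm : 2 * ((⌊L / 8⌋₊ : ℕ) : ℝ) ≤ L / 4 := by linarith
    have hEE : 0 ≤ Real.exp (√L) := (Real.exp_pos _).le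
    have h20 : (0 : ℝ) ≤ 2 * ((⌊L / 8⌋₊ : ℕ) : ℝ) := by positivity
    calc 4 * Real.exp (√L) * (2 * ((⌊L / 8⌋₊ : ℕ) : ℝ)) * (2 : ℝ) ^ (2 * ⌊L / 8⌋₊) * √L
        ≤ 4 * A * (L / 4) * A * √L := by
          apply mul_le_mul_of_nonneg_right _ hsLpos.le
          apply mul_le_mul _ hA (by positivity) (by positivity)
          apply mul_le_mul _ hmm h20 (by positivity)
          linarith
      _ = A * A * (L * √L) := by ring
      _ ≤ A * A * (A * A) := mul_le_mul_of_nonneg_left hmul (by positivity)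
      _ = X := by rw [← hA4]; ring

theorem inv_block : ∀ B : ℕ, ∃ K : ℝ, 0 < K ∧ ∀ E : Set ℕ,
    {n : ℕ | 0 < n ∧ ¬ (n ∈ E ↔ C n ∈ E)}.encard ≤ B → ∀ X : ℕ, 2 ≤ X → ∀ H : ℕ, 1 ≤ H →
    ((({n : ℕ | ∃ i ≤ H, ¬ (n ∈ E ↔ n + i ∈ E)} ∩ Set.Icc 1 X).ncard : ℝ)) ≤
      K * (1 + Real.log H) / √(Real.log X) * X := by
  obtain ⟨D0, hD0, hlong⟩ := fin_long
  obtain ⟨X0, hX02, hX0⟩ := exists_m2
  intro B
  refine ⟨4 * D0 + B + 1 + √(Real.log X0), by positivity, fun E hE X hX2 H hH => ?_⟩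
  have hXr : (0 : ℝ) ≤ X := Nat.cast_nonneg X
  have hlogH : 0 ≤ Real.log H := Real.log_nonneg (by exact_mod_cast hH)
  have hLpos : 0 < Real.log X := Real.log_pos (by exact_mod_cast hX2)
  have hsLpos : 0 < √(Real.log X) := Real.sqrt_pos.mpr hLpos
  -- the trivial bound
  have htriv : ((({n : ℕ | ∃ i ≤ H, ¬ (n ∈ E ↔ n + i ∈ E)} ∩ Set.Icc 1 X).ncard : ℝ)) ≤ X := by
    have h1 := Set.ncard_le_ncard (Set.inter_subset_right :
      {n : ℕ | ∃ i ≤ H, ¬ (n ∈ E ↔ n + i ∈ E)} ∩ Set.Icc 1 X ⊆ Set.Icc 1 X) (Set.finite_Icc 1 X)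
    have h4 : (Set.Icc 1 X).ncard = X := by
      rw [← Finset.coe_Icc, Set.ncard_coe_finset, Nat.card_Icc]
      omega
    rw [h4] at h1
    exact_mod_cast h1
  by_cases hXX : X < X0
  · refine htriv.trans ?_
    have h1 : √(Real.log X) ≤ √(Real.log X0) := by
      apply Real.sqrt_le_sqrt
      apply Real.log_le_log (by exact_mod_cast (by omega : 0 < X))
      exact_mod_cast hXX.le
    rw [div_mul_eq_mul_div, le_div_iff₀ hsLpos]
    have h3 : √(Real.log X) ≤ (4 * D0 + B + 1 + √(Real.log X0)) * (1 + Real.log H) := by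
      have h5 : (0 : ℝ) ≤ 4 * D0 + B + 1 + √(Real.log X0) := by positivity
      have h6 : (0 : ℝ) ≤ 4 * D0 + B + 1 := by positivity
      nlinarith
    calc (X : ℝ) * √(Real.log X) ≤ X * ((4 * D0 + B + 1 + √(Real.log X0)) * (1 + Real.log H)) :=
          mul_le_mul_of_nonneg_left h3 hXr
      _ = _ := by ring
  · by_cases hHL : √(Real.log X) < Real.log H
    · refine htriv.trans ?_
      rw [div_mul_eq_mul_div, le_div_iff₀ hsLpos]
      have h3 : √(Real.log X) ≤ (4 * D0 + B + 1 + √(Real.log X0)) * (1 + Real.log H) := by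
        have h6 : (1 : ℝ) ≤ 4 * D0 + B + 1 + √(Real.log X0) := by
          have : 0 ≤ √(Real.log X0) := Real.sqrt_nonneg _
          have hB : (0 : ℝ) ≤ B := Nat.cast_nonneg B
          linarith
        nlinarith
      calc (X : ℝ) * √(Real.log X) ≤
          X * ((4 * D0 + B + 1 + √(Real.log X0)) * (1 + Real.log H)) :=
            mul_le_mul_of_nonneg_left h3 hXr
        _ = _ := by ring
    · obtain ⟨m, hm1, hm2, hm3, hm4, hL1⟩ := hX0 X (not_lt.mp hXX)
      -- the violating integers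
      set W := {n : ℕ | 0 < n ∧ ¬ (n ∈ E ↔ C n ∈ E)} with hW
      have hWfin : W.Finite := Set.finite_of_encard_le_coe hE
      set W' := hWfin.toFinset with hW'
      have hWcard : W'.card ≤ B := by
        rw [hWfin.encard_eq_coe_toFinset_card] at hE
        exact_mod_cast hE
      choose pre hpre1 hpre2 using pre_finset
      -- the integers which meet a violating integer
      set Q : Finset ℕ := (Finset.range (2 * m)).biUnion (fun j => W'.biUnion (fun v => pre v j))
        with hQ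
      have hQcard : Q.card ≤ 2 * m * (B * 2 ^ (2 * m)) := by
        refine (Finset.card_biUnion_le_card_mul _ _ (B * 2 ^ (2 * m)) (fun j hj => ?_)).trans ?_
        · refine (Finset.card_biUnion_le_card_mul _ _ (2 ^ (2 * m)) (fun v hv => ?_)).trans ?_
          · refine (hpre1 v j).trans ?_
            exact Nat.pow_le_pow_right (by norm_num) (Finset.mem_range.mp hj).le
          · exact Nat.mul_le_mul_right _ hWcard
        · rw [Finset.card_range]
      have hQ' : ∀ x : ℕ, x ∉ Q → 0 < x → (x ∈ E ↔ C^[2 * m] x ∈ E) := by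
        intro x hx hx0
        apply inv_iter E hx0
        intro j hj hbad
        apply hx
        rw [hQ, Finset.mem_biUnion]
        refine ⟨j, Finset.mem_range.mpr hj, ?_⟩
        rw [Finset.mem_biUnion]
        refine ⟨C^[j] x, ?_, hpre2 _ _ _ rfl⟩
        rw [hW', Set.Finite.mem_toFinset]
        exact hbad
      set Q2 : Finset ℕ := (Finset.range (H + 1)).biUnion (fun i => Q.image (fun x => x - i))
        with hQ2
      have hQ2card : Q2.card ≤ (H + 1) * (2 * m * (B * 2 ^ (2 * m))) := by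
        refine (Finset.card_biUnion_le_card_mul _ _ (2 * m * (B * 2 ^ (2 * m)))
          (fun i hi => Finset.card_image_le.trans hQcard)).trans ?_
        rw [Finset.card_range]
      have hsub : ({n : ℕ | ∃ i ≤ H, ¬ (n ∈ E ↔ n + i ∈ E)} ∩ Set.Icc 1 X) ⊆
          ({n : ℕ | ∃ i ≤ H, C^[2 * m] (n + i) ≠ C^[2 * m] n} ∩ Set.Icc 1 X) ∪ (Q2 : Set ℕ) := by
        rintro n ⟨⟨i, hi, hne⟩, hn⟩
        by_contra hc
        rw [Set.mem_union, not_or] at hc
        obtain ⟨hc1, hc2⟩ := hc
        have hnQ : ∀ i' ≤ H, n + i' ∉ Q := by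
          intro i' hi' hmem
          apply hc2
          rw [Finset.mem_coe, hQ2, Finset.mem_biUnion]
          refine ⟨i', Finset.mem_range.mpr (by omega), ?_⟩
          rw [Finset.mem_image]
          exact ⟨n + i', hmem, by omega⟩
        have heq : C^[2 * m] (n + i) = C^[2 * m] n := by
          by_contra hne2
          exact hc1 ⟨⟨i, hi, hne2⟩, hn⟩
        apply hne
        have hn1 : 1 ≤ n := hn.1
        rw [hQ' n (by simpa using hnQ 0 (by omega)) (by omega),
          hQ' (n + i) (hnQ i hi) (by omega), heq]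
      have h1 := hlong X m H hm1 hH hm2
      have h2 : ((({n : ℕ | ∃ i ≤ H, ¬ (n ∈ E ↔ n + i ∈ E)} ∩ Set.Icc 1 X).ncard : ℝ)) ≤
          ((({n : ℕ | ∃ i ≤ H, C^[2 * m] (n + i) ≠ C^[2 * m] n} ∩ Set.Icc 1 X).ncard : ℝ)) +
            ((H : ℝ) + 1) * (2 * m * (B * 2 ^ (2 * m))) := by
        have hfin : (({n : ℕ | ∃ i ≤ H, C^[2 * m] (n + i) ≠ C^[2 * m] n} ∩ Set.Icc 1 X) ∪
            (Q2 : Set ℕ)).Finite :=
          ((Set.finite_Icc 1 X).subset Set.inter_subset_right).union (Finset.finite_toSet _)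
        have h3 := (Set.ncard_le_ncard hsub hfin).trans (Set.ncard_union_le _ _)
        rw [Set.ncard_coe_finset] at h3
        have h5 := h3.trans (Nat.add_le_add_left hQ2card _)
        have h6 : ((({n : ℕ | ∃ i ≤ H, ¬ (n ∈ E ↔ n + i ∈ E)} ∩ Set.Icc 1 X).ncard : ℝ)) ≤
          ((({n : ℕ | ∃ i ≤ H, C^[2 * m] (n + i) ≠ C^[2 * m] n} ∩ Set.Icc 1 X).ncard +
            (H + 1) * (2 * m * (B * 2 ^ (2 * m))) : ℕ) : ℝ) := by exact_mod_cast h5
        refine h6.trans (le_of_eq ?_)
        push_cast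
        ring
      set L := Real.log X with hLdef
      have hsm : √L / 4 ≤ √m := by
        apply Real.le_sqrt_of_sq_le
        rw [div_pow, Real.sq_sqrt (by linarith)]
        norm_num
        linarith
      have h6 : D0 * (1 + Real.log H) / √m * X ≤ 4 * D0 * (1 + Real.log H) / √L * X := by
        apply mul_le_mul_of_nonneg_right _ hXr
        have : D0 * (1 + Real.log H) / √m ≤ D0 * (1 + Real.log H) / (√L / 4) :=
          div_le_div_of_nonneg_left (by positivity) (by positivity) hsm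
        refine this.trans (le_of_eq ?_)
        field_simp
      have hHexp : (H : ℝ) ≤ Real.exp (√L) := by
        have hHpos : (0 : ℝ) < H := by exact_mod_cast hH
        calc (H : ℝ) = Real.exp (Real.log H) := (Real.exp_log hHpos).symm
          _ ≤ Real.exp (√L) := Real.exp_le_exp.mpr (not_lt.mp hHL)
      have h7 : ((H : ℝ) + 1) * (2 * m * (B * 2 ^ (2 * m))) ≤ B * (1 + Real.log H) / √L * X := by
        have hH1 : (1 : ℝ) ≤ H := by exact_mod_cast hH
        have h8 : (H : ℝ) + 1 ≤ 4 * Real.exp (√L) := by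
          have := Real.exp_pos (√L)
          linarith
        have hB0 : (0 : ℝ) ≤ B := Nat.cast_nonneg B
        calc ((H : ℝ) + 1) * (2 * m * (B * 2 ^ (2 * m))) ≤
            (4 * Real.exp (√L)) * (2 * m * (B * 2 ^ (2 * m))) :=
              mul_le_mul_of_nonneg_right h8 (by positivity)
          _ = B * (4 * Real.exp (√L) * (2 * m) * (2 : ℝ) ^ (2 * m)) := by ring
          _ ≤ B * (X / √L) := mul_le_mul_of_nonneg_left hm4 hB0
          _ = B * 1 / √L * X := by ring
          _ ≤ B * (1 + Real.log H) / √L * X := by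
            apply mul_le_mul_of_nonneg_right _ hXr
            apply div_le_div_of_nonneg_right _ hsLpos.le
            nlinarith
      have h9 : (0 : ℝ) ≤ (1 + √(Real.log X0)) * (1 + Real.log H) / √L * X := by positivity
      calc _ ≤ _ := h2
        _ ≤ 4 * D0 * (1 + Real.log H) / √L * X + B * (1 + Real.log H) / √L * X :=
            add_le_add (h1.trans h6) h7
        _ ≤ 4 * D0 * (1 + Real.log H) / √L * X + B * (1 + Real.log H) / √L * X +
            (1 + √(Real.log X0)) * (1 + Real.log H) / √L * X := by linarith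
        _ = (4 * D0 + B + 1 + √(Real.log X0)) * (1 + Real.log H) / √L * X := by ring

end Pool.Agent.Lib.MP_e43fce_nt_coal
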