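import Pool.Agent.Lib.MP_e43fce_nt_coal.Terras

/-!
From the Collatz map to the shortcut map.
-/

set_option autoImplicit false

namespace Pool.Agent.Lib.MP_e43fce_nt_coal

private theorem lowC_even {v : ℕ} (h : v % 2 = 0) : C v = v / 2 := by
  unfold C
  rw [if_pos h]

private theorem lowC_odd {v : ℕ} (h : v % 2 ≠ 0) : C v = 3 * v + 1 := by
  unfold C
  rw [if_neg h]

private theorem lowC_run (x k : ℕ) : ∃ t o c : ℕ, t + o = k ∧ 2 ^ t * C^[k] x = 3 ^ o * x + c ∧
    c ≤ 4 ^ k ∧ (st t x = (o, C^[k] x) ∨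
      ∃ z o' : ℕ, z % 2 ≠ 0 ∧ o = o' + 1 ∧ st t x = (o', z) ∧ C^[k] x = 3 * z + 1) := by
  induction k with
  | zero => exact ⟨0, 0, 0, rfl, by simp, by simp, Or.inl rfl⟩
  | succ k ih =>
    obtain ⟨t, o, c, hto, hv, hc, h⟩ := ih
    rw [Function.iterate_succ_apply']
    obtain ⟨v, hvdef⟩ : ∃ v, v = C^[k] x := ⟨_, rfl⟩
    rw [← hvdef] at hv h ⊢
    have h4 : 4 ^ k ≤ 4 ^ (k + 1) := Nat.pow_le_pow_right (by norm_num) (Nat.le_succ k)
    rcases h with h | ⟨z, o', hz, ho, hst, hC⟩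
    · by_cases hp : v % 2 = 0
      · refine ⟨t + 1, o, c, by omega, ?_, hc.trans h4, Or.inl ?_⟩
        · rw [lowC_even hp, pow_succ, mul_assoc, Nat.mul_div_cancel' (Nat.dvd_of_mod_eq_zero hp)]
          exact hv
        · rw [st_succ, h, lowC_even hp]
          unfold tstep
          simp only
          rw [if_pos hp]
      · refine ⟨t, o + 1, 3 * c + 2 ^ t, by omega, ?_, ?_, Or.inr ⟨v, o, hp, rfl, h, lowC_odd hp⟩⟩
        · rw [lowC_odd hp]
          calc 2 ^ t * (3 * v + 1) = 3 * (2 ^ t * v) + 2 ^ t := by ring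
            _ = _ := by
              rw [hv]
              ring
        · have h5 : 2 ^ t ≤ 4 ^ k := by
            calc 2 ^ t ≤ 2 ^ k := Nat.pow_le_pow_right (by norm_num) (by omega)
              _ ≤ 4 ^ k := Nat.pow_le_pow_left (by norm_num) k
          rw [pow_succ]
          omega
    · have hp : v % 2 = 0 := by omega
      refine ⟨t + 1, o, c, by omega, ?_, hc.trans h4, Or.inl ?_⟩
      · rw [lowC_even hp, pow_succ, mul_assoc, Nat.mul_div_cancel' (Nat.dvd_of_mod_eq_zero hp)]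
        exact hv
      · rw [st_succ, hst, lowC_even hp]
        unfold tstep
        simp only
        rw [if_neg hz, ho, hC]

private theorem lowC_later {t s x y : ℕ} (h : st t x = st t y) (hts : t ≤ s) :
    st s x = st s y := by
  induction s, hts using Nat.le_induction with
  | base => exact h
  | succ s _ ih => rw [st_succ, st_succ, ih]

theorem low_C (m k n : ℕ) (hk : k ≤ m) (hn : 100 ^ (m + 1) ≤ n) (h : C^[k] n = C^[k] (n + 1)) :
    st (m + 1) n = st (m + 1) (n + 1) := by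
  obtain ⟨t, o, c, h1, h2, h3, h4⟩ := lowC_run n k
  obtain ⟨t', o', c', h1', h2', h3', h4'⟩ := lowC_run (n + 1) k
  rw [← h] at h2' h4'
  obtain ⟨v, hv⟩ : ∃ v, v = C^[k] n := ⟨_, rfl⟩
  rw [← hv] at h2 h4 h2' h4'
  have hbig : 4 ^ k + 1 < n := by
    have h5 : 4 ^ k ≤ 4 ^ m := Nat.pow_le_pow_right (by norm_num) hk
    have h6 : 4 ^ m ≤ 100 ^ m := Nat.pow_le_pow_left (by norm_num) m
    have h7 : 1 ≤ 100 ^ m := Nat.one_le_pow _ _ (by norm_num)
    rw [pow_succ] at hn
    omega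
  have ho : o = o' := by
    rcases lt_trichotomy o o' with h5 | h5 | h5
    · exfalso
      obtain ⟨e, rfl⟩ : ∃ e, o' = o + (e + 1) := ⟨o' - o - 1, by omega⟩
      obtain rfl : t = t' + (e + 1) := by omega
      have h6 : 2 ^ (e + 1) * (3 ^ (o + (e + 1)) * (n + 1) + c') = 3 ^ o * n + c := by
        rw [← h2', ← h2, pow_add 2 t' (e + 1)]
        ring
      have h7 : 1 ≤ 3 ^ o := Nat.one_le_pow _ _ (by norm_num)
      have h8 : 3 ^ o * 3 ≤ 3 ^ (o + (e + 1)) := by
        rw [← pow_succ]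
        exact Nat.pow_le_pow_right (by norm_num) (by omega)
      have h9 : 2 ≤ 2 ^ (e + 1) := by
        calc 2 = 2 ^ 1 := rfl
          _ ≤ 2 ^ (e + 1) := Nat.pow_le_pow_right (by norm_num) (by omega)
      have h10 : 2 * (3 ^ o * 3 * n) ≤ 2 ^ (e + 1) * (3 ^ (o + (e + 1)) * (n + 1) + c') := by
        refine Nat.mul_le_mul h9 ?_
        calc 3 ^ o * 3 * n ≤ 3 ^ (o + (e + 1)) * (n + 1) := Nat.mul_le_mul h8 (Nat.le_succ n)
          _ ≤ _ := Nat.le_add_right _ _
      have h11 : n ≤ 3 ^ o * n := Nat.le_mul_of_pos_left n h7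
      rw [h6] at h10
      have h12 : 2 * (3 ^ o * 3 * n) = 6 * (3 ^ o * n) := by ring
      omega
    · exact h5
    · exfalso
      obtain ⟨e, rfl⟩ : ∃ e, o = o' + (e + 1) := ⟨o - o' - 1, by omega⟩
      obtain rfl : t' = t + (e + 1) := by omega
      have h6 : 2 ^ (e + 1) * (3 ^ (o' + (e + 1)) * n + c) = 3 ^ o' * (n + 1) + c' := by
        rw [← h2', ← h2, pow_add 2 t (e + 1)]
        ring
      have h7 : 1 ≤ 3 ^ o' := Nat.one_le_pow _ _ (by norm_num)
      have h8 : 3 ^ o' * 3 ≤ 3 ^ (o' + (e + 1)) := by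
        rw [← pow_succ]
        exact Nat.pow_le_pow_right (by norm_num) (by omega)
      have h9 : 2 ≤ 2 ^ (e + 1) := by
        calc 2 = 2 ^ 1 := rfl
          _ ≤ 2 ^ (e + 1) := Nat.pow_le_pow_right (by norm_num) (by omega)
      have h10 : 2 * (3 ^ o' * 3 * n) ≤ 2 ^ (e + 1) * (3 ^ (o' + (e + 1)) * n + c) := by
        refine Nat.mul_le_mul h9 ?_
        calc 3 ^ o' * 3 * n ≤ 3 ^ (o' + (e + 1)) * n := Nat.mul_le_mul_right n h8
          _ ≤ _ := Nat.le_add_right _ _
      rw [h6] at h10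
      have h11 : n ≤ 3 ^ o' * n := Nat.le_mul_of_pos_left n h7
      have h13 : 3 ^ o' ≤ 3 ^ o' * n := Nat.le_mul_of_pos_right _ (by omega)
      have h12 : 2 * (3 ^ o' * 3 * n) = 6 * (3 ^ o' * n) := by ring
      have h14 : 3 ^ o' * (n + 1) = 3 ^ o' * n + 3 ^ o' := by ring
      omega
  subst ho
  obtain rfl : t = t' := by omega
  rcases h4 with h4 | ⟨z, p, hz, hp, hst, hC⟩
  · rcases h4' with h4' | ⟨z', p', hz', hp', hst', hC'⟩
    · exact lowC_later (h4.trans h4'.symm) (by omega)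
    · refine lowC_later (t := t + 1) ?_ (by omega)
      rw [st_succ, st_succ, h4, hst']
      unfold tstep
      simp only
      rw [if_pos (by omega), if_neg hz', hp', hC']
  · rcases h4' with h4' | ⟨z', p', hz', hp', hst', hC'⟩
    · refine lowC_later (t := t + 1) ?_ (by omega)
      rw [st_succ, st_succ, h4', hst]
      unfold tstep
      simp only
      rw [if_neg hz, if_pos (by omega), hp, hC]
    · refine lowC_later (t := t) ?_ (by omega)
      rw [hst, hst']
      have h5 : z = z' := by omega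
      have h6 : p = p' := by omega
      rw [h5, h6]

end Pool.Agent.Lib.MP_e43fce_nt_coal
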