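import Pool.Agent.Lib.MP_e43fce_nt_coal.Defs2

/-!
The chain follows the orbits.
-/

set_option autoImplicit false

namespace Pool.Agent.Lib.MP_e43fce_nt_coal

private theorem lowT_even (D a : ℕ) : tstep (D, 2 * a) = (D, a) := by
  unfold tstep
  simp only
  rw [if_pos (by omega)]
  have h : 2 * a / 2 = a := by omega
  rw [h]

private theorem lowT_odd (D a : ℕ) : tstep (D, 2 * a + 1) = (D + 1, 3 * a + 2) := by
  unfold tstep
  simp only
  rw [if_neg (by omega)]
  have h : (3 * (2 * a + 1) + 1) / 2 = 3 * a + 2 := by omega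
  rw [h]

private theorem lowT_rel (D d z z' : ℕ) :
    rel (D, z) (D + d, z') = (d, (z' : ℤ) - 3 ^ d * (z : ℤ)) := by
  unfold rel
  simp only [Nat.add_sub_cancel_left]

/-- One step of the pair and of the chain. -/
private theorem lowT_step (c c' : ℕ × ℕ) (h : c.1 ≤ c'.1) : ∃ e e' : ℕ × ℕ,
    ((e = tstep c ∧ e' = tstep c') ∨ (e = tstep c' ∧ e' = tstep c)) ∧ e.1 ≤ e'.1 ∧
      step (rel c c') (decide ((c.2 : ℤ) % 2 ≠ 0)) = rel e e' ∧ nxt (rel c c') c.2 = e.2 := by
  obtain ⟨D, z⟩ := c
  obtain ⟨D', z'⟩ := c'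
  obtain ⟨d, rfl⟩ := Nat.exists_eq_add_of_le h
  obtain ⟨q, hq⟩ : Odd ((3 : ℤ) ^ d) := Odd.pow (by decide)
  rw [lowT_rel]
  obtain ⟨g, hg⟩ : ∃ g : ℤ, g = (z' : ℤ) - 3 ^ d * (z : ℤ) := ⟨_, rfl⟩
  rw [← hg]
  rcases Nat.even_or_odd' z with ⟨a, rfl | rfl⟩
  · have hb : decide ((((2 * a : ℕ) : ℤ)) % 2 ≠ 0) = false := by
      rw [decide_eq_false_iff_not]
      omega
    have hn : nxt (d, g) ((2 * a : ℕ) : ℤ) = (a : ℤ) := by
      unfold nxt
      rw [if_pos (by omega)]
      omega
    rcases Nat.even_or_odd' z' with ⟨b, rfl | rfl⟩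
    · refine ⟨(D, a), (D + d, b), Or.inl ⟨(lowT_even D a).symm, (lowT_even (D + d) b).symm⟩,
        Nat.le_add_right _ _, ?_, hn⟩
      rw [lowT_rel, hb]
      have hg2 : g = 2 * ((b : ℤ) - 3 ^ d * (a : ℤ)) := by
        rw [hg]
        push_cast
        ring
      unfold step
      simp only
      rw [if_pos (by omega), if_neg Bool.false_ne_true]
      have h3 : g / 2 = (b : ℤ) - 3 ^ d * (a : ℤ) := by omega
      rw [h3]
    · refine ⟨(D, a), (D + (d + 1), 3 * b + 2), Or.inl ⟨(lowT_even D a).symm, ?_⟩,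
        Nat.le_add_right _ _, ?_, hn⟩
      · rw [lowT_odd]
        rfl
      rw [lowT_rel, hb]
      have hg2 : g = 2 * ((b : ℤ) - 3 ^ d * (a : ℤ)) + 1 := by
        rw [hg]
        push_cast
        ring
      unfold step
      simp only
      rw [if_neg (by omega), if_neg Bool.false_ne_true]
      have h4 : ((3 * b + 2 : ℕ) : ℤ) - 3 ^ (d + 1) * (a : ℤ) =
          3 * ((b : ℤ) - 3 ^ d * (a : ℤ)) + 2 := by
        push_cast
        ring
      have h3 : (3 * g + 1) / 2 = ((3 * b + 2 : ℕ) : ℤ) - 3 ^ (d + 1) * (a : ℤ) := by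
        rw [h4]
        omega
      rw [h3]
  · have hb : decide ((((2 * a + 1 : ℕ) : ℤ)) % 2 ≠ 0) = true := by
      rw [decide_eq_true_iff]
      omega
    rcases Nat.even_or_odd' z' with ⟨b, rfl | rfl⟩
    · -- different parities, the small one odd
      rcases Nat.eq_zero_or_pos d with rfl | hd
      · have hg2 : g = 2 * ((b : ℤ) - a) - 1 := by
          rw [hg]
          push_cast
          ring
        refine ⟨(D, b), (D + 1, 3 * a + 2), Or.inr ⟨?_, (lowT_odd D a).symm⟩,
          Nat.le_succ _, ?_, ?_⟩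
        · rw [Nat.add_zero, lowT_even]
        · rw [lowT_rel, hb]
          unfold step
          simp only
          rw [if_neg (by omega), if_pos trivial, if_pos trivial]
          have h3 : (1 - 3 * g) / 2 = ((3 * a + 2 : ℕ) : ℤ) - 3 ^ 1 * (b : ℤ) := by
            push_cast
            omega
          rw [h3]
        · unfold nxt
          simp only
          rw [if_neg (by omega), if_pos ⟨trivial, by omega⟩]
          push_cast
          omega
      · obtain ⟨d, rfl⟩ : ∃ d', d = d' + 1 := ⟨d - 1, by omega⟩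
        have hg2 : g - 3 ^ d = 2 * ((b : ℤ) - 3 ^ d * (3 * a + 2)) := by
          rw [hg]
          push_cast
          ring
        obtain ⟨q', hq'⟩ : Odd ((3 : ℤ) ^ d) := Odd.pow (by decide)
        refine ⟨(D + 1, 3 * a + 2), (D + 1 + d, b), Or.inl ⟨(lowT_odd D a).symm, ?_⟩,
          Nat.le_add_right _ _, ?_, ?_⟩
        · rw [lowT_even]
          have h5 : D + (d + 1) = D + 1 + d := by omega
          rw [h5]
        · rw [lowT_rel, hb]
          unfold step
          simp only
          rw [if_neg (by omega), if_pos trivial, if_neg (Nat.succ_ne_zero d)]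
          have h3 : (g - 3 ^ (d + 1 - 1)) / 2 = (b : ℤ) - 3 ^ d * ((3 * a + 2 : ℕ) : ℤ) := by
            rw [Nat.add_sub_cancel, hg2]
            push_cast
            omega
          rw [h3]
          simp
        · unfold nxt
          simp only
          rw [if_neg (by omega), if_neg (fun h6 => Nat.succ_ne_zero d h6.1)]
          push_cast
          omega
    · -- both odd
      have hg2 : g = 2 * ((b : ℤ) - 3 ^ d * (a : ℤ) - q) := by
        rw [hg]
        push_cast
        linear_combination (-1 : ℤ) * hq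
      refine ⟨(D + 1, 3 * a + 2), (D + 1 + d, 3 * b + 2), Or.inl ⟨(lowT_odd D a).symm, ?_⟩,
        Nat.le_add_right _ _, ?_, ?_⟩
      · rw [lowT_odd]
        have h5 : D + d + 1 = D + 1 + d := by omega
        rw [h5]
      · rw [lowT_rel, hb]
        unfold step
        simp only
        rw [if_pos (by omega), if_pos trivial]
        have h4 : 3 * g + 1 - 3 ^ d = 2 * ((3 * b + 2 : ℕ) - 3 ^ d * ((3 * a + 2 : ℕ) : ℤ)) := by
          rw [hg]
          push_cast
          ring
        rw [h4]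
        have h3 : 2 * ((3 * b + 2 : ℕ) - 3 ^ d * ((3 * a + 2 : ℕ) : ℤ)) / 2 =
            ((3 * b + 2 : ℕ) : ℤ) - 3 ^ d * ((3 * a + 2 : ℕ) : ℤ) := by
          omega
        rw [h3]
      · unfold nxt
        simp only
        rw [if_neg (by omega), if_neg (fun h6 => h6.2 (by omega))]
        push_cast
        omega

theorem low_bad_gen (K : ℕ) : ∀ c c' : ℕ × ℕ, c.1 ≤ c'.1 → tstep^[K] c = tstep^[K] c' →
    ¬ bad K (rel c c') (c.2 : ℤ) := by
  induction K with
  | zero =>
    intro c c' _ h
    rw [Function.iterate_zero, id, id] at h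
    subst h
    unfold bad rel
    simp
  | succ K ih =>
    intro c c' h1 h2
    obtain ⟨e, e', h3, h4, h5, h6⟩ := lowT_step c c' h1
    unfold bad
    rw [h5, h6]
    apply ih e e' h4
    rw [Function.iterate_succ_apply, Function.iterate_succ_apply] at h2
    rcases h3 with ⟨rfl, rfl⟩ | ⟨rfl, rfl⟩
    · exact h2
    · exact h2.symm

theorem low_bad (K x h : ℕ) (hh : st K x = st K (x + h)) : ¬ bad K (0, (h : ℤ)) (x : ℤ) := by
  have h1 := low_bad_gen K (0, x) (0, x + h) le_rfl hh
  have h2 : rel (0, x) (0, x + h) = (0, (h : ℤ)) := by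
    unfold rel
    simp
  rw [h2] at h1
  exact h1

end Pool.Agent.Lib.MP_e43fce_nt_coal
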