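import Pool.Agent.Lib.MP_e43fce_nt_coal.Basic

/-!
Lower bound for the probability that the chain has not met: the order `K ^ (-1/2)` is sharp.

For `d = s.1 ≥ 1` the number `d` moves by `+1` or `-1` with equal probabilities or stays, so
`d - β (d ^ 3 + 3 k d)` is a subsolution.
-/

set_option autoImplicit false

namespace Pool.Agent.Lib.MP_e43fce_nt_coal

private theorem lowU_sub {β γ : ℝ} (hβ : 0 ≤ β) (hγ : 0 < γ)
    (h : ∀ d : ℕ, (d : ℝ) - β * (d : ℝ) ^ 3 ≤ γ) (k : ℕ) (s : St) :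
    ((s.1 : ℝ) - β * ((s.1 : ℝ) ^ 3 + 3 * k * s.1)) / γ ≤ u k s := by
  induction k generalizing s with
  | zero =>
    by_cases hs : s = (0, 0)
    · subst hs
      rw [u_zero]
      simp
    · have h1 : u 0 s = 1 := by
        simp only [u]
        rw [if_neg hs]
      rw [h1, div_le_one hγ]
      have h2 := h s.1
      push_cast
      linarith
  | succ k ih =>
    obtain ⟨d, g⟩ := s
    rcases Nat.eq_zero_or_pos d with hd | hd
    · subst hd
      have h1 := u_nonneg (k + 1) (0, g)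
      simpa using h1
    have hd1 : (1 : ℝ) ≤ d := by exact_mod_cast hd
    have hu : u (k + 1) (d, g) = (u k (step (d, g) false) + u k (step (d, g) true)) / 2 := rfl
    rw [hu]
    have e1 := ih (step (d, g) false)
    have e2 := ih (step (d, g) true)
    by_cases hg : g % 2 = 0
    · have f1 : (step (d, g) false).1 = d := by
        simp [step, hg]
      have f2 : (step (d, g) true).1 = d := by
        simp [step, hg]
      rw [f1] at e1
      rw [f2] at e2
      refine le_trans ?_ (by linarith : ((d : ℝ) - β * ((d : ℝ) ^ 3 + 3 * k * d)) / γ ≤ _)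
      apply div_le_div_of_nonneg_right _ hγ.le
      push_cast
      have h3 : 0 ≤ β * d := mul_nonneg hβ (by linarith)
      nlinarith
    · have f1 : (step (d, g) false).1 = d + 1 := by
        simp [step, hg]
      have f2 : (step (d, g) true).1 = d - 1 := by
        simp [step, hg, hd.ne']
      rw [f1] at e1
      rw [f2] at e2
      have h3 : (((d - 1 : ℕ) : ℕ) : ℝ) = (d : ℝ) - 1 := by
        rw [Nat.cast_sub hd, Nat.cast_one]
      rw [h3] at e2
      push_cast at e1 ⊢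
      have h4 : ((d : ℝ) - β * ((d : ℝ) ^ 3 + 3 * ((k : ℝ) + 1) * d)) / γ =
          (((d : ℝ) + 1 - β * (((d : ℝ) + 1) ^ 3 + 3 * k * ((d : ℝ) + 1))) / γ +
            ((d : ℝ) - 1 - β * (((d : ℝ) - 1) ^ 3 + 3 * k * ((d : ℝ) - 1))) / γ) / 2 := by
        ring
      rw [h4]
      linarith

theorem low_u (K : ℕ) (s : St) (hs : s.1 ≠ 0) : 1 / (4 * √((K : ℝ) + 1)) ≤ u K s := by
  obtain ⟨d, hd⟩ : ∃ d : ℝ, d = (s.1 : ℝ) := ⟨_, rfl⟩
  have hd1 : 1 ≤ d := by
    rw [hd]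
    exact_mod_cast Nat.one_le_iff_ne_zero.2 hs
  have hK0 : (0 : ℝ) ≤ K := Nat.cast_nonneg K
  obtain ⟨q, hq⟩ : ∃ q : ℝ, q = √((K : ℝ) + 1) := ⟨_, rfl⟩
  have hq0 : 0 < q := by
    rw [hq]
    exact Real.sqrt_pos.2 (by linarith)
  have hq2 : q ^ 2 = K + 1 := by
    rw [hq]
    exact Real.sq_sqrt (by linarith)
  have hdd : 0 < d ^ 2 + 3 * K := by positivity
  obtain ⟨ρ, hρ⟩ : ∃ ρ : ℝ, ρ = d * q := ⟨_, rfl⟩
  have hρ0 : 0 < ρ := by
    rw [hρ]
    positivity
  have hρ2 : ρ ^ 2 = d ^ 2 * (K + 1) := by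
    rw [hρ, mul_pow, hq2]
  have hβ : 1 / (6 * ρ ^ 2) ≤ 1 / (2 * (d ^ 2 + 3 * K)) := by
    apply one_div_le_one_div_of_le (by positivity)
    rw [hρ2]
    nlinarith [mul_nonneg (by nlinarith : (0 : ℝ) ≤ d ^ 2 - 1) hK0]
  have key := lowU_sub (β := 1 / (2 * (d ^ 2 + 3 * K))) (γ := 2 * ρ) (by positivity) (by positivity)
    (fun n => by
      have hn : (0 : ℝ) ≤ n := Nat.cast_nonneg n
      have h1 : (n : ℝ) - 1 / (2 * (d ^ 2 + 3 * K)) * (n : ℝ) ^ 3 ≤
          n - 1 / (6 * ρ ^ 2) * (n : ℝ) ^ 3 := by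
        have h2 := mul_le_mul_of_nonneg_right hβ (pow_nonneg hn 3)
        linarith
      refine h1.trans ?_
      have h3 : 0 ≤ (n : ℝ) ^ 3 - 6 * ρ ^ 2 * n + 12 * ρ ^ 3 := by
        have h4 : (n : ℝ) ^ 3 - 6 * ρ ^ 2 * n + 12 * ρ ^ 3 =
            (n - 3 / 2 * ρ) ^ 2 * (n + 3 * ρ) + 3 / 4 * ρ ^ 2 * n + 21 / 4 * ρ ^ 3 := by ring
        rw [h4]
        positivity
      have h5 : 2 * ρ - (n - 1 / (6 * ρ ^ 2) * (n : ℝ) ^ 3) =
          ((n : ℝ) ^ 3 - 6 * ρ ^ 2 * n + 12 * ρ ^ 3) / (6 * ρ ^ 2) := by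
        field_simp
        ring
      have h6 : 0 ≤ 2 * ρ - (n - 1 / (6 * ρ ^ 2) * (n : ℝ) ^ 3) := by
        rw [h5]
        positivity
      linarith) K s
  rw [← hd] at key
  refine le_trans (le_of_eq ?_) key
  rw [← hq, hρ]
  field_simp
  ring

theorem low_u_one (K : ℕ) : 1 / (4 * √((K : ℝ) + 1)) ≤ u (K + 1) (0, 1) := by
  have hu : u (K + 1) (0, 1) = (u K (step (0, 1) false) + u K (step (0, 1) true)) / 2 := rfl
  have e1 := low_u K (step (0, 1) false) (by simp [step])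
  have e2 := low_u K (step (0, 1) true) (by simp [step])
  rw [hu]
  linarith

end Pool.Agent.Lib.MP_e43fce_nt_coal
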