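import Pool.Agent.Lib.MP_e43fce_nt_coal.Count
import Pool.Agent.Lib.MP_e43fce_nt_coal.LowU
import Pool.Agent.Lib.MP_e43fce_nt_coal.LowT
import Pool.Agent.Lib.MP_e43fce_nt_coal.LowC

/-! Coalescence: for every `m` at least `c X / √m` integers up to `X` have not met their successor
within `m` steps of the Collatz map. -/

set_option autoImplicit false

namespace Pool.Agent.Lib.MP_e43fce_nt_coal

private theorem lowFin_le (K : ℕ) (f : ℕ → Prop) (A X : ℕ) (hA : 1 ≤ A)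
    (hf : ∀ n : ℕ, A ≤ n → bad K (0, 1) (n : ℤ) → f n) :
    (((X / 2 ^ K : ℕ) : ℝ)) * (2 ^ K * u K (0, 1)) ≤
      (({n : ℕ | f n} ∩ Set.Icc 1 X).ncard : ℝ) + A := by
  classical
  rw [← count_sum_ind_mul K (X / 2 ^ K) (0, 1)]
  have h1 : ∑ x ∈ Finset.range (2 ^ K * (X / 2 ^ K)), countInd K (0, 1) ((x : ℕ) : ℤ) =
      ((((Finset.range (2 ^ K * (X / 2 ^ K))).filter
        (fun n : ℕ => bad K (0, 1) (n : ℤ))).card : ℕ) : ℝ) := by
    rw [Finset.card_filter]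
    push_cast
    refine Finset.sum_congr rfl fun x _ => ?_
    unfold countInd
    by_cases hb : bad K (0, 1) (x : ℤ)
    · simp [hb]
    · simp [hb]
  rw [h1]
  have h2 : (Finset.range (2 ^ K * (X / 2 ^ K))).filter (fun n : ℕ => bad K (0, 1) (n : ℤ)) ⊆
      ((Finset.Icc 1 X).filter f) ∪ Finset.range A := by
    intro x hx
    rw [Finset.mem_filter, Finset.mem_range] at hx
    rw [Finset.mem_union, Finset.mem_filter, Finset.mem_Icc, Finset.mem_range]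
    by_cases hxA : x < A
    · exact Or.inr hxA
    · left
      have hX : 2 ^ K * (X / 2 ^ K) ≤ X := Nat.mul_div_le X (2 ^ K)
      exact ⟨⟨by omega, by omega⟩, hf x (by omega) hx.2⟩
  have h3 := (Finset.card_le_card h2).trans (Finset.card_union_le _ _)
  rw [Finset.card_range] at h3
  have h4 : ({n : ℕ | f n} ∩ Set.Icc 1 X).ncard = ((Finset.Icc 1 X).filter f).card := by
    rw [← Set.ncard_coe_finset]
    refine congrArg Set.ncard ?_
    ext x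
    simp only [Set.mem_inter_iff, Set.mem_setOf_eq, Set.mem_Icc, Finset.coe_filter,
      Finset.mem_Icc]
    tauto
  rw [h4]
  exact_mod_cast h3

theorem low_fin : ∃ c : ℝ, 0 < c ∧ ∀ m : ℕ, 1 ≤ m → ∃ X0 : ℕ, ∀ X : ℕ, X0 ≤ X →
    c / √m * X ≤ ((({n : ℕ | ∀ k ≤ m, C^[k] n ≠ C^[k] (n + 1)} ∩ Set.Icc 1 X).ncard : ℝ)) := by
  refine ⟨1 / 12, by norm_num, fun m hm => ⟨2 * 2 ^ (m + 1) + 12 * m * 100 ^ (m + 1),
    fun X hX => ?_⟩⟩
  have hm' : (1 : ℝ) ≤ (m : ℝ) := by exact_mod_cast hm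
  have hs1 : (1 : ℝ) ≤ √(m : ℝ) := by rw [Real.one_le_sqrt]; exact hm'
  have hs0 : (0 : ℝ) < √(m : ℝ) := by linarith
  have hsm : √(m : ℝ) ≤ m := by
    rw [Real.sqrt_le_left (by linarith)]
    nlinarith
  have hu : 1 / (6 * √(m : ℝ)) ≤ u (m + 1) (0, 1) := by
    refine le_trans ?_ (low_u_one m)
    have h1 : √((m : ℝ) + 1) ≤ 3 / 2 * √(m : ℝ) := by
      rw [Real.sqrt_le_left (by positivity), mul_pow, Real.sq_sqrt (by linarith)]
      linarith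
    have h2 : (0 : ℝ) < √((m : ℝ) + 1) := Real.sqrt_pos.mpr (by linarith)
    apply one_div_le_one_div_of_le (by positivity)
    linarith
  have hmain := lowFin_le (m + 1) (fun n : ℕ => ∀ k ≤ m, C^[k] n ≠ C^[k] (n + 1))
    (100 ^ (m + 1)) X (Nat.one_le_pow _ _ (by norm_num)) (fun n hn hb k hk h =>
      low_bad (m + 1) n 1 (low_C m k n hk hn h) (by exact_mod_cast hb))
  set L : ℝ := ((({n : ℕ | ∀ k ≤ m, C^[k] n ≠ C^[k] (n + 1)} ∩ Set.Icc 1 X).ncard : ℝ)) with hL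
  have hq : (X : ℝ) - 2 ^ (m + 1) ≤ ((X / 2 ^ (m + 1) : ℕ) : ℝ) * 2 ^ (m + 1) := by
    have h1 : X < 2 ^ (m + 1) * (X / 2 ^ (m + 1) + 1) := Nat.lt_mul_div_succ X (by positivity)
    have h2 : (X : ℝ) < 2 ^ (m + 1) * (((X / 2 ^ (m + 1) : ℕ) : ℝ) + 1) := by exact_mod_cast h1
    nlinarith
  have hXr : (2 : ℝ) * 2 ^ (m + 1) + 12 * m * 100 ^ (m + 1) ≤ X := by exact_mod_cast hX
  have hp1 : (0 : ℝ) < 2 ^ (m + 1) := by positivity
  have hp2 : (0 : ℝ) < 100 ^ (m + 1) := by positivity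
  have hXp : (0 : ℝ) ≤ (X : ℝ) - 2 ^ (m + 1) := by nlinarith [mul_pos (by linarith : (0:ℝ) < m) hp2]
  have h5 : ((X : ℝ) - 2 ^ (m + 1)) * (1 / (6 * √(m : ℝ))) ≤ L + 100 ^ (m + 1) := by
    calc ((X : ℝ) - 2 ^ (m + 1)) * (1 / (6 * √(m : ℝ)))
        ≤ ((X : ℝ) - 2 ^ (m + 1)) * u (m + 1) (0, 1) := mul_le_mul_of_nonneg_left hu hXp
      _ ≤ (((X / 2 ^ (m + 1) : ℕ) : ℝ) * 2 ^ (m + 1)) * u (m + 1) (0, 1) := by
          refine mul_le_mul_of_nonneg_right hq (le_trans (by positivity) hu)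
      _ = ((X / 2 ^ (m + 1) : ℕ) : ℝ) * (2 ^ (m + 1) * u (m + 1) (0, 1)) := by ring
      _ ≤ L + ((100 ^ (m + 1) : ℕ) : ℝ) := hmain
      _ = L + 100 ^ (m + 1) := by push_cast; ring
  have h6 : (X : ℝ) - 2 ^ (m + 1) ≤ (L + 100 ^ (m + 1)) * (6 * √(m : ℝ)) := by
    have h7 := mul_le_mul_of_nonneg_right h5 (by positivity : (0 : ℝ) ≤ 6 * √(m : ℝ))
    have h8 : ((X : ℝ) - 2 ^ (m + 1)) * (1 / (6 * √(m : ℝ))) * (6 * √(m : ℝ)) =
        (X : ℝ) - 2 ^ (m + 1) := by field_simp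
    linarith
  have h9 : 12 * √(m : ℝ) * 100 ^ (m + 1) ≤ 12 * m * 100 ^ (m + 1) := by
    refine mul_le_mul_of_nonneg_right ?_ hp2.le
    linarith
  have h10 : (X : ℝ) ≤ 12 * √(m : ℝ) * L := by nlinarith
  rw [div_mul_eq_mul_div, div_le_iff₀ hs0]
  linarith

end Pool.Agent.Lib.MP_e43fce_nt_coal
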