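import Pool.Agent.Lib.MP_e43fce_nt_coal.InvBlock
import Pool.Agent.Lib.MP_e43fce_nt_coal.FinG
import Pool.Agent.Lib.MP_e43fce_nt_coal.LowFin

/-!
Coalescence of Collatz orbits: long blocks, shifts, sharpness, almost invariant sets.
-/

set_option autoImplicit false

namespace Pool.Agent.Lib.MP_e43fce_nt_coal

/-- coalescence at the level of orbits, with the sharp order for neighbours -/
theorem coal_fin : ∃ c D : ℝ, 0 < c ∧ 0 < D ∧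
    (∀ X m H : ℕ, 1 ≤ m → 1 ≤ H → 2 ^ m ≤ X →
      ((({n : ℕ | ∃ i ≤ H, C^[2 * m] (n + i) ≠ C^[2 * m] n} ∩ Set.Icc 1 X).ncard : ℝ)) ≤
        D * (1 + Real.log H) / √m * X) ∧
    (∀ X m d g : ℕ, 1 ≤ m → 2 ^ m ≤ X →
      ((({n : ℕ | ∀ k, k + d ≤ 2 * m → C^[k + d] n ≠ C^[k] (3 ^ d * n + g)} ∩
        Set.Icc 1 X).ncard : ℝ)) ≤ D * √((1 + (d : ℝ) ^ 2 + Real.log (1 + g)) / m) * X) ∧
    (∀ m : ℕ, 1 ≤ m → ∃ X0 : ℕ, ∀ X : ℕ, X0 ≤ X →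
      c / √m * X ≤
        ((({n : ℕ | ∀ k ≤ m, C^[k] n ≠ C^[k] (n + 1)} ∩ Set.Icc 1 X).ncard : ℝ))) ∧
    (∀ B : ℕ, ∃ K : ℝ, ∀ E : Set ℕ,
      {n : ℕ | 0 < n ∧ ¬ (n ∈ E ↔ C n ∈ E)}.encard ≤ B → ∀ X H : ℕ, 2 ≤ X → 1 ≤ H →
      ((({n : ℕ | ∃ i ≤ H, ¬ (n ∈ E ↔ n + i ∈ E)} ∩ Set.Icc 1 X).ncard : ℝ)) ≤
        K * (1 + Real.log H) / √(Real.log X) * X) := by
  obtain ⟨c, hc, h1⟩ := low_fin
  obtain ⟨D1, hD1, h2⟩ := fin_long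
  obtain ⟨D2, hD2, h3⟩ := fin_gen
  refine ⟨c, max D1 D2, hc, lt_max_of_lt_left hD1, ?_, ?_, h1, fun B => ?_⟩
  · intro X m H hm hH hX
    refine (h2 X m H hm hH hX).trans ?_
    have hlogH : 0 ≤ Real.log H := Real.log_nonneg (by exact_mod_cast hH)
    apply mul_le_mul_of_nonneg_right _ (Nat.cast_nonneg X)
    apply div_le_div_of_nonneg_right _ (Real.sqrt_nonneg _)
    exact mul_le_mul_of_nonneg_right (le_max_left _ _) (by linarith)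
  · intro X m d g hm hX
    refine (h3 X m d g hm hX).trans ?_
    apply mul_le_mul_of_nonneg_right _ (Nat.cast_nonneg X)
    exact mul_le_mul_of_nonneg_right (le_max_right _ _) (Real.sqrt_nonneg _)
  · obtain ⟨K, -, hK⟩ := inv_block B
    exact ⟨K, fun E hE X H hX hH => hK E hE X hX H hH⟩

end Pool.Agent.Lib.MP_e43fce_nt_coal
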