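import Pool.Agent.Lib.MP_e43fce_nt_coal.Defs2

/-!
Coalescence of Collatz orbits: sums over the pairs of neighbours of a list.
-/

set_option autoImplicit false

namespace Pool.Agent.Lib.MP_e43fce_nt_coal

theorem adj_nil (f : ℕ × ℕ → ℕ × ℕ → ℝ) : adj f [] = 0 := by
  unfold adj
  rfl

theorem adj_single (f : ℕ × ℕ → ℕ × ℕ → ℝ) (a : ℕ × ℕ) : adj f [a] = 0 := by
  unfold adj
  rfl

theorem adj_cons (f : ℕ × ℕ → ℕ × ℕ → ℝ) (a b : ℕ × ℕ) (l : List (ℕ × ℕ)) :
    adj f (a :: b :: l) = f a b + adj f (b :: l) := by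
  unfold adj
  rw [List.tail_cons, List.zip_cons_cons, List.map_cons, List.sum_cons, List.tail_cons]

theorem exists_list (s : Finset (ℕ × ℕ)) : ∃ l : List (ℕ × ℕ), l.toFinset = s ∧ l.Nodup ∧
    l.Pairwise (fun a b => a.1 ≤ b.1) := by
  have : Std.Total (fun a b : ℕ × ℕ => a.1 ≤ b.1) := ⟨fun a b => le_total a.1 b.1⟩
  have : IsTrans (ℕ × ℕ) (fun a b : ℕ × ℕ => a.1 ≤ b.1) := ⟨fun a b c h1 h2 => le_trans h1 h2⟩
  refine ⟨s.toList.insertionSort (fun a b => a.1 ≤ b.1), ?_, ?_, ?_⟩
  · rw [List.toFinset_eq_of_perm _ _ (List.perm_insertionSort _ _), Finset.toList_toFinset]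
  · rw [(List.perm_insertionSort _ _).nodup_iff]
    exact s.nodup_toList
  · exact List.pairwise_insertionSort _ _

theorem adj_const (l : List (ℕ × ℕ)) : adj (fun _ _ => 1) l ≤ l.length := by
  induction l with
  | nil => simp [adj_nil]
  | cons a l ih =>
    cases l with
    | nil =>
      rw [adj_single]
      positivity
    | cons b l =>
      rw [adj_cons, List.length_cons]
      push_cast
      linarith

theorem adj_add (f g : ℕ × ℕ → ℕ × ℕ → ℝ) (α β : ℝ) (l : List (ℕ × ℕ)) :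
    adj (fun a b => α * f a b + β * g a b) l = α * adj f l + β * adj g l := by
  induction l with
  | nil => simp [adj_nil]
  | cons a l ih =>
    cases l with
    | nil => simp [adj_single]
    | cons b l =>
      rw [adj_cons, adj_cons, adj_cons, ih]
      ring

theorem adj_fst_aux (t : ℕ) (l : List (ℕ × ℕ)) : ∀ a : ℕ × ℕ, (∀ c ∈ a :: l, c.1 ≤ t) →
    adj (fun a b => (b.1 : ℝ) - a.1) (a :: l) ≤ (t : ℝ) - a.1 := by
  induction l with
  | nil =>
    intro a h
    rw [adj_single]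
    have h1 : a.1 ≤ t := h a (by simp)
    have h2 : (a.1 : ℝ) ≤ t := by exact_mod_cast h1
    linarith
  | cons b l ih =>
    intro a h
    rw [adj_cons]
    have := ih b (fun c hc => h c (List.mem_cons_of_mem _ hc))
    linarith

theorem adj_fst (l : List (ℕ × ℕ)) (t : ℕ) (h : ∀ c ∈ l, c.1 ≤ t)
    (hl : l.Pairwise (fun a b => a.1 ≤ b.1)) :
    adj (fun a b => (b.1 : ℝ) - a.1) l ≤ t := by
  cases l with
  | nil =>
    rw [adj_nil]
    positivity
  | cons a l =>
    refine (adj_fst_aux t l a h).trans ?_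
    have : (0 : ℝ) ≤ a.1 := Nat.cast_nonneg _
    linarith

theorem adj_sum_aux (f : ℕ × ℕ → ℝ) (hf : ∀ c, 0 ≤ f c) (l : List (ℕ × ℕ)) : ∀ a : ℕ × ℕ,
    adj (fun a b => f a + f b) (a :: l) ≤ 2 * ((a :: l).map f).sum - f a := by
  induction l with
  | nil =>
    intro a
    rw [adj_single, List.map_cons, List.map_nil, List.sum_cons, List.sum_nil]
    have := hf a
    linarith
  | cons b l ih =>
    intro a
    rw [adj_cons, List.map_cons, List.sum_cons]
    have := ih b
    linarith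

theorem adj_sum (f : ℕ × ℕ → ℝ) (hf : ∀ c, 0 ≤ f c) (l : List (ℕ × ℕ)) :
    adj (fun a b => f a + f b) l ≤ 2 * (l.map f).sum := by
  cases l with
  | nil => simp [adj_nil]
  | cons a l =>
    refine (adj_sum_aux f hf l a).trans ?_
    have := hf a
    linarith

theorem adj_mono (f g : ℕ × ℕ → ℕ × ℕ → ℝ) (l : List (ℕ × ℕ))
    (h : ∀ a ∈ l, ∀ b ∈ l, a.1 ≤ b.1 → f a b ≤ g a b)
    (hl : l.Pairwise (fun a b => a.1 ≤ b.1)) : adj f l ≤ adj g l := by
  induction l with
  | nil => rw [adj_nil, adj_nil]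
  | cons a l ih =>
    cases l with
    | nil => rw [adj_single, adj_single]
    | cons b l =>
      rw [adj_cons, adj_cons]
      rw [List.pairwise_cons] at hl
      have h1 := h a (by simp) b (by simp) (hl.1 b (by simp))
      have h2 := ih (fun c hc c' hc' => h c (List.mem_cons_of_mem _ hc) c'
        (List.mem_cons_of_mem _ hc')) hl.2
      linarith

theorem adj_eq_aux {β : Type*} (F : ℕ × ℕ → β) (l : List (ℕ × ℕ)) : ∀ a : ℕ × ℕ,
    (∀ p ∈ (a :: l).zip (a :: l).tail, F p.1 = F p.2) → ∀ b ∈ a :: l, F b = F a := by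
  induction l with
  | nil =>
    intro a _ b hb
    rw [List.mem_singleton] at hb
    rw [hb]
  | cons c l ih =>
    intro a h b hb
    have h1 : F a = F c := h (a, c) (by simp)
    rw [List.mem_cons] at hb
    rcases hb with rfl | hb
    · rfl
    · rw [h1]
      refine ih c (fun p hp => h p ?_) b hb
      rw [List.tail_cons, List.zip_cons_cons]
      exact List.mem_cons_of_mem _ hp

theorem adj_eq {β : Type*} (F : ℕ × ℕ → β) (l : List (ℕ × ℕ))
    (h : ∀ p ∈ l.zip l.tail, F p.1 = F p.2) : ∀ a ∈ l, ∀ b ∈ l, F a = F b := by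
  intro a ha b hb
  cases l with
  | nil => simp at ha
  | cons c l => rw [adj_eq_aux F l c h a ha, adj_eq_aux F l c h b hb]

end Pool.Agent.Lib.MP_e43fce_nt_coal
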