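import Pool.Agent.Lib.MP_e43fce_nt_coal.CardN
import Pool.Agent.Lib.MP_e43fce_nt_coal.DriftPhi

/-!
Coalescence of Collatz orbits: the mean number of classes.
-/

set_option autoImplicit false

namespace Pool.Agent.Lib.MP_e43fce_nt_coal

theorem AN_le (H t : ℕ) : AN H t ≤ 401 * (t + 1) + BP H t / 20 := by
  have h20 : √(400 : ℝ) = 20 := by
    rw [show (400 : ℝ) = 20 ^ 2 by norm_num, Real.sqrt_sq (by norm_num)]
  have hpow : (0 : ℝ) < 2 ^ t := by positivity
  unfold AN BP
  rw [div_le_iff₀ hpow]
  calc _ ≤ ∑ n ∈ Finset.range (2 ^ t), (401 * ((t : ℝ) + 1) + Phi H t n / 20) := by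
        refine Finset.sum_le_sum fun n _ => ?_
        have := card_le H t n 400 (by norm_num)
        rw [h20] at this
        linarith
    _ = 401 * ((t : ℝ) + 1) * 2 ^ t + (∑ n ∈ Finset.range (2 ^ t), Phi H t n) / 20 := by
        rw [Finset.sum_add_distrib, Finset.sum_const, Finset.card_range, nsmul_eq_mul,
          Finset.sum_div]
        push_cast
        ring
    _ = _ := by
        field_simp

theorem BP_zero (H : ℕ) : BP H 0 ≤ (H : ℝ) ^ 2 := by
  unfold BP
  rw [pow_zero, Finset.range_one, Finset.sum_singleton, pow_zero, div_one]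
  unfold Phi cls
  refine (Finset.sum_image_le_of_nonneg (fun _ _ => Real.sqrt_nonneg _)).trans ?_
  calc _ ≤ ∑ i ∈ Finset.range H, (H : ℝ) := by
        refine Finset.sum_le_sum fun i hi => ?_
        have h1 : off 0 0 (st 0 (0 + i)) = i := by
          unfold off st
          simp
        rw [h1]
        have h2 : (i : ℝ) ≤ H := by
          exact_mod_cast (Finset.mem_range.1 hi).le
        refine le_trans ?_ h2
        rw [Real.sqrt_le_left (Nat.cast_nonneg _)]
        rcases Nat.eq_zero_or_pos i with rfl | h3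
        · simp
        · have h4 : (1 : ℝ) ≤ i := by exact_mod_cast h3
          nlinarith
    _ = _ := by
        rw [Finset.sum_const, Finset.card_range, nsmul_eq_mul]
        ring

theorem BP_bound : ∃ μ D : ℝ, 0 < μ ∧ μ < 1 ∧ 0 < D ∧ ∀ H t : ℕ,
    BP H t ≤ μ ^ t * H ^ 2 + D * (t + 1) ∧ AN H t ≤ μ ^ t * H ^ 2 + D * (t + 1) := by
  have hB : ∀ H t : ℕ, BP H t ≤ (991 / 1000 : ℝ) ^ t * H ^ 2 + 30000 * (t + 1) := by
    intro H t
    induction t with
    | zero =>
      have := BP_zero H
      rw [pow_zero, one_mul]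
      push_cast
      linarith
    | succ t ih =>
      have h1 := BP_succ H t
      have h2 := AN_le H t
      have h3 : BP H (t + 1) ≤ 991 / 1000 * BP H t + 401 / 2 * (t + 1) := by linarith
      refine h3.trans ?_
      rw [pow_succ]
      push_cast
      have h4 : (0 : ℝ) ≤ t := Nat.cast_nonneg _
      nlinarith
  refine ⟨991 / 1000, 30000, by norm_num, by norm_num, by norm_num, fun H t => ⟨hB H t, ?_⟩⟩
  have h1 := hB H t
  have h2 := AN_le H t
  have h3 : (0 : ℝ) ≤ (991 / 1000 : ℝ) ^ t * H ^ 2 := by positivity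
  have h4 : (0 : ℝ) ≤ t := Nat.cast_nonneg _
  nlinarith

end Pool.Agent.Lib.MP_e43fce_nt_coal
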