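import Pool.Agent.Lib.MP_e43fce_nt_coal.LongB
import Pool.Agent.Lib.MP_e43fce_nt_coal.Recur

/-!
Coalescence of Collatz orbits, long blocks: the final count.
-/

set_option autoImplicit false

namespace Pool.Agent.Lib.MP_e43fce_nt_coal

theorem fin_long : ∃ D : ℝ, 0 < D ∧ ∀ X m H : ℕ, 1 ≤ m → 1 ≤ H → 2 ^ m ≤ X →
    ((({n : ℕ | ∃ i ≤ H, C^[2 * m] (n + i) ≠ C^[2 * m] n} ∩ Set.Icc 1 X).ncard : ℝ)) ≤
      D * (1 + Real.log H) / √m * X := by
  classical
  obtain ⟨D1, hD1, hm1⟩ := long_mean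
  obtain ⟨μ, D2, hμ0, hμ1, hD2, hb⟩ := BP_bound
  have hlμ : 0 < -Real.log μ := by
    have := Real.log_neg hμ0 hμ1
    linarith
  set C0 : ℝ := 2 / (-Real.log μ) with hC0
  have hC0p : 0 < C0 := div_pos two_pos hlμ
  set D : ℝ := 2 * (C0 + 1) + 2 * D1 * (4 + 4 * D2) * (C0 + 1) with hD
  have hDp : 0 < D := by positivity
  refine ⟨D, hDp, ?_⟩
  intro X m H hm hH hX
  have hXpos : 0 < X := lt_of_lt_of_le (by positivity) hX
  have hXr : (0 : ℝ) < X := by exact_mod_cast hXpos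
  have hmr : (1 : ℝ) ≤ m := by exact_mod_cast hm
  have hHr : (1 : ℝ) ≤ H := by exact_mod_cast hH
  have hlogH : 0 ≤ Real.log H := Real.log_nonneg hHr
  set ℓ : ℝ := 1 + Real.log H with hℓ
  have hℓ1 : 1 ≤ ℓ := by linarith
  have hsm : 0 < √(m : ℝ) := Real.sqrt_pos.2 (by linarith)
  set t : ℕ := ⌈C0 * ℓ⌉₊ with ht
  have ht1 : C0 * ℓ ≤ t := Nat.le_ceil _
  have ht2 : (t : ℝ) < C0 * ℓ + 1 := Nat.ceil_lt_add_one (by positivity)
  have ht3 : (t : ℝ) ≤ (C0 + 1) * ℓ := by nlinarith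
  have htpos : 0 < t := Nat.ceil_pos.2 (by positivity)
  have ht4 : (1 : ℝ) ≤ t := by exact_mod_cast htpos
  have hset : ({n : ℕ | ∃ i ≤ H, C^[2 * m] (n + i) ≠ C^[2 * m] n} ∩ Set.Icc 1 X) =
      (((Finset.Icc 1 X).filter (fun n : ℕ => ∃ i < H + 1,
        C^[2 * m] (n + i) ≠ C^[2 * m] n) : Finset ℕ) : Set ℕ) := by
    ext n
    rw [Finset.mem_coe, Finset.mem_filter, Finset.mem_Icc]
    constructor
    · rintro ⟨⟨i, hi, hn⟩, hI⟩
      exact ⟨hI, i, by omega, hn⟩
    · rintro ⟨hI, i, hi, hn⟩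
      exact ⟨⟨i, by omega, hn⟩, hI⟩
  rw [hset, Set.ncard_coe_finset]
  by_cases hcase : m ≤ 2 * t
  · -- trivial case
    have h1 : (((Finset.Icc 1 X).filter (fun n : ℕ => ∃ i < H + 1,
        C^[2 * m] (n + i) ≠ C^[2 * m] n)).card : ℝ) ≤ X := by
      have h2 := Finset.card_filter_le (Finset.Icc 1 X) (fun n : ℕ => ∃ i < H + 1,
        C^[2 * m] (n + i) ≠ C^[2 * m] n)
      rw [Nat.card_Icc, Nat.add_sub_cancel] at h2
      exact_mod_cast h2
    refine h1.trans ?_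
    have h3 : (m : ℝ) ≤ 2 * t := by exact_mod_cast hcase
    have h4 : 1 ≤ D * ℓ / √(m : ℝ) := by
      rw [le_div_iff₀ hsm, one_mul]
      have h5 : √(m : ℝ) ≤ m := by
        rw [Real.sqrt_le_left (by linarith)]
        nlinarith
      have h6 : 2 * (C0 + 1) * ℓ ≤ D * ℓ := by
        apply mul_le_mul_of_nonneg_right _ (by linarith)
        have : 0 ≤ 2 * D1 * (4 + 4 * D2) * (C0 + 1) := by positivity
        linarith
      linarith
    nlinarith
  · push Not at hcase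
    set K : ℕ := m - t with hK
    have hK1 : 1 ≤ K := by omega
    have htK : t + K = m := by omega
    have hKm : (m : ℝ) ≤ 2 * K := by
      have : m ≤ 2 * K := by omega
      exact_mod_cast this
    have h1 := hm1 (H + 1) K t X hK1 (by rw [htK]; exact hX)
    rw [htK] at h1
    have h2 := hb (H + 1) t
    have h3 : μ ^ t * ((H + 1 : ℕ) : ℝ) ^ 2 ≤ 1 := by
      have h4 : μ ^ t = Real.exp (-(t * (-Real.log μ))) := by
        rw [mul_neg, neg_neg, Real.exp_nat_mul, Real.exp_log hμ0]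
      have h5 : ((H + 1 : ℕ) : ℝ) ≤ Real.exp ℓ := by
        rw [hℓ, Real.exp_add, Real.exp_log (by linarith)]
        push_cast
        have h6 : (2 : ℝ) ≤ Real.exp 1 := by
          have := Real.add_one_le_exp (1 : ℝ)
          linarith
        nlinarith
      have h7 : ((H + 1 : ℕ) : ℝ) ^ 2 ≤ Real.exp (2 * ℓ) := by
        rw [two_mul, Real.exp_add, ← sq]
        exact pow_le_pow_left₀ (by positivity) h5 2
      have h8 : 2 * ℓ ≤ t * (-Real.log μ) := by
        have h9 : C0 * (-Real.log μ) = 2 := by rw [hC0]; exact div_mul_cancel₀ _ hlμ.ne'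
        calc 2 * ℓ = (C0 * ℓ) * (-Real.log μ) := by rw [← h9]; ring
          _ ≤ t * (-Real.log μ) := mul_le_mul_of_nonneg_right ht1 hlμ.le
      rw [h4]
      calc Real.exp (-(t * (-Real.log μ))) * ((H + 1 : ℕ) : ℝ) ^ 2
          ≤ Real.exp (-(t * (-Real.log μ))) * Real.exp (2 * ℓ) :=
            mul_le_mul_of_nonneg_left h7 (Real.exp_pos _).le
        _ = Real.exp (-(t * (-Real.log μ)) + 2 * ℓ) := by rw [Real.exp_add]
        _ ≤ Real.exp 0 := Real.exp_le_exp.2 (by linarith)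
        _ = 1 := Real.exp_zero
    have h10 : (t : ℝ) + AN (H + 1) t + BP (H + 1) t ≤ (4 + 4 * D2) * ((C0 + 1) * ℓ) := by
      have h11 : D2 * ((t : ℝ) + 1) ≤ 2 * D2 * t := by nlinarith
      have h12 : (t : ℝ) + AN (H + 1) t + BP (H + 1) t ≤ (4 + 4 * D2) * t := by
        have := h2.1
        have := h2.2
        nlinarith
      exact h12.trans (mul_le_mul_of_nonneg_left ht3 (by positivity))
    have hsK : 0 < √(K : ℝ) := Real.sqrt_pos.2 (by exact_mod_cast hK1)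
    have h13 : √(m : ℝ) ≤ 2 * √(K : ℝ) := by
      calc √(m : ℝ) ≤ √(4 * (K : ℝ)) := Real.sqrt_le_sqrt (by linarith)
        _ = 2 * √(K : ℝ) := by
          rw [Real.sqrt_mul (by norm_num), show (4 : ℝ) = 2 ^ 2 by norm_num,
            Real.sqrt_sq (by norm_num)]
    have h14 : D1 * X / √(K : ℝ) ≤ 2 * D1 * X / √(m : ℝ) := by
      rw [div_le_div_iff₀ hsK hsm]
      have : 0 ≤ D1 * X := by positivity
      nlinarith
    have h15 : 0 ≤ (4 + 4 * D2) * ((C0 + 1) * ℓ) := by positivity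
    have h16 : (((Finset.Icc 1 X).filter (fun n : ℕ => ∃ i < H + 1,
        C^[2 * m] (n + i) ≠ C^[2 * m] n)).card : ℝ) ≤
        D1 * X / √K * (t + AN (H + 1) t + BP (H + 1) t) := by
      convert h1
    refine h16.trans ?_
    calc D1 * X / √K * (t + AN (H + 1) t + BP (H + 1) t)
        ≤ D1 * X / √K * ((4 + 4 * D2) * ((C0 + 1) * ℓ)) :=
          mul_le_mul_of_nonneg_left h10 (by positivity)
      _ ≤ 2 * D1 * X / √(m : ℝ) * ((4 + 4 * D2) * ((C0 + 1) * ℓ)) :=
          mul_le_mul_of_nonneg_right h14 h15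
      _ = (2 * D1 * (4 + 4 * D2) * (C0 + 1)) * ℓ / √(m : ℝ) * X := by ring
      _ ≤ D * ℓ / √(m : ℝ) * X := by
          apply mul_le_mul_of_nonneg_right _ hXr.le
          apply div_le_div_of_nonneg_right _ hsm.le
          apply mul_le_mul_of_nonneg_right _ (by linarith)
          have : 0 ≤ 2 * (C0 + 1) := by positivity
          linarith

end Pool.Agent.Lib.MP_e43fce_nt_coal
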