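import Pool.Agent.Lib.MP_e43fce_nt_coal.Defs2

/-!
Terras' lemma for the state `(number of odd steps, value)`, and the offsets.
-/

set_option autoImplicit false

namespace Pool.Agent.Lib.MP_e43fce_nt_coal

theorem st_succ (t x : ℕ) : st (t + 1) x = tstep (st t x) :=
  Function.iterate_succ_apply' tstep t (0, x)

/-- One step and a shift by an even multiple of the power of `3`. -/
private theorem terras_step (c : ℕ × ℕ) (m : ℕ) :
    tstep (shift (2 * m) c) = shift m (tstep c) := by
  obtain ⟨D, z⟩ := c
  unfold tstep shift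
  simp only
  have h1 : (z + 3 ^ D * (2 * m)) % 2 = z % 2 := by
    rw [show 3 ^ D * (2 * m) = 2 * (3 ^ D * m) by ring, Nat.add_mul_mod_self_left]
  by_cases h : z % 2 = 0
  · rw [if_pos (h1.trans h), if_pos h]
    have h2 : (z + 3 ^ D * (2 * m)) / 2 = z / 2 + 3 ^ D * m := by
      rw [show 3 ^ D * (2 * m) = 2 * (3 ^ D * m) by ring, Nat.add_mul_div_left _ _ two_pos]
    rw [h2]
  · rw [if_neg (fun h3 => h (h1.symm.trans h3)), if_neg h]
    have h2 : (3 * (z + 3 ^ D * (2 * m)) + 1) / 2 = (3 * z + 1) / 2 + 3 ^ (D + 1) * m := by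
      rw [show 3 * (z + 3 ^ D * (2 * m)) + 1 = 3 * z + 1 + 2 * (3 ^ (D + 1) * m) by ring,
        Nat.add_mul_div_left _ _ two_pos]
    rw [h2]

theorem st_add (t x m : ℕ) : st t (x + 2 ^ t * m) = shift m (st t x) := by
  induction t generalizing m with
  | zero =>
    unfold st shift
    simp
  | succ t ih =>
    rw [st_succ, st_succ, show 2 ^ (t + 1) * m = 2 ^ t * (2 * m) by ring, ih, terras_step]

theorem st_fst_le (t x : ℕ) : (st t x).1 ≤ t := by
  induction t with
  | zero => exact le_rfl
  | succ t ih =>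
    rw [st_succ]
    unfold tstep
    split_ifs
    · exact ih.trans (Nat.le_succ t)
    · exact Nat.succ_le_succ ih

theorem off_even (t n : ℕ) (c : ℕ × ℕ) (h : c.2 % 2 = 0) :
    off (t + 1) n (tstep c) = off t n c / 2 := by
  obtain ⟨D, z⟩ := c
  simp only at h
  unfold off tstep
  simp only
  rw [if_pos h]
  simp only
  obtain ⟨w, rfl⟩ := Nat.dvd_of_mod_eq_zero h
  rw [Nat.mul_div_cancel_left _ two_pos]
  push_cast
  rw [pow_succ]
  field_simp

theorem off_odd (t n : ℕ) (c : ℕ × ℕ) (h : c.2 % 2 ≠ 0) :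
    off (t + 1) n (tstep c) = (3 * off t n c + 1) / 2 := by
  obtain ⟨D, z⟩ := c
  simp only at h
  unfold off tstep
  simp only
  rw [if_neg h]
  simp only
  obtain ⟨w, hw⟩ : ∃ w, 3 * z + 1 = 2 * w := ⟨(3 * z + 1) / 2, by omega⟩
  rw [hw, Nat.mul_div_cancel_left _ two_pos]
  have h1 : 3 * (z : ℝ) + 1 = 2 * w := by exact_mod_cast hw
  rw [pow_succ, pow_succ]
  field_simp
  linear_combination (-(2 : ℝ) ^ t) * h1

theorem off_nonneg (t n i : ℕ) : 0 ≤ off t n (st t (n + i)) := by
  induction t with
  | zero =>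
    unfold off st
    simp
  | succ t ih =>
    rw [st_succ]
    by_cases h : (st t (n + i)).2 % 2 = 0
    · rw [off_even _ _ _ h]
      linarith
    · rw [off_odd _ _ _ h]
      linarith

theorem off_shift (t n m : ℕ) (c : ℕ × ℕ) : off t (n + 2 ^ t * m) (shift m c) = off t n c := by
  unfold off shift
  simp only
  push_cast
  field_simp
  ring

theorem st_C (t x : ℕ) : C^[t + (st t x).1] x = (st t x).2 := by
  induction t with
  | zero =>
    unfold st
    simp
  | succ t ih =>
    rw [st_succ]
    unfold tstep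
    split_ifs with h
    · simp only
      rw [show t + 1 + (st t x).1 = t + (st t x).1 + 1 by ring, Function.iterate_succ_apply', ih]
      unfold C
      rw [if_pos h]
    · simp only
      rw [show t + 1 + ((st t x).1 + 1) = t + (st t x).1 + 1 + 1 by ring,
        Function.iterate_succ_apply', Function.iterate_succ_apply', ih]
      have h1 : C (st t x).2 = 3 * (st t x).2 + 1 := by
        unfold C
        rw [if_neg h]
      rw [h1]
      unfold C
      rw [if_pos (by omega)]

end Pool.Agent.Lib.MP_e43fce_nt_coal
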