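import Pool.Agent.Lib.MP_e43fce_nt_coal.Coal
import Pool.Agent.Lib.MP_e43fce_nt_coal.Terras
import Pool.Agent.Lib.MP_e43fce_nt_coal.Lists

/-!
# Merging of the classes of a block
-/

set_option autoImplicit false

namespace Pool.Agent.Lib.MP_e43fce_nt_coal

private theorem mc_cast (n : ℕ) : ((C n : ℕ) : ℤ) = Cz n := by
  unfold C Cz
  by_cases h : n % 2 = 0
  · rw [if_pos h, if_pos (by omega)]
    omega
  · rw [if_neg h, if_neg (by omega)]
    push_cast
    ring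

private theorem mc_iter (j n : ℕ) : ((C^[j] n : ℕ) : ℤ) = Cz^[j] n := by
  induction j generalizing n with
  | zero => rfl
  | succ j ih => rw [Function.iterate_succ_apply, Function.iterate_succ_apply, ih, mc_cast]

private theorem mc_zip {α : Type*} {R : α → α → Prop} : ∀ (l : List α), l.Pairwise R →
    ∀ p ∈ l.zip l.tail, R p.1 p.2 ∧ p.1 ∈ l ∧ p.2 ∈ l
  | [], _, p, hp => by simp at hp
  | [a], _, p, hp => by simp at hp
  | a :: b :: l, h, p, hp => by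
    rw [List.pairwise_cons] at h
    have hp' : p = (a, b) ∨ p ∈ (b :: l).zip (b :: l).tail := by
      simpa using hp
    rcases hp' with rfl | hp'
    · exact ⟨h.1 b List.mem_cons_self, List.mem_cons_self, List.mem_cons_of_mem _ List.mem_cons_self⟩
    · obtain ⟨h1, h2, h3⟩ := mc_zip (b :: l) h.2 p hp'
      exact ⟨h1, List.mem_cons_of_mem _ h2, List.mem_cons_of_mem _ h3⟩

theorem merge_pair (K t m : ℕ) (c c' : ℕ × ℕ) (h : c.1 ≤ c'.1) (h' : c'.1 ≤ t)
    (hb : ¬ bad K (rel c c') ((c.2 : ℤ) + 3 ^ c.1 * m)) :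
    C^[2 * (t + K) - (t + c.1)] (c.2 + 3 ^ c.1 * m) =
      C^[2 * (t + K) - (t + c'.1)] (c'.2 + 3 ^ c'.1 * m) := by
  obtain ⟨j, hj, hj'⟩ := coal K _ _ hb
  obtain ⟨c1, c2⟩ := c
  obtain ⟨c1', c2'⟩ := c'
  simp only [rel] at h h' hj hj' ⊢
  have e1 : (3 : ℤ) ^ (c1' - c1) * ((c2 : ℤ) + 3 ^ c1 * m) + ((c2' : ℤ) - 3 ^ (c1' - c1) * (c2 : ℤ)) =
      ((c2' + 3 ^ c1' * m : ℕ) : ℤ) := by
    have e2 : (3 : ℤ) ^ c1' = 3 ^ (c1' - c1) * 3 ^ c1 := by
      rw [← pow_add]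
      congr 1
      omega
    push_cast
    rw [e2]
    ring
  have e3 : ((c2 : ℤ) + 3 ^ c1 * m) = ((c2 + 3 ^ c1 * m : ℕ) : ℤ) := by push_cast; ring
  rw [e1, e3, ← mc_iter, ← mc_iter] at hj'
  have e4 : C^[j + (c1' - c1)] (c2 + 3 ^ c1 * m) = C^[j] (c2' + 3 ^ c1' * m) := by exact_mod_cast hj'
  obtain ⟨r, hr⟩ : ∃ r, r = 2 * (t + K) - (t + c1') - j := ⟨_, rfl⟩
  rw [show 2 * (t + K) - (t + c1) = r + (j + (c1' - c1)) by omega,
    show 2 * (t + K) - (t + c1') = r + j by omega, Function.iterate_add_apply, e4,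
    ← Function.iterate_add_apply]

/-- if all neighbours merge, the whole block does -/
theorem merge_block (H K t n m : ℕ) (l : List (ℕ × ℕ)) (hl : l.toFinset = cls H t n)
    (hs : l.Pairwise (fun a b => a.1 ≤ b.1))
    (hb : ∀ p ∈ l.zip l.tail, ¬ bad K (rel p.1 p.2) ((p.1.2 : ℤ) + 3 ^ p.1.1 * m)) :
    ∀ i < H, ∀ j < H, C^[2 * (t + K)] (n + 2 ^ t * m + i) = C^[2 * (t + K)] (n + 2 ^ t * m + j) := by
  have hmem : ∀ i < H, st t (n + i) ∈ l := by
    intro i hi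
    rw [← List.mem_toFinset, hl]
    exact Finset.mem_image.2 ⟨i, Finset.mem_range.2 hi, rfl⟩
  have hle : ∀ c ∈ l, c.1 ≤ t := by
    intro c hc
    rw [← List.mem_toFinset, hl] at hc
    obtain ⟨i, -, rfl⟩ := Finset.mem_image.1 hc
    exact st_fst_le t (n + i)
  have key := adj_eq (fun c : ℕ × ℕ => C^[2 * (t + K) - (t + c.1)] (c.2 + 3 ^ c.1 * m)) l (by
    intro p hp
    obtain ⟨h1, h2, h3⟩ := mc_zip l hs p hp
    exact merge_pair K t m p.1 p.2 h1 (hle _ h3) (hb p hp))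
  have hF : ∀ i < H, C^[2 * (t + K)] (n + 2 ^ t * m + i) =
      C^[2 * (t + K) - (t + (st t (n + i)).1)] ((st t (n + i)).2 + 3 ^ (st t (n + i)).1 * m) := by
    intro i hi
    have e1 : n + 2 ^ t * m + i = n + i + 2 ^ t * m := by ring
    have e2 := st_C t (n + i + 2 ^ t * m)
    rw [st_add] at e2
    simp only [shift] at e2
    have e3 := st_fst_le t (n + i)
    rw [e1, ← e2, ← Function.iterate_add_apply]
    congr 1
    have e4 : 2 * (t + K) = 2 * (t + K) - (t + (st t (n + i)).1) + (t + (st t (n + i)).1) := by omega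
    rw [← e4]
  intro i hi j hj
  rw [hF i hi, hF j hj]
  exact key _ (hmem i hi) _ (hmem j hj)

end Pool.Agent.Lib.MP_e43fce_nt_coal
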