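import Pool.Agent.Lib.MP_e43fce_nt_coal.CountAff
import Pool.Agent.Lib.MP_e43fce_nt_coal.MergeC

/-!
Coalescence of Collatz orbits: counting the blocks of one residue class that have not merged.
-/

set_option autoImplicit false

namespace Pool.Agent.Lib.MP_e43fce_nt_coal

open Classical in
/-- union bound over a list -/
private theorem la_union {β : Type*} (B : β → ℕ → Prop) (Y : ℕ) (c : β → ℝ) (L : List β)
    (h : ∀ p ∈ L, (((Finset.range Y).filter (fun m => B p m)).card : ℝ) ≤ c p) :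
    (((Finset.range Y).filter (fun m => ∃ p ∈ L, B p m)).card : ℝ) ≤ (L.map c).sum := by
  induction L with
  | nil => simp
  | cons p L ih =>
    have h1 : (Finset.range Y).filter (fun m => ∃ q ∈ p :: L, B q m) ⊆
        (Finset.range Y).filter (fun m => B p m) ∪
          (Finset.range Y).filter (fun m => ∃ q ∈ L, B q m) := by
      intro m hm
      rw [Finset.mem_filter] at hm
      obtain ⟨hm1, q, hq, hm2⟩ := hm
      rw [Finset.mem_union, Finset.mem_filter, Finset.mem_filter]
      rcases List.mem_cons.mp hq with hqp | hq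
      · left
        rw [← hqp]
        exact ⟨hm1, hm2⟩
      · exact Or.inr ⟨hm1, q, hq, hm2⟩
    have h2 := (Finset.card_le_card h1).trans (Finset.card_union_le _ _)
    have h3 : (((Finset.range Y).filter (fun m => ∃ q ∈ p :: L, B q m)).card : ℝ) ≤
        (((Finset.range Y).filter (fun m => B p m)).card : ℝ) +
          (((Finset.range Y).filter (fun m => ∃ q ∈ L, B q m)).card : ℝ) := by
      exact_mod_cast h2
    rw [List.map_cons, List.sum_cons]
    have h4 := h p List.mem_cons_self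
    have h5 := ih fun q hq => h q (List.mem_cons_of_mem _ hq)
    linarith

theorem long_res (H K t n Y : ℕ) (l : List (ℕ × ℕ)) (hl : l.toFinset = cls H t n)
    (hs : l.Pairwise (fun a b => a.1 ≤ b.1)) : open Classical in
    (((Finset.range Y).filter (fun m : ℕ => ∃ i < H,
      C^[2 * (t + K)] (n + 2 ^ t * m + i) ≠ C^[2 * (t + K)] (n + 2 ^ t * m))).card : ℝ) ≤
      ((Y : ℝ) + 2 ^ K) * adj (fun a b => u K (rel a b)) l := by
  classical
  have h1 : (Finset.range Y).filter (fun m : ℕ => ∃ i < H,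
      C^[2 * (t + K)] (n + 2 ^ t * m + i) ≠ C^[2 * (t + K)] (n + 2 ^ t * m)) ⊆
      (Finset.range Y).filter (fun m : ℕ => ∃ p ∈ l.zip l.tail,
        bad K (rel p.1 p.2) ((p.1.2 : ℤ) + (3 ^ p.1.1 : ℕ) * m)) := by
    intro m hm
    rw [Finset.mem_filter] at hm ⊢
    refine ⟨hm.1, ?_⟩
    obtain ⟨i, hi, hne⟩ := hm.2
    by_contra hcon
    push Not at hcon
    apply hne
    have h2 := merge_block H K t n m l hl hs (fun p hp => by
      have h3 := hcon p hp
      push_cast at h3
      exact h3) i hi 0 (lt_of_le_of_lt (Nat.zero_le _) hi)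
    rw [add_zero] at h2
    exact h2
  have h2 := la_union (fun (p : (ℕ × ℕ) × (ℕ × ℕ)) (m : ℕ) =>
    bad K (rel p.1 p.2) ((p.1.2 : ℤ) + (3 ^ p.1.1 : ℕ) * m)) Y
    (fun p => ((Y : ℝ) + 2 ^ K) * u K (rel p.1 p.2)) (l.zip l.tail) (fun p _ => by
      exact count_aff K (rel p.1 p.2) p.1.2 (3 ^ p.1.1) Y
        (Nat.odd_iff.mp (Odd.pow (by decide))))
  have h3 : (((Finset.range Y).filter (fun m : ℕ => ∃ i < H,
      C^[2 * (t + K)] (n + 2 ^ t * m + i) ≠ C^[2 * (t + K)] (n + 2 ^ t * m))).card : ℝ) ≤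
      (((Finset.range Y).filter (fun m : ℕ => ∃ p ∈ l.zip l.tail,
        bad K (rel p.1 p.2) ((p.1.2 : ℤ) + (3 ^ p.1.1 : ℕ) * m))).card : ℝ) := by
    exact_mod_cast Finset.card_le_card h1
  refine h3.trans (h2.trans (le_of_eq ?_))
  rw [adj, ← List.sum_map_mul_left]

end Pool.Agent.Lib.MP_e43fce_nt_coal
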