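import Pool.Agent.Lib.MP_e43fce_nt_coal.Defs2
import Pool.Agent.Lib.MP_e43fce_nt_coal.Drift

/-!
Coalescence of Collatz orbits: the Lyapunov function of the relative state of two classes.
-/

set_option autoImplicit false

namespace Pool.Agent.Lib.MP_e43fce_nt_coal

/-- for classes with nonnegative offsets -/
theorem rel_V (t n : ℕ) (c c' : ℕ × ℕ) (h : c.1 ≤ c'.1) (h1 : 0 ≤ off t n c)
    (h2 : 0 ≤ off t n c') :
    V (rel c c') ≤ ((c'.1 : ℝ) - c.1) + 50020 + (√(off t n c) + √(off t n c')) := by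
  refine (V_le _).trans ?_
  have hd : ((rel c c').1 : ℝ) = (c'.1 : ℝ) - c.1 := by
    rw [rel, Nat.cast_sub h]
  rw [hd]
  have h3 : (0 : ℝ) < 3 ^ (c'.1 - c.1) := by positivity
  have h3' : (1 : ℝ) ≤ 3 ^ (c'.1 - c.1) := one_le_pow₀ (by norm_num)
  -- the `n`-parts cancel
  have hg : (((rel c c').2 : ℤ) : ℝ) = off t n c' - 3 ^ (c'.1 - c.1) * off t n c := by
    have h4 : (3 : ℝ) ^ c'.1 = 3 ^ (c'.1 - c.1) * 3 ^ c.1 := by
      rw [← pow_add, Nat.sub_add_cancel h]
    rw [rel, off, off, h4]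
    push_cast
    ring
  have habs : |(((rel c c').2 : ℤ) : ℝ)| / 3 ^ (rel c c').1 ≤ off t n c + off t n c' := by
    rw [hg, div_le_iff₀ (by rw [rel]; exact h3), abs_le]
    have h5 : (rel c c').1 = c'.1 - c.1 := rfl
    rw [h5]
    constructor
    · nlinarith [mul_nonneg h3.le h1, mul_nonneg h3.le h2]
    · nlinarith [mul_nonneg h3.le h1, mul_le_mul_of_nonneg_left h3' h2]
  have hrho : rho (rel c c') ≤ √(off t n c) + √(off t n c') := by
    rw [rho]
    refine (Real.sqrt_le_sqrt habs).trans ?_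
    rw [Real.sqrt_le_left (by positivity), add_sq, Real.sq_sqrt h1, Real.sq_sqrt h2]
    have h6 : 0 ≤ √(off t n c) * √(off t n c') := by positivity
    linarith
  linarith

end Pool.Agent.Lib.MP_e43fce_nt_coal
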