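import Pool.Agent.Lib.MP_e43fce_nt_coal.LongA
import Pool.Agent.Lib.MP_e43fce_nt_coal.RelV
import Pool.Agent.Lib.MP_e43fce_nt_coal.Lists
import Pool.Agent.Lib.MP_e43fce_nt_coal.Qdecay
import Pool.Agent.Lib.MP_e43fce_nt_coal.Cls

/-!
Coalescence of Collatz orbits, long blocks: the number of blocks which are not merged, in terms of
the mean number of classes and the mean of `Phi`.
-/

set_option autoImplicit false

namespace Pool.Agent.Lib.MP_e43fce_nt_coal

namespace LongB

theorem alg (p a b x y q : ℝ) (hq : 0 < q) :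
    p * (a * (q * b + x + y)) = p * q * (a * (b + x / q + y / q)) := by
  field_simp

open Classical in
/-- one residue class -/
theorem one_res {D0 : ℝ} (hD0 : 0 < D0)
    (hq : ∀ (K : ℕ), 1 ≤ K → ∀ s : St, u K s ≤ D0 * (V s + 1) / √K)
    (H K t n Y : ℕ) (hK : 1 ≤ K) :
    (((Finset.range Y).filter (fun m : ℕ => ∃ i < H,
      C^[2 * (t + K)] (n + 2 ^ t * m + i) ≠ C^[2 * (t + K)] (n + 2 ^ t * m))).card : ℝ) ≤
      ((Y : ℝ) + 2 ^ K) * (50021 * D0 / √K * (t + (cls H t n).card + Phi H t n)) := by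
  obtain ⟨l, hl, hnd, hs⟩ := exists_list (cls H t n)
  have h1 := long_res H K t n Y l hl hs
  refine h1.trans (mul_le_mul_of_nonneg_left ?_ (by positivity))
  have hmem : ∀ a ∈ l, a ∈ cls H t n := by
    intro a ha; rw [← hl]; exact List.mem_toFinset.2 ha
  have hsq : 0 < √(K : ℝ) := Real.sqrt_pos.2 (by exact_mod_cast hK)
  set α : ℝ := D0 / √K with hα
  have hα0 : 0 < α := div_pos hD0 hsq
  have h2 : adj (fun a b => u K (rel a b)) l ≤
      adj (fun a b => α * (fun a b : ℕ × ℕ => 1 * (fun a b : ℕ × ℕ => (b.1 : ℝ) - a.1) a b +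
        50021 * (fun _ _ : ℕ × ℕ => (1 : ℝ)) a b) a b +
        α * (fun a b : ℕ × ℕ => √(off t n a) + √(off t n b)) a b) l := by
    apply adj_mono _ _ _ _ hs
    intro a ha b hb hab
    have h3 := hq K hK (rel a b)
    have h4 := rel_V t n a b hab (cls_off H t n a (hmem a ha)) (cls_off H t n b (hmem b hb))
    refine h3.trans ?_
    rw [mul_div_right_comm, ← hα]
    have h5 : α * (V (rel a b) + 1) ≤ α * (((b.1 : ℝ) - a.1) + 50020 +
        (√(off t n a) + √(off t n b)) + 1) := mul_le_mul_of_nonneg_left (by linarith) hα0.le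
    refine h5.trans (le_of_eq ?_)
    ring
  refine h2.trans ?_
  rw [adj_add, adj_add]
  have h6 := adj_fst l t (fun c hc => cls_fst H t n c (hmem c hc)) hs
  have h7 := adj_const l
  have h8 := adj_sum (fun c => √(off t n c)) (fun c => Real.sqrt_nonneg _) l
  have h9 : (l.length : ℝ) = (cls H t n).card := by
    rw [← hl, List.toFinset_card_of_nodup hnd]
  have h10 : (l.map (fun c => √(off t n c))).sum = Phi H t n := by
    rw [Phi, ← hl, List.sum_toFinset _ hnd]
  rw [h10] at h8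
  have h11 : 0 ≤ Phi H t n := Finset.sum_nonneg (fun c _ => Real.sqrt_nonneg _)
  have h12 : 50021 * D0 / √K = 50021 * α := by rw [hα]; ring
  rw [h12]
  have h13 : α * adj (fun a b : ℕ × ℕ => (b.1 : ℝ) - a.1) l ≤ α * t :=
    mul_le_mul_of_nonneg_left h6 hα0.le
  have h14 : α * adj (fun _ _ : ℕ × ℕ => (1 : ℝ)) l ≤ α * (cls H t n).card :=
    mul_le_mul_of_nonneg_left (by rw [← h9]; exact h7) hα0.le
  have h15 : α * adj (fun a b : ℕ × ℕ => √(off t n a) + √(off t n b)) l ≤ α * (2 * Phi H t n) :=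
    mul_le_mul_of_nonneg_left h8 hα0.le
  have h16 : 0 ≤ α * (t : ℝ) := by positivity
  have h17 : 0 ≤ α * Phi H t n := by positivity
  nlinarith

end LongB

theorem long_mean : ∃ D : ℝ, 0 < D ∧ ∀ H K t X : ℕ, 1 ≤ K → 2 ^ (t + K) ≤ X → open Classical in
    (((Finset.Icc 1 X).filter (fun n : ℕ => ∃ i < H,
      C^[2 * (t + K)] (n + i) ≠ C^[2 * (t + K)] n)).card : ℝ) ≤
      D * X / √K * (t + AN H t + BP H t) := by
  classical
  obtain ⟨D0, hD0, hq⟩ := qdecay
  refine ⟨3 * (50021 * D0), by positivity, ?_⟩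
  intro H K t X hK hX
  set P : ℕ → Prop := fun n => ∃ i < H, C^[2 * (t + K)] (n + i) ≠ C^[2 * (t + K)] n with hP
  have hsq : 0 < √(K : ℝ) := Real.sqrt_pos.2 (by exact_mod_cast hK)
  set Y := X / 2 ^ t + 1 with hY
  have h2t : 0 < 2 ^ t := by positivity
  have h1 : ((Finset.Icc 1 X).filter P).card ≤
      ∑ n ∈ Finset.range (2 ^ t), ((Finset.range Y).filter (fun m => P (n + 2 ^ t * m))).card := by
    have h2 : ((Finset.Icc 1 X).filter P) ⊆ (Finset.range (2 ^ t)).biUnion
        (fun n => ((Finset.range Y).filter (fun m => P (n + 2 ^ t * m))).image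
          (fun m => n + 2 ^ t * m)) := by
      intro x hx
      rw [Finset.mem_filter, Finset.mem_Icc] at hx
      rw [Finset.mem_biUnion]
      have hx2 : x % 2 ^ t + 2 ^ t * (x / 2 ^ t) = x := Nat.mod_add_div x (2 ^ t)
      refine ⟨x % 2 ^ t, Finset.mem_range.2 (Nat.mod_lt _ h2t), ?_⟩
      rw [Finset.mem_image]
      refine ⟨x / 2 ^ t, ?_, hx2⟩
      rw [Finset.mem_filter, Finset.mem_range, hx2]
      exact ⟨Nat.lt_succ_of_le (Nat.div_le_div_right hx.1.2), hx.2⟩
    refine (Finset.card_le_card h2).trans (Finset.card_biUnion_le.trans ?_)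
    exact Finset.sum_le_sum (fun n _ => Finset.card_image_le)
  have h3 : ∀ n ∈ Finset.range (2 ^ t),
      (((Finset.range Y).filter (fun m => P (n + 2 ^ t * m))).card : ℝ) ≤
        ((Y : ℝ) + 2 ^ K) * (50021 * D0 / √K * (t + (cls H t n).card + Phi H t n)) := by
    intro n _
    have := LongB.one_res hD0 hq H K t n Y hK
    convert this using 3
  have h4 : (((Finset.Icc 1 X).filter P).card : ℝ) ≤ ∑ n ∈ Finset.range (2 ^ t),
      ((Y : ℝ) + 2 ^ K) * (50021 * D0 / √K * (t + (cls H t n).card + Phi H t n)) := by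
    refine le_trans ?_ (Finset.sum_le_sum h3)
    exact_mod_cast h1
  have h5 : ∑ n ∈ Finset.range (2 ^ t),
      ((Y : ℝ) + 2 ^ K) * (50021 * D0 / √K * (t + (cls H t n).card + Phi H t n)) =
      (((Y : ℝ) + 2 ^ K) * 2 ^ t) * (50021 * D0 / √K * (t + AN H t + BP H t)) := by
    rw [← Finset.mul_sum, ← Finset.mul_sum, Finset.sum_add_distrib, Finset.sum_add_distrib,
      Finset.sum_const, Finset.card_range, nsmul_eq_mul, AN, BP]
    push_cast
    exact LongB.alg _ _ _ _ _ _ (by positivity)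
  have h6 : ((Y : ℝ) + 2 ^ K) * 2 ^ t ≤ 3 * X := by
    have h7 : Y * 2 ^ t ≤ X + 2 ^ t := by
      rw [hY, add_mul, one_mul]
      exact Nat.add_le_add_right (Nat.div_mul_le_self X (2 ^ t)) _
    have h8 : 2 ^ K * 2 ^ t ≤ X := by rw [← pow_add, add_comm]; exact hX
    have h9 : 2 ^ t ≤ X := (Nat.pow_le_pow_right (by norm_num) (by omega)).trans hX
    have h10 : (Y + 2 ^ K) * 2 ^ t ≤ 3 * X := by rw [add_mul]; omega
    exact_mod_cast h10
  have h11 : 0 ≤ AN H t := by
    unfold AN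
    exact div_nonneg (Finset.sum_nonneg (fun n _ => Nat.cast_nonneg _)) (by positivity)
  have h12 : 0 ≤ BP H t := by
    unfold BP
    refine div_nonneg (Finset.sum_nonneg (fun n _ => ?_)) (by positivity)
    exact Finset.sum_nonneg (fun c _ => Real.sqrt_nonneg _)
  have h13 : 0 ≤ 50021 * D0 / √K * (t + AN H t + BP H t) :=
    mul_nonneg (div_nonneg (by positivity) hsq.le)
      (add_nonneg (add_nonneg (Nat.cast_nonneg t) h11) h12)
  have h14 : (((Finset.Icc 1 X).filter P).card : ℝ) ≤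
      3 * (50021 * D0) * X / √K * (t + AN H t + BP H t) := by
    refine h4.trans ?_
    rw [h5]
    refine (mul_le_mul_of_nonneg_right h6 h13).trans (le_of_eq ?_)
    ring
  convert h14

end Pool.Agent.Lib.MP_e43fce_nt_coal
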