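import Pool.Agent.Lib.MP_e43fce_nt_coal.InvBlock

/-!
Coalescence of Collatz orbits: for almost all `n` the first passage times to a finite set or below
a slowly growing bound are constant on the block `[n, n + exp ((log n) ^ (1/3))]`.
-/

set_option autoImplicit false

namespace Pool.Agent.Lib.MP_e43fce_nt_coal

open Filter

/-- a nondecreasing function is constant on most intervals -/
theorem mono_jump (f : ℕ → ℕ) (hf : Monotone f) (H X : ℕ) :
    ({n : ℕ | f (n + H) ≠ f n} ∩ Set.Icc 1 X).ncard ≤ H * f (X + H) := by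
  classical
  have h1 : ∑ x ∈ Finset.range (X + 1), f (H + x) ≤
      ∑ x ∈ Finset.range (X + 1), f x + H * f (X + H) := by
    have e1 := Finset.sum_range_add f H (X + 1)
    have e2 := Finset.sum_range_add f (X + 1) H
    rw [show H + (X + 1) = X + 1 + H by ring] at e1
    have e3 : ∑ x ∈ Finset.range H, f (X + 1 + x) ≤ H * f (X + H) := by
      calc ∑ x ∈ Finset.range H, f (X + 1 + x) ≤ ∑ x ∈ Finset.range H, f (X + H) :=
            Finset.sum_le_sum (fun x hx => hf (by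
              have := Finset.mem_range.mp hx
              omega))
        _ = H * f (X + H) := by rw [Finset.sum_const, Finset.card_range, smul_eq_mul]
    omega
  have h2 : ∑ x ∈ Finset.range (X + 1), (f x + if f (x + H) ≠ f x then 1 else 0) ≤
      ∑ x ∈ Finset.range (X + 1), f (H + x) := by
    apply Finset.sum_le_sum
    intro x _
    have := hf (show x ≤ x + H by omega)
    rw [add_comm H x]
    split_ifs with h
    · omega
    · omega
  rw [Finset.sum_add_distrib] at h2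
  have h3 : ({n : ℕ | f (n + H) ≠ f n} ∩ Set.Icc 1 X).ncard ≤
      ∑ x ∈ Finset.range (X + 1), (if f (x + H) ≠ f x then 1 else 0) := by
    rw [← Finset.card_filter, ← Set.ncard_coe_finset]
    apply Set.ncard_le_ncard
    · rintro n ⟨hn1, hn2⟩
      simp only [Finset.coe_filter, Finset.mem_range, Set.mem_ofPred_eq]
      exact ⟨by have := hn2.2; omega, hn1⟩
    · exact Finset.finite_toSet _
  omega

theorem tendsto_bd (D : ℝ) : Tendsto (fun X : ℕ =>
    D * (1 + (Real.log X) ^ ((1 : ℝ) / 3)) / √(Real.log X) + 2 / √(Real.log X)) atTop (nhds 0) := by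
  have hlog : Tendsto (fun X : ℕ => Real.log (X : ℝ)) atTop atTop :=
    Real.tendsto_log_atTop.comp tendsto_natCast_atTop_atTop
  have h1 : Tendsto (fun y : ℝ => D * (y ^ (-((1 : ℝ) / 2)) + y ^ (-((1 : ℝ) / 6))) +
      2 * y ^ (-((1 : ℝ) / 2))) atTop (nhds (D * (0 + 0) + 2 * 0)) :=
    (((tendsto_rpow_neg_atTop (by norm_num)).add
      (tendsto_rpow_neg_atTop (by norm_num))).const_mul D).add
      ((tendsto_rpow_neg_atTop (by norm_num)).const_mul 2)
  have h2 : Tendsto (fun y : ℝ => D * (1 + y ^ ((1 : ℝ) / 3)) / √y + 2 / √y) atTop (nhds 0) := by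
    have h3 : (D * (0 + 0) + 2 * 0 : ℝ) = 0 := by ring
    rw [h3] at h1
    refine h1.congr' ?_
    filter_upwards [eventually_gt_atTop (0 : ℝ)] with y hy
    have e1 : √y = y ^ ((1 : ℝ) / 2) := Real.sqrt_eq_rpow y
    have e2 : y ^ (-((1 : ℝ) / 2)) = (y ^ ((1 : ℝ) / 2))⁻¹ := Real.rpow_neg hy.le _
    have e3 : y ^ (-((1 : ℝ) / 6)) = y ^ ((1 : ℝ) / 3) * (y ^ ((1 : ℝ) / 2))⁻¹ := by
      rw [← Real.rpow_neg hy.le, ← Real.rpow_add hy]
      norm_num
    rw [e1, e2, e3]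
    ring
  exact h2.comp hlog

/-- the set of the `n` for which the passage time is not constant on a long block has density `0` -/
theorem blk_density (S : Finset ℕ) (f : ℕ → ℕ) (hf : Monotone f)
    (hs : Tendsto (fun n : ℕ => Real.log (f n) / √(Real.log n)) atTop (nhds 0)) :
    Tendsto (fun X : ℕ => (({n : ℕ | ∃ i : ℕ, (i : ℝ) ≤ Real.exp ((Real.log n) ^ ((1 : ℝ) / 3)) ∧
      tau S f (n + i) ≠ tau S f n} ∩ Set.Icc 1 X).ncard : ℝ) / X) atTop (nhds 0) := by
  obtain ⟨D0, hD0, hlong⟩ := fin_long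
  obtain ⟨X0, hX02, hX0⟩ := exists_m2
  -- eventual inequalities
  have hcast : Tendsto (fun X : ℕ => (X : ℝ)) atTop atTop := tendsto_natCast_atTop_atTop
  have hlog : Tendsto (fun X : ℕ => Real.log (X : ℝ)) atTop atTop :=
    Real.tendsto_log_atTop.comp hcast
  have q1 : ∀ᶠ n : ℕ in atTop, Real.log (f n) / √(Real.log n) < 1 / 8 :=
    hs.eventually (gt_mem_nhds (by norm_num))
  have q2 : ∀ᶠ X : ℕ in atTop, Real.log (f (2 * X)) / √(Real.log ((2 * X : ℕ) : ℝ)) < 1 / 8 := by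
    obtain ⟨N, hN⟩ := eventually_atTop.mp q1
    exact eventually_atTop.mpr ⟨N, fun X hX => hN (2 * X) (by omega)⟩
  have q3 : ∀ᶠ y : ℝ in atTop, y ^ ((1 : ℝ) / 3) ≤ √y / 4 := by
    have h1 : Tendsto (fun y : ℝ => y ^ (-((1 : ℝ) / 6))) atTop (nhds 0) :=
      tendsto_rpow_neg_atTop (by norm_num)
    filter_upwards [h1.eventually (gt_mem_nhds (show (0 : ℝ) < 1 / 4 by norm_num)),
      eventually_gt_atTop (0 : ℝ)] with y hy1 hy
    have e1 : √y = y ^ ((1 : ℝ) / 2) := Real.sqrt_eq_rpow y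
    have e3 : y ^ ((1 : ℝ) / 3) = y ^ ((1 : ℝ) / 2) * y ^ (-((1 : ℝ) / 6)) := by
      rw [← Real.rpow_add hy]
      norm_num
    rw [e1, e3]
    have : 0 < y ^ ((1 : ℝ) / 2) := Real.rpow_pos_of_pos hy _
    nlinarith
  have q4 : ∀ᶠ y : ℝ in atTop, ((S.sup id : ℕ) : ℝ) ≤ Real.exp (√y / 4) := by
    have h1 : Tendsto (fun y : ℝ => Real.exp (√y / 4)) atTop atTop :=
      Real.tendsto_exp_atTop.comp (Real.tendsto_sqrt_atTop.atTop_div_const (by norm_num))
    exact h1.eventually_ge_atTop _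
  have q34 := hlog.eventually (q3.and (q4.and (eventually_ge_atTop (1 : ℝ))))
  refine squeeze_zero' (g := fun X : ℕ =>
    4 * D0 * (1 + (Real.log X) ^ ((1 : ℝ) / 3)) / √(Real.log X) + 2 / √(Real.log X))
    (Eventually.of_forall (fun X => by positivity)) ?_ (tendsto_bd _)
  filter_upwards [q2, q34, eventually_ge_atTop X0] with X hq2 hq34 hX
  obtain ⟨hq3, hq4, hL1⟩ := hq34
  obtain ⟨m, hm1, hm2, hm3, hm4, -⟩ := hX0 X hX
  have hX2 : 2 ≤ X := by omega
  have hXpos : (0 : ℝ) < X := by exact_mod_cast (by omega : 0 < X)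
  set L := Real.log (X : ℝ) with hLdef
  have hsL : 0 < √L := Real.sqrt_pos.mpr (by linarith)
  -- the block length
  set H := ⌊Real.exp (L ^ ((1 : ℝ) / 3))⌋₊ with hHdef
  have hL3 : 0 ≤ L ^ ((1 : ℝ) / 3) := Real.rpow_nonneg (by linarith) _
  have hH1 : 1 ≤ H := by
    rw [hHdef, Nat.one_le_floor_iff]
    exact Real.one_le_exp hL3
  have hHle : (H : ℝ) ≤ Real.exp (L ^ ((1 : ℝ) / 3)) := Nat.floor_le (Real.exp_pos _).le
  have hHexp : (H : ℝ) ≤ Real.exp (√L / 4) := hHle.trans (Real.exp_le_exp.mpr hq3)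
  have hlogH : Real.log H ≤ L ^ ((1 : ℝ) / 3) := by
    have h1 : (0 : ℝ) < H := by exact_mod_cast hH1
    calc Real.log H ≤ Real.log (Real.exp (L ^ ((1 : ℝ) / 3))) := Real.log_le_log h1 hHle
      _ = _ := Real.log_exp _
  -- the size of `f (2 X)`
  have hL2X : Real.log ((2 * X : ℕ) : ℝ) = Real.log 2 + L := by
    push_cast
    rw [Real.log_mul (by norm_num) (by positivity)]
  have hlog2 : Real.log 2 ≤ 1 := by
    have := Real.log_two_lt_d9
    linarith
  have hlog2' : 0 < Real.log 2 := Real.log_pos (by norm_num)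
  have hsq : √(Real.log ((2 * X : ℕ) : ℝ)) ≤ 2 * √L := by
    rw [Real.sqrt_le_left (by positivity), mul_pow, Real.sq_sqrt (by linarith), hL2X]
    linarith
  have hf2 : Real.log (f (2 * X)) ≤ √L / 4 := by
    have h1 : 0 < √(Real.log ((2 * X : ℕ) : ℝ)) := Real.sqrt_pos.mpr (by rw [hL2X]; linarith)
    rw [div_lt_iff₀ h1] at hq2
    linarith
  have hfexp : ((f (2 * X) : ℕ) : ℝ) ≤ Real.exp (√L / 4) := by
    rcases Nat.eq_zero_or_pos (f (2 * X)) with h0 | h0
    · rw [h0]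
      push_cast
      exact (Real.exp_pos _).le
    · have h1 : (0 : ℝ) < (f (2 * X) : ℕ) := by exact_mod_cast h0
      calc ((f (2 * X) : ℕ) : ℝ) = Real.exp (Real.log (f (2 * X))) := (Real.exp_log h1).symm
        _ ≤ Real.exp (√L / 4) := Real.exp_le_exp.mpr hf2
  -- consequences of the choice of `m`
  have hm1r : (1 : ℝ) ≤ m := by exact_mod_cast hm1
  have hpow1 : (1 : ℝ) ≤ (2 : ℝ) ^ (2 * m) := one_le_pow₀ (by norm_num)
  have hE0 : 0 < Real.exp (√L) := Real.exp_pos _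
  have hbig1 : Real.exp (√L) ≤ X / √L := by
    refine le_trans ?_ hm4
    have h1 : Real.exp (√L) ≤ 4 * Real.exp (√L) * (2 * m) := by nlinarith
    have h2 : 4 * Real.exp (√L) * (2 * m) ≤ 4 * Real.exp (√L) * (2 * m) * (2 : ℝ) ^ (2 * m) := by
      have : 0 ≤ 4 * Real.exp (√L) * (2 * m) := by positivity
      nlinarith
    linarith
  have hHX : H ≤ X := by
    have h1 : Real.exp (√L / 4) ≤ Real.exp (√L) := Real.exp_le_exp.mpr (by linarith)
    have h2 : (X : ℝ) / √L ≤ X := by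
      apply div_le_self hXpos.le
      rw [Real.one_le_sqrt]
      exact hL1
    have : (H : ℝ) ≤ X := by linarith
    exact_mod_cast this
  set R := S.sup id + f (2 * X) with hR
  have hS : ∀ a ∈ S, a ≤ R := fun a ha => by
    have : a ≤ S.sup id := Finset.le_sup (f := id) ha
    omega
  have hsub : ({n : ℕ | ∃ i : ℕ, (i : ℝ) ≤ Real.exp ((Real.log n) ^ ((1 : ℝ) / 3)) ∧
      tau S f (n + i) ≠ tau S f n} ∩ Set.Icc 1 X) ⊆
      (({n : ℕ | ∃ i ≤ H, C^[2 * m] (n + i) ≠ C^[2 * m] n} ∩ Set.Icc 1 X) ∪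
        ({n : ℕ | f (n + H) ≠ f n} ∩ Set.Icc 1 X)) ∪ Set.Icc 1 (2 ^ (2 * m) * R) := by
    rintro n ⟨⟨i, hi, hne⟩, hn⟩
    have hn1 : 1 ≤ n := hn.1
    have hnX : n ≤ X := hn.2
    have hiH : i ≤ H := by
      apply Nat.le_floor
      refine hi.trans (Real.exp_le_exp.mpr ?_)
      apply Real.rpow_le_rpow (Real.log_nonneg (by exact_mod_cast hn1)) _ (by norm_num)
      exact Real.log_le_log (by exact_mod_cast hn1) (by exact_mod_cast hnX)
    by_cases hbig : 2 ^ (2 * m) * R < n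
    · left
      by_cases hfn : f (n + H) = f n
      · left
        refine ⟨⟨i, hiH, fun heq => hne ?_⟩, hn⟩
        have h1 : f n ≤ f (n + i) := hf (by omega)
        have h2 : f (n + i) ≤ f (n + H) := hf (by omega)
        have h3 : f (n + i) ≤ f (2 * X) := hf (by omega)
        exact tau_congr hS (by omega) (by omega) heq (by omega) hbig
      · right
        exact ⟨hfn, hn⟩
    · right
      exact ⟨hn.1, not_lt.mp hbig⟩
  have hlongX := hlong X m H hm1 hH1 hm2
  have hjump := mono_jump f hf H X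
  have hcount : ((({n : ℕ | ∃ i : ℕ, (i : ℝ) ≤ Real.exp ((Real.log n) ^ ((1 : ℝ) / 3)) ∧
      tau S f (n + i) ≠ tau S f n} ∩ Set.Icc 1 X).ncard : ℝ)) ≤
      D0 * (1 + Real.log H) / √m * X + H * f (X + H) + (2 : ℝ) ^ (2 * m) * R := by
    have hfin : ((({n : ℕ | ∃ i ≤ H, C^[2 * m] (n + i) ≠ C^[2 * m] n} ∩ Set.Icc 1 X) ∪
        ({n : ℕ | f (n + H) ≠ f n} ∩ Set.Icc 1 X)) ∪ Set.Icc 1 (2 ^ (2 * m) * R)).Finite :=
      (((Set.finite_Icc 1 X).subset Set.inter_subset_right).union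
        ((Set.finite_Icc 1 X).subset Set.inter_subset_right)).union (Set.finite_Icc _ _)
    have h3 := ((Set.ncard_le_ncard hsub hfin).trans (Set.ncard_union_le _ _)).trans
      (Nat.add_le_add_right (Set.ncard_union_le _ _) _)
    have h4 : (Set.Icc 1 (2 ^ (2 * m) * R)).ncard = 2 ^ (2 * m) * R := by
      rw [← Finset.coe_Icc, Set.ncard_coe_finset, Nat.card_Icc]
      omega
    rw [h4] at h3
    have h5 := h3.trans (Nat.add_le_add_right (Nat.add_le_add_left hjump _) _)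
    have h6 : ((({n : ℕ | ∃ i : ℕ, (i : ℝ) ≤ Real.exp ((Real.log n) ^ ((1 : ℝ) / 3)) ∧
      tau S f (n + i) ≠ tau S f n} ∩ Set.Icc 1 X).ncard : ℝ)) ≤
      ((({n : ℕ | ∃ i ≤ H, C^[2 * m] (n + i) ≠ C^[2 * m] n} ∩ Set.Icc 1 X).ncard +
        H * f (X + H) + 2 ^ (2 * m) * R : ℕ) : ℝ) := by exact_mod_cast h5
    push_cast at h6
    linarith
  rw [div_le_iff₀ hXpos]
  have hsm : √L / 4 ≤ √m := by
    apply Real.le_sqrt_of_sq_le
    rw [div_pow, Real.sq_sqrt (by linarith)]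
    norm_num
    linarith
  have hlogH0 : 0 ≤ Real.log H := Real.log_nonneg (by exact_mod_cast hH1)
  have t1 : D0 * (1 + Real.log H) / √m * X ≤
      4 * D0 * (1 + L ^ ((1 : ℝ) / 3)) / √L * X := by
    apply mul_le_mul_of_nonneg_right _ hXpos.le
    calc D0 * (1 + Real.log H) / √m ≤ D0 * (1 + Real.log H) / (√L / 4) :=
          div_le_div_of_nonneg_left (by positivity) (by positivity) hsm
      _ ≤ D0 * (1 + L ^ ((1 : ℝ) / 3)) / (√L / 4) := by
          apply div_le_div_of_nonneg_right _ (by positivity)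
          nlinarith
      _ = 4 * D0 * (1 + L ^ ((1 : ℝ) / 3)) / √L := by field_simp
  have hexp2 : Real.exp (√L / 4) * Real.exp (√L / 4) ≤ Real.exp (√L) := by
    rw [← Real.exp_add]
    exact Real.exp_le_exp.mpr (by linarith)
  have t2 : (H : ℝ) * f (X + H) ≤ 1 / √L * X := by
    have h1 : ((f (X + H) : ℕ) : ℝ) ≤ Real.exp (√L / 4) := by
      refine le_trans ?_ hfexp
      exact_mod_cast hf (show X + H ≤ 2 * X by omega)
    calc (H : ℝ) * f (X + H) ≤ Real.exp (√L / 4) * Real.exp (√L / 4) :=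
          mul_le_mul hHexp h1 (by positivity) (Real.exp_pos _).le
      _ ≤ X / √L := hexp2.trans hbig1
      _ = 1 / √L * X := by ring
  have t3 : (2 : ℝ) ^ (2 * m) * R ≤ 1 / √L * X := by
    have h1 : (R : ℝ) ≤ 2 * Real.exp (√L) := by
      have h2 : Real.exp (√L / 4) ≤ Real.exp (√L) := Real.exp_le_exp.mpr (by linarith)
      rw [hR]
      push_cast
      linarith
    calc (2 : ℝ) ^ (2 * m) * R ≤ (2 : ℝ) ^ (2 * m) * (2 * Real.exp (√L)) :=
          mul_le_mul_of_nonneg_left h1 (by positivity)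
      _ ≤ 4 * Real.exp (√L) * (2 * m) * (2 : ℝ) ^ (2 * m) := by
          have : 0 ≤ (2 : ℝ) ^ (2 * m) * Real.exp (√L) := by positivity
          nlinarith
      _ ≤ X / √L := hm4
      _ = 1 / √L * X := by ring
  calc _ ≤ _ := hcount
    _ ≤ 4 * D0 * (1 + L ^ ((1 : ℝ) / 3)) / √L * X + 1 / √L * X + 1 / √L * X := by linarith
    _ = (4 * D0 * (1 + L ^ ((1 : ℝ) / 3)) / √L + 2 / √L) * X := by ring

end Pool.Agent.Lib.MP_e43fce_nt_coal
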