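import Pool.Agent.Lib.MP_e43fce_nt_coal.PassBlk
import Pool.Agent.Lib.MP_e43fce_ps.TS3

/-!
The law of the first passage times of Collatz orbits on long blocks.
-/

set_option autoImplicit false

namespace Pool.Agent.Lib.MP_e43fce_nt_coal

open Filter

/-- `f` is nondecreasing and `log (f n) / sqrt (log n)` tends to `0` -/
def Slow (f : ℕ → ℕ) : Prop := Monotone f ∧
  Filter.Tendsto (fun n : ℕ => Real.log (f n) / Real.sqrt (Real.log n)) Filter.atTop (nhds 0)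

/-- `S` has natural density `δ` -/
def HasDensity (S : Set ℕ) (δ : ℝ) : Prop :=
  Filter.Tendsto (fun X : ℕ => ((S ∩ Set.Icc 1 X).ncard : ℝ) / X) Filter.atTop (nhds δ)

/-- `tau S f` is constant on the block `[n, n + exp ((log n) ^ (1/3))]` -/
def Blk (S : Finset ℕ) (f : ℕ → ℕ) (n : ℕ) : Prop :=
  ∀ i : ℕ, (i : ℝ) ≤ Real.exp (Real.log n ^ ((1 : ℝ) / 3)) → tau S f (n + i) = tau S f n

theorem dens_diff {A B : Set ℕ} {α : ℝ} (hA : HasDensity A α) (hB : HasDensity B 0) :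
    HasDensity (A \ B) α := by
  unfold HasDensity at *
  have h1 : Tendsto (fun X : ℕ => ((A ∩ Set.Icc 1 X).ncard : ℝ) / X -
      ((B ∩ Set.Icc 1 X).ncard : ℝ) / X) atTop (nhds α) := by
    have := hA.sub hB
    simpa using this
  refine tendsto_of_tendsto_of_tendsto_of_le_of_le h1 hA ?_ ?_
  · intro X
    have hfin : (B ∩ Set.Icc 1 X).Finite := (Set.finite_Icc 1 X).subset Set.inter_subset_right
    have hfin2 : ((A \ B) ∩ Set.Icc 1 X).Finite :=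
      (Set.finite_Icc 1 X).subset Set.inter_subset_right
    have h2 : (A ∩ Set.Icc 1 X).ncard ≤
        ((A \ B) ∩ Set.Icc 1 X).ncard + (B ∩ Set.Icc 1 X).ncard := by
      refine (Set.ncard_le_ncard ?_ (hfin2.union hfin)).trans (Set.ncard_union_le _ _)
      rintro n ⟨hn1, hn2⟩
      by_cases hb : n ∈ B
      · exact Or.inr ⟨hb, hn2⟩
      · exact Or.inl ⟨⟨hn1, hb⟩, hn2⟩
    have h3 : ((A ∩ Set.Icc 1 X).ncard : ℝ) ≤
        ((A \ B) ∩ Set.Icc 1 X).ncard + (B ∩ Set.Icc 1 X).ncard := by exact_mod_cast h2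
    show ((A ∩ Set.Icc 1 X).ncard : ℝ) / X - ((B ∩ Set.Icc 1 X).ncard : ℝ) / X ≤
      (((A \ B) ∩ Set.Icc 1 X).ncard : ℝ) / X
    rw [← sub_div]
    apply div_le_div_of_nonneg_right _ (Nat.cast_nonneg X)
    linarith
  · intro X
    have h2 : ((A \ B) ∩ Set.Icc 1 X).ncard ≤ (A ∩ Set.Icc 1 X).ncard := by
      apply Set.ncard_le_ncard _ ((Set.finite_Icc 1 X).subset Set.inter_subset_right)
      rintro n ⟨hn1, hn2⟩
      exact ⟨hn1.1, hn2⟩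
    show (((A \ B) ∩ Set.Icc 1 X).ncard : ℝ) / X ≤ ((A ∩ Set.Icc 1 X).ncard : ℝ) / X
    apply div_le_div_of_nonneg_right _ (Nat.cast_nonneg X)
    exact_mod_cast h2

theorem blk_inter {S : Finset ℕ} {f : ℕ → ℕ} (hf : Slow f) {P : ℕ → Prop} {α : ℝ}
    (h : HasDensity {n | P n} α) : HasDensity {n | Blk S f n ∧ P n} α := by
  have h0 : HasDensity {n : ℕ | ∃ i : ℕ, (i : ℝ) ≤ Real.exp ((Real.log n) ^ ((1 : ℝ) / 3)) ∧
      tau S f (n + i) ≠ tau S f n} 0 := blk_density S f hf.1 hf.2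
  have h1 := dens_diff h h0
  have h2 : {n | Blk S f n ∧ P n} = {n | P n} \ {n : ℕ | ∃ i : ℕ,
      (i : ℝ) ≤ Real.exp ((Real.log n) ^ ((1 : ℝ) / 3)) ∧ tau S f (n + i) ≠ tau S f n} := by
    ext n
    constructor
    · rintro ⟨hb, hp⟩
      exact ⟨hp, fun ⟨i, hi, hne⟩ => hne (hb i hi)⟩
    · rintro ⟨hp, hb⟩
      refine ⟨fun i hi => ?_, hp⟩
      by_contra hne
      exact hb ⟨i, hi, hne⟩
  rw [h2]
  exact h1

theorem fin_passage4 : ∃ (c : ℝ) (δ : Finset ℕ → (ℕ → ℕ) → ℝ), 0 < c ∧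
    (∀ S f, Slow f →
      HasDensity {n | Blk S f n ∧ tau S f n ≤ n} (δ S f) ∧
      HasDensity {n | Blk S f n ∧ tau S f n = ⊤} (1 - δ S f) ∧
      (∀ y : ℝ, HasDensity {n | Blk S f n ∧ ∃ k : ℕ, tau S f n = k ∧
        (k : ℝ) ≤ 3 / Real.log (4 / 3) * Real.log n +
          y * ((3 * Real.log 2 / Real.log (4 / 3) - 1) * Real.sqrt (2 / Real.log (4 / 3))) *
            Real.sqrt (Real.log n)}
        (δ S f * (ProbabilityTheory.gaussianReal 0 1).real (Set.Iic y))) ∧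
      (∀ a ∈ S, 0 < a → ¬ 3 ∣ a → c / a ≤ δ S f)) ∧
    (∀ S, ∀ ε : ℝ, 0 < ε → ∃ R : ℝ, ∀ N X : ℕ, R * max (N : ℝ) 1 ≤ X →
      |(({n | tau S (fun _ => N) n ≠ ⊤} ∩ Set.Icc 1 X).ncard : ℝ) - δ S (fun _ => N) * X| ≤ ε * X ∧
      ∀ y : ℝ, |(({n | ∃ k : ℕ, tau S (fun _ => N) n = k ∧
        (k : ℝ) ≤ 3 / Real.log (4 / 3) * Real.log (X / max (N : ℝ) 1) +
          y * ((3 * Real.log 2 / Real.log (4 / 3) - 1) * Real.sqrt (2 / Real.log (4 / 3))) *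
            Real.sqrt (Real.log (X / max (N : ℝ) 1))} ∩ Set.Icc 1 X).ncard : ℝ) -
        δ S (fun _ => N) * (ProbabilityTheory.gaussianReal 0 1).real (Set.Iic y) * X| ≤ ε * X) ∧
    (∀ e : ℝ, e < 1 / 20 → ∃ K : ℝ, ∀ S f, Slow f → ∀ m : ℕ, 1 ≤ f m →
      1 - K * (f m : ℝ) ^ (-e) ≤ δ S f) ∧
    (δ {1} 0 = 1 ↔ ∀ n : ℕ, 0 < n → tau {1} 0 n ≠ ⊤) := by
  obtain ⟨c, δ, hc, h1, h2, h3, h4⟩ := Pool.Agent.Lib.MP_e43fce_nt_nat.fin_passage3
  refine ⟨c, δ, hc, ?_, h2, h3, h4⟩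
  intro S f hf
  obtain ⟨g1, g2, g3, g4⟩ := h1 S f hf
  exact ⟨blk_inter hf g1, blk_inter hf g2, fun y => blk_inter hf (g3 y), g4⟩

end Pool.Agent.Lib.MP_e43fce_nt_coal
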