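import Pool.Agent.Lib.MP_e43fce_nt_coal.Long

/-!
Coalescence of Collatz orbits: passage times are constant on long blocks.
-/

set_option autoImplicit false

namespace Pool.Agent.Lib.MP_e43fce_nt_coal

/-- the first passage time: the least `k` with `C^[k] n ∈ S` or `C^[k] n ≤ f n`, or `⊤` -/
noncomputable def tau (S : Finset ℕ) (f : ℕ → ℕ) (n : ℕ) : ℕ∞ :=
  sInf {k : ℕ∞ | ∃ j : ℕ, k = j ∧ (C^[j] n ∈ S ∨ C^[j] n ≤ f n)}

theorem le_two_mul_C (x : ℕ) : x ≤ 2 * C x := by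
  unfold C
  split_ifs <;> omega

theorem le_C_iter (j x : ℕ) : x ≤ 2 ^ j * C^[j] x := by
  induction j with
  | zero => simp
  | succ j ih =>
    rw [Function.iterate_succ_apply', pow_succ]
    have := le_two_mul_C (C^[j] x)
    calc x ≤ 2 ^ j * C^[j] x := ih
      _ ≤ 2 ^ j * (2 * C (C^[j] x)) := Nat.mul_le_mul_left _ this
      _ = 2 ^ j * 2 * C (C^[j] x) := by ring

/-- orbits of large integers stay large for a while -/
theorem C_iter_big {j M x R : ℕ} (hj : j ≤ M) (hx : 2 ^ M * R < x) : R < C^[j] x := by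
  by_contra hc
  have h1 := le_C_iter j x
  have h2 : 2 ^ j * C^[j] x ≤ 2 ^ M * R :=
    Nat.mul_le_mul (Nat.pow_le_pow_right (by norm_num) hj) (not_lt.mp hc)
  omega

/-- iterates agree after the merging time -/
theorem C_iter_agree {M j x y : ℕ} (h : C^[M] x = C^[M] y) (hj : M ≤ j) :
    C^[j] x = C^[j] y := by
  obtain ⟨k, rfl⟩ := Nat.exists_eq_add_of_le hj
  rw [add_comm, Function.iterate_add_apply, Function.iterate_add_apply, h]

/-- if the orbits of `x` and `y` agree after `M` steps and the first `M` values are larger than all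
elements of `S` and than the two bounds, and the bounds agree, the passage times agree -/
theorem tau_congr {S : Finset ℕ} {f : ℕ → ℕ} {M R x y : ℕ} (hS : ∀ a ∈ S, a ≤ R)
    (hf : f x = f y) (hfR : f x ≤ R) (h : C^[M] x = C^[M] y) (hx : 2 ^ M * R < x)
    (hy : 2 ^ M * R < y) : tau S f x = tau S f y := by
  unfold tau
  congr 1
  ext k
  simp only [Set.mem_ofPred_eq]
  apply exists_congr
  intro j
  apply and_congr_right
  intro _
  by_cases hj : j ≤ M
  · have h1 := C_iter_big hj hx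
    have h2 := C_iter_big hj hy
    constructor
    · rintro (h3 | h3)
      · exact absurd (hS _ h3) (by omega)
      · omega
    · rintro (h3 | h3)
      · exact absurd (hS _ h3) (by omega)
      · omega
  · rw [C_iter_agree h (by omega), hf]

/-- the choice of the number of steps -/
theorem exists_m (R : ℕ) : ∃ X0 : ℕ, 2 ≤ X0 ∧ ∀ X : ℕ, X0 ≤ X → ∃ m : ℕ, 1 ≤ m ∧ 2 ^ m ≤ X ∧
    Real.log X / 16 ≤ m ∧ (2 : ℝ) ^ (2 * m) * R + 1 ≤ X / √(Real.log X) ∧ 1 ≤ Real.log X := by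
  have h1 : Filter.Tendsto (fun X : ℕ => (X : ℝ)) Filter.atTop Filter.atTop :=
    tendsto_natCast_atTop_atTop
  -- `log X ≤ X ^ (1/4)` and `(R + 1) * X ^ (1/2) * X ^ (1/8) ≤ X` for large `X`
  have e1 : ∀ᶠ x : ℝ in Filter.atTop, Real.log x ≤ x ^ ((1 : ℝ) / 4) := by
    have := (isLittleO_log_rpow_atTop (r := (1 : ℝ) / 4) (by norm_num)).bound
      (show (0 : ℝ) < 1 by norm_num)
    filter_upwards [this, Filter.eventually_ge_atTop (1 : ℝ)] with x hx hx1
    have h2 : 0 ≤ Real.log x := Real.log_nonneg hx1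
    have h3 : 0 ≤ x ^ ((1 : ℝ) / 4) := by positivity
    rw [Real.norm_of_nonneg h2, Real.norm_of_nonneg h3, one_mul] at hx
    exact hx
  have e2 : ∀ᶠ x : ℝ in Filter.atTop, ((R : ℝ) + 1) ≤ x ^ ((1 : ℝ) / 4) :=
    (tendsto_rpow_atTop (by norm_num : (0 : ℝ) < 1 / 4)).eventually_ge_atTop _
  have e3 : ∀ᶠ x : ℝ in Filter.atTop, (32 : ℝ) ≤ Real.log x :=
    Real.tendsto_log_atTop.eventually_ge_atTop _
  have e4 := h1.eventually (e1.and (e2.and (e3.and (Filter.eventually_ge_atTop (2 : ℝ)))))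
  obtain ⟨X0, hX0⟩ := Filter.eventually_atTop.mp e4
  refine ⟨max X0 2, le_max_right _ _, fun X hX => ?_⟩
  obtain ⟨g1, g2, g3, g4⟩ := hX0 X (le_trans (le_max_left _ _) hX)
  have hXpos : (0 : ℝ) < X := by linarith
  set L := Real.log X with hL
  have hexpL : Real.exp L = X := Real.exp_log hXpos
  have hm : ((⌊L / 8⌋₊ : ℕ) : ℝ) ≤ L / 8 := Nat.floor_le (by linarith)
  have h2e : (2 : ℝ) ≤ Real.exp 1 := by
    have := Real.add_one_le_exp (1 : ℝ)
    linarith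
  have hq : Real.exp (L / 4) = (X : ℝ) ^ ((1 : ℝ) / 4) := by
    rw [Real.rpow_def_of_pos hXpos]
    congr 1
    ring
  refine ⟨⌊L / 8⌋₊, ?_, ?_, ?_, ?_, by linarith⟩
  · exact Nat.one_le_floor_iff _ |>.mpr (by linarith)
  · have : (2 : ℝ) ^ ⌊L / 8⌋₊ ≤ X := by
      calc (2 : ℝ) ^ ⌊L / 8⌋₊ ≤ (Real.exp 1) ^ ⌊L / 8⌋₊ :=
            pow_le_pow_left₀ (by norm_num) h2e _
        _ = Real.exp (⌊L / 8⌋₊ : ℕ) := by rw [← Real.exp_nat_mul, mul_one]
        _ ≤ Real.exp L := Real.exp_le_exp.mpr (by linarith)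
        _ = X := hexpL
    exact_mod_cast this
  · have := Nat.lt_floor_add_one (L / 8)
    linarith
  · have hA : (2 : ℝ) ^ (2 * ⌊L / 8⌋₊) ≤ (X : ℝ) ^ ((1 : ℝ) / 4) := by
      calc (2 : ℝ) ^ (2 * ⌊L / 8⌋₊) ≤ (Real.exp 1) ^ (2 * ⌊L / 8⌋₊) :=
            pow_le_pow_left₀ (by norm_num) h2e _
        _ = Real.exp ((2 * ⌊L / 8⌋₊ : ℕ) : ℝ) := by rw [← Real.exp_nat_mul, mul_one]
        _ ≤ Real.exp (L / 4) := Real.exp_le_exp.mpr (by push_cast; linarith)
        _ = _ := hq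
    have hB : (1 : ℝ) ≤ (X : ℝ) ^ ((1 : ℝ) / 4) := by
      have : (0 : ℝ) ≤ R := Nat.cast_nonneg R
      linarith
    set A := (X : ℝ) ^ ((1 : ℝ) / 4) with hAdef
    have hA4 : A * A * A * A = X := by
      rw [hAdef, ← Real.rpow_add hXpos, ← Real.rpow_add hXpos, ← Real.rpow_add hXpos]
      norm_num
    have hsL : √L ≤ A := by
      have h5 : √L ≤ L := by
        rw [Real.sqrt_le_left (by linarith)]
        nlinarith
      linarith
    have hsLpos : 0 < √L := Real.sqrt_pos.mpr (by linarith)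
    rw [le_div_iff₀ hsLpos]
    have hR0 : (0 : ℝ) ≤ R := Nat.cast_nonneg R
    have h6 : (2 : ℝ) ^ (2 * ⌊L / 8⌋₊) * R + 1 ≤ A * A := by
      calc (2 : ℝ) ^ (2 * ⌊L / 8⌋₊) * R + 1 ≤ A * R + A := by
            have := mul_le_mul_of_nonneg_right hA hR0
            linarith
        _ = A * (R + 1) := by ring
        _ ≤ A * A := mul_le_mul_of_nonneg_left g2 (by linarith)
    calc ((2 : ℝ) ^ (2 * ⌊L / 8⌋₊) * R + 1) * √L ≤ (A * A) * A :=
          mul_le_mul h6 hsL (by positivity) (by positivity)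
      _ ≤ (A * A) * A * A := by
          have : 0 ≤ A * A * A := by positivity
          nlinarith
      _ = X := hA4

theorem tau_block : ∃ D : ℝ, 0 < D ∧ ∀ (S : Finset ℕ) (N : ℕ), ∃ X0 : ℕ, ∀ X : ℕ, X0 ≤ X →
    ∀ H : ℕ, 1 ≤ H →
    ((({n : ℕ | ∃ i ≤ H, tau S (fun _ => N) (n + i) ≠ tau S (fun _ => N) n} ∩
      Set.Icc 1 X).ncard : ℝ)) ≤ D * (1 + Real.log H) / √(Real.log X) * X := by
  obtain ⟨D0, hD0, hlong⟩ := fin_long
  refine ⟨4 * D0 + 1, by linarith, fun S N => ?_⟩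
  obtain ⟨X0, hX02, hX0⟩ := exists_m (S.sup id + N)
  refine ⟨X0, fun X hX H hH => ?_⟩
  obtain ⟨m, hm1, hm2, hm3, hm4, hL1⟩ := hX0 X hX
  set R := S.sup id + N with hR
  have hS : ∀ a ∈ S, a ≤ R := fun a ha => by
    have : a ≤ S.sup id := Finset.le_sup (f := id) ha
    omega
  have hsub : ({n : ℕ | ∃ i ≤ H, tau S (fun _ => N) (n + i) ≠ tau S (fun _ => N) n} ∩
      Set.Icc 1 X) ⊆ ({n : ℕ | ∃ i ≤ H, C^[2 * m] (n + i) ≠ C^[2 * m] n} ∩ Set.Icc 1 X) ∪
        Set.Icc 1 (2 ^ (2 * m) * R) := by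
    rintro n ⟨⟨i, hi, hne⟩, hn⟩
    by_cases hbig : 2 ^ (2 * m) * R < n
    · left
      refine ⟨⟨i, hi, fun heq => hne ?_⟩, hn⟩
      exact tau_congr hS rfl (by omega) heq (by omega) hbig
    · right
      exact ⟨hn.1, not_lt.mp hbig⟩
  have h1 := hlong X m H hm1 hH hm2
  have h2 : ((({n : ℕ | ∃ i ≤ H, tau S (fun _ => N) (n + i) ≠ tau S (fun _ => N) n} ∩
      Set.Icc 1 X).ncard : ℝ)) ≤
      ((({n : ℕ | ∃ i ≤ H, C^[2 * m] (n + i) ≠ C^[2 * m] n} ∩ Set.Icc 1 X).ncard : ℝ)) +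
        (2 : ℝ) ^ (2 * m) * R := by
    have hfin : (({n : ℕ | ∃ i ≤ H, C^[2 * m] (n + i) ≠ C^[2 * m] n} ∩ Set.Icc 1 X) ∪
        Set.Icc 1 (2 ^ (2 * m) * R)).Finite :=
      ((Set.finite_Icc 1 X).subset Set.inter_subset_right).union (Set.finite_Icc _ _)
    have h3 := (Set.ncard_le_ncard hsub hfin).trans (Set.ncard_union_le _ _)
    have h4 : (Set.Icc 1 (2 ^ (2 * m) * R)).ncard = 2 ^ (2 * m) * R := by
      rw [← Finset.coe_Icc, Set.ncard_coe_finset, Nat.card_Icc]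
      omega
    rw [h4] at h3
    have h5 : ((({n : ℕ | ∃ i ≤ H, tau S (fun _ => N) (n + i) ≠ tau S (fun _ => N) n} ∩
      Set.Icc 1 X).ncard : ℝ)) ≤
      (((({n : ℕ | ∃ i ≤ H, C^[2 * m] (n + i) ≠ C^[2 * m] n} ∩ Set.Icc 1 X).ncard +
        2 ^ (2 * m) * R : ℕ)) : ℝ) := by exact_mod_cast h3
    refine h5.trans (le_of_eq ?_)
    push_cast
    ring
  have hX : (0 : ℝ) ≤ X := Nat.cast_nonneg X
  have hlogH : 0 ≤ Real.log H := Real.log_nonneg (by exact_mod_cast hH)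
  set L := Real.log X with hLdef
  have hsL : 0 < √L := Real.sqrt_pos.mpr (by linarith)
  have hsm : √L / 4 ≤ √m := by
    apply Real.le_sqrt_of_sq_le
    rw [div_pow, Real.sq_sqrt (by linarith)]
    norm_num
    linarith
  have h6 : D0 * (1 + Real.log H) / √m * X ≤ 4 * D0 * (1 + Real.log H) / √L * X := by
    apply mul_le_mul_of_nonneg_right _ hX
    have : D0 * (1 + Real.log H) / √m ≤ D0 * (1 + Real.log H) / (√L / 4) :=
      div_le_div_of_nonneg_left (by positivity) (by positivity) hsm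
    refine this.trans (le_of_eq ?_)
    field_simp
  have h7 : (2 : ℝ) ^ (2 * m) * R ≤ (1 + Real.log H) / √L * X := by
    have h8 : X / √L ≤ (1 + Real.log H) / √L * X := by
      rw [div_mul_eq_mul_div]
      apply div_le_div_of_nonneg_right _ hsL.le
      nlinarith
    linarith
  calc _ ≤ _ := h2
    _ ≤ 4 * D0 * (1 + Real.log H) / √L * X + (1 + Real.log H) / √L * X :=
        add_le_add (h1.trans h6) h7
    _ = (4 * D0 + 1) * (1 + Real.log H) / √L * X := by ring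

end Pool.Agent.Lib.MP_e43fce_nt_coal
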